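import Pool.Agent.N647.NG.SurfN

/-!
# Fibrations in surfaces over number fields: the main theorem
-/

set_option autoImplicit false

namespace Pool.Agent.N647.NG

open Finset Polynomial NumberField IsDedekindDomain Filter
open Pool.Agent.N842.HS (VT mem_VT cf norm_card)
open Pool.Agent.N647.TS

variable {K : Type} [Field K] [NumberField K] {m D : ℕ}

lemma BB_bound (k : ℕ) (F : (MvPolynomial (Fin (m + 1)) (𝓞 K))[X]) {g' : ℕ} (hF : F.Monic) (hd : F.natDegree = 2 * g' + 1) (r : ℝ)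
    (v : HeightOneSpectrum (𝓞 K)) :
    |(BB k (mkv v) F - (2 + r) * Ideal.absNorm v.asIdeal) + Ideal.absNorm v.asIdeal * (AA (mkv v) F + r)| ≤
      2 * g' * Real.sqrt (Ideal.absNorm v.asIdeal) := by
  classical
  have hmax : v.asIdeal.IsMaximal := v.isMaximal
  let fld : Field (𝓞 K ⧸ v.asIdeal) := Ideal.Quotient.field v.asIdeal
  have hfin := quot_finite v
  let ft : Fintype (𝓞 K ⧸ v.asIdeal) := Fintype.ofFinite _
  have hq : (Ideal.absNorm v.asIdeal : ℝ) = Fintype.card (𝓞 K ⧸ v.asIdeal) := by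
    rw [norm_card, Nat.card_eq_fintype_card]
  have h1 := BB_main k (mkv v) F hF hd r
  rw [← hq] at h1
  exact h1

lemma mem_monic (F₀ : (MvPolynomial (Fin m) (𝓞 K))[X]) (h : Fin D → (MvPolynomial (Fin m) (𝓞 K))[X])
    {g' : ℕ} (hF : F₀.Monic) (hd : F₀.natDegree = 2 * g' + 1) (hh : ∀ i, (h i).natDegree < 2 * g' + 1) (c : Fin D → 𝓞 K) :
    (mem F₀ h c).Monic ∧ (mem F₀ h c).natDegree = 2 * g' + 1 := by
  have h6 : (∑ i, C (MvPolynomial.C (c i)) * h i).natDegree ≤ 2 * g' := by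
    refine natDegree_sum_le_of_forall_le _ _ fun i _ => ?_
    refine (natDegree_C_mul_le _ _).trans ?_
    have := hh i
    omega
  have h7 : (∑ i, C (MvPolynomial.C (c i)) * h i).degree < F₀.degree := by
    rw [degree_eq_natDegree hF.ne_zero, hd]
    exact lt_of_le_of_lt degree_le_natDegree (by exact_mod_cast (by omega : (∑ i, C (MvPolynomial.C (c i)) * h i).natDegree < 2 * g' + 1))
  unfold mem
  exact ⟨hF.add_of_left h7, by rw [natDegree_add_eq_left_of_degree_lt h7, hd]⟩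

lemma rpow_min_le (N : ℕ) {a b : ℝ} (ha : 0 < a) (hb : 0 < b) : (N : ℝ) ^ (min a b) ≤ (N : ℝ) ^ a := by
  rcases Nat.eq_zero_or_pos N with h | h
  · subst h
    rw [Nat.cast_zero, Real.zero_rpow (lt_min ha hb).ne', Real.zero_rpow ha.ne']
  · exact Real.rpow_le_rpow_of_exponent_le (by exact_mod_cast h) (min_le_left _ _)

lemma card_two {ι : Type} (s : Finset ι) (p q r : ι → Prop) [DecidablePred p] [DecidablePred q] [DecidablePred r]
    (h : ∀ x, p x → q x → r x) : ((s.filter fun x => ¬ r x).card : ℝ) ≤ (s.filter fun x => ¬ p x).card + (s.filter fun x => ¬ q x).card := by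
  classical
  have h1 : s.filter (fun x => ¬ r x) ⊆ s.filter (fun x => ¬ p x) ∪ s.filter (fun x => ¬ q x) := by
    intro x hx
    rw [mem_filter] at hx
    rw [mem_union, mem_filter, mem_filter]
    by_contra hcon
    push Not at hcon
    exact hx.2 (h x (hcon.1 hx.1) (hcon.2 hx.1))
  exact_mod_cast (card_le_card h1).trans (card_union_le _ _)

open Classical in
/-- **The sums of the averages of the traces on `H²`.** -/
theorem surfT (k : ℕ) (F₀ : (MvPolynomial (Fin (m + 1)) (𝓞 K))[X]) (h : Fin D → (MvPolynomial (Fin (m + 1)) (𝓞 K))[X])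
    {g' : ℕ} (hF : F₀.Monic) (hd : F₀.natDegree = 2 * g' + 1) (hh : ∀ i, (h i).natDegree < 2 * g' + 1) (r C₀ : ℝ)
    (S : Set (HeightOneSpectrum (𝓞 K))) (hS : S.Finite) (hs : ∀ v ∉ S, SepV v h)
    (hb : ∀ v ∉ S, |(cc v F₀ h : ℝ) - cb v h - r * (Ideal.absNorm v.asIdeal : ℝ) ^ (m + 1)| ≤
      C₀ * ((Ideal.absNorm v.asIdeal : ℝ) ^ (m + 1) / Real.sqrt (Ideal.absNorm v.asIdeal)))
    (P : MvPolynomial (Fin D) (𝓞 K)) (hP : P ≠ 0)
    {g : ℕ} (ω : Fin g → 𝓞 K) (hω : Submodule.span ℤ (Set.range ω) = ⊤) (hD : 1 ≤ D * g)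
    {G : Fin (D * g) → Finset ℝ} {a : Fin (D * g) → ℝ → ℝ} {c : Fin (D * g) → ℝ}
    (ha : ∀ i, Adm (G i) (a i) (c i)) (hc : Function.Injective c) (δ : ℝ) (hδ : 0 < δ) (A B : ℕ) :
    ∃ κ : ℝ, 0 < κ ∧ ∃ y₀ : ℕ, ∀ y N : ℕ, y₀ ≤ y →
    ∀ W : Set (HeightOneSpectrum (𝓞 K) → ℝ), W.Finite → W.ncard ≤ y ^ B → (∀ w ∈ W, ∀ v, |w v| ≤ 1) →
    ∀ E : (Fin (D * g) → ℕ) → Prop,
    (∀ n, (∀ w ∈ W, ∀ R : Set (HeightOneSpectrum (𝓞 K)), (∀ v ∈ R, MvPolynomial.eval (cf ω n) P ∈ v.asIdeal) →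
      (∀ T : ℕ, y ≤ T → (T : ℝ) ≤ (N : ℝ) ^ κ →
        |∑ v ∈ (VT K T).filter (fun v => v ∉ R), w v * ((BB k (mkv v) (mem F₀ h (cf ω n)) - (2 + r) * Ideal.absNorm v.asIdeal) *
          Real.log (Ideal.absNorm v.asIdeal))| ≤ (T : ℝ) ^ (3 / 2 + δ)) ∧
      (∀ T₁ T₂ : ℕ, y ≤ T₁ → T₁ ≤ T₂ → (T₂ : ℝ) ≤ (N : ℝ) ^ κ → ∀ z : ℂ, 3 / 2 + δ ≤ z.re → |z.im| ≤ (T₁ : ℝ) ^ B →
        ‖∑ v ∈ (VT K T₂).filter (fun v => v ∉ R ∧ T₁ < Ideal.absNorm v.asIdeal),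
          ((w v * ((BB k (mkv v) (mem F₀ h (cf ω n)) - (2 + r) * Ideal.absNorm v.asIdeal) * Real.log (Ideal.absNorm v.asIdeal)) : ℝ) : ℂ) *
            (Ideal.absNorm v.asIdeal : ℂ) ^ (-z)‖ ≤ (T₁ : ℝ) ^ (3 / 2 + δ - z.re))) → E n) →
    (((Ioc N (2 * N)).filter fun t => ¬ E (pv G a t)).card : ℝ) ≤ 1 / (y : ℝ) ^ A * N ∧
    ((((Ioc N (2 * N)).filter Nat.Prime).filter fun t => ¬ E (pv G a t)).card : ℝ) ≤
      1 / (y : ℝ) ^ A * ((Ioc N (2 * N)).filter Nat.Prime).card := by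
  obtain ⟨y₁, hy₁, hdet⟩ := surf_det (K := K) δ hδ (2 * g') (by positivity)
  obtain ⟨κ₁, hκ₁, y₂, hnag⟩ := nagN (by omega) F₀ h hF hd hh r C₀ S hS hs hb P hP ω hω hD ha hc (δ / 2) (by positivity) (A + 1) B
  obtain ⟨κ₂, hκ₂, y₃, hana⟩ := anaN (by omega) F₀ h hF hd hh r C₀ S hS hs hb P hP ω hω hD ha hc (δ / 2) (by positivity) (A + 1) B
  refine ⟨min κ₁ κ₂, lt_min hκ₁ hκ₂, y₁ + y₂ + y₃ + 2, fun y N hy W hW hWc hW1 E hE => ?_⟩
  have hy2 : 2 ≤ y := by omega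
  have hy0 : (0 : ℝ) < y := by exact_mod_cast (by omega : 0 < y)
  obtain ⟨E₁, hE₁⟩ : ∃ E₁ : (Fin (D * g) → ℕ) → Prop, E₁ = fun n => ∀ T : ℕ, y ≤ T → (T : ℝ) ≤ (N : ℝ) ^ κ₁ →
      ∀ w ∈ W, ∀ R : Set (HeightOneSpectrum (𝓞 K)), (∀ v ∈ R, MvPolynomial.eval (cf ω n) P ∈ v.asIdeal) →
      |∑ v ∈ (VT K T).filter (fun v => v ∉ R), (w v * min ((Ideal.absNorm v.asIdeal : ℝ) / T) 1) *
        ((AA (mkv v) (mem F₀ h (cf ω n)) + r) * Real.log (Ideal.absNorm v.asIdeal))| ≤ (T : ℝ) ^ (1 / 2 + δ / 2) := ⟨_, rfl⟩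
  obtain ⟨E₂, hE₂⟩ : ∃ E₂ : (Fin (D * g) → ℕ) → Prop, E₂ = fun n => ∀ T₁ T₂ : ℕ, y ≤ T₁ → T₁ ≤ T₂ → (T₂ : ℝ) ≤ (N : ℝ) ^ κ₂ →
      ∀ w ∈ W, ∀ R : Set (HeightOneSpectrum (𝓞 K)), (∀ v ∈ R, MvPolynomial.eval (cf ω n) P ∈ v.asIdeal) →
      ∀ z : ℂ, 1 / 2 + δ / 2 ≤ z.re → |z.im| ≤ (T₁ : ℝ) ^ B →
      ‖∑ v ∈ (VT K T₂).filter (fun v => v ∉ R ∧ T₁ < Ideal.absNorm v.asIdeal),
        ((w v * ((AA (mkv v) (mem F₀ h (cf ω n)) + r) * Real.log (Ideal.absNorm v.asIdeal)) : ℝ) : ℂ) * (Ideal.absNorm v.asIdeal : ℂ) ^ (-z)‖ ≤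
          (T₁ : ℝ) ^ (1 / 2 + δ / 2 - z.re) := ⟨_, rfl⟩
  have hboth : ∀ n, E₁ n → E₂ n → E n := by
    intro n h1 h2
    rw [hE₁] at h1
    rw [hE₂] at h2
    obtain ⟨h3, h4⟩ := mem_monic F₀ h hF hd hh (cf ω n)
    refine hE n fun w hw R hR => ?_
    obtain ⟨h5, h6⟩ := hdet (fun v => AA (mkv v) (mem F₀ h (cf ω n)) + r)
      (fun v => BB k (mkv v) (mem F₀ h (cf ω n)) - (2 + r) * Ideal.absNorm v.asIdeal) (fun v => BB_bound k _ h3 h4 r v) w (hW1 w hw) R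
    refine ⟨fun T hyT hTN => h5 T (by omega) (h1 T hyT (hTN.trans (rpow_min_le N hκ₁ hκ₂)) w hw R hR), fun T₁ T₂ hyT hT12 hTN z hz1 hz2 => ?_⟩
    have h7 : (N : ℝ) ^ (min κ₁ κ₂) ≤ (N : ℝ) ^ κ₂ := by
      rw [min_comm]
      exact rpow_min_le N hκ₂ hκ₁
    refine h6 T₁ T₂ (by omega) z hz1 (h2 T₁ T₂ hyT hT12 (hTN.trans h7) w hw R hR (z - 1) ?_ ?_)
    · rw [Complex.sub_re, Complex.one_re]
      linarith
    · rw [Complex.sub_im, Complex.one_im, sub_zero]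
      exact hz2
  obtain ⟨a1, a2⟩ := hnag y N (by omega)
    (fun T => if y ≤ T then (fun w : HeightOneSpectrum (𝓞 K) → ℝ => fun v => w v * min ((Ideal.absNorm v.asIdeal : ℝ) / T) 1) '' W else ∅)
    (fun T => by
      beta_reduce
      split_ifs with hT
      · exact ⟨hW.image _, (Set.ncard_image_le hW).trans (hWc.trans (Nat.pow_le_pow_left hT B))⟩
      · exact ⟨Set.finite_empty, by rw [Set.ncard_empty]; exact Nat.zero_le _⟩)
    (fun T w hw v => by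
      beta_reduce at hw
      split_ifs at hw with hT
      · obtain ⟨w', hw', rfl⟩ := hw
        beta_reduce
        rw [abs_mul]
        refine mul_le_one₀ (hW1 w' hw' v) (abs_nonneg _) ?_
        have h8 : 0 ≤ min ((Ideal.absNorm v.asIdeal : ℝ) / T) 1 := le_min (by positivity) zero_le_one
        rw [abs_of_nonneg h8]
        exact min_le_right _ _
      · exact absurd hw (Set.notMem_empty _)) E₁ (fun n hn => by
        rw [hE₁]
        intro T hyT hTN w hw R hR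
        refine hn T hyT hTN _ ?_ R hR
        beta_reduce
        rw [if_pos hyT]
        exact ⟨w, hw, rfl⟩)
  obtain ⟨b1, b2⟩ := hana y N (by omega) W hW hWc hW1 E₂ (fun n hn => by
    rw [hE₂]
    exact hn)
  have hpow : 1 / (y : ℝ) ^ (A + 1) + 1 / (y : ℝ) ^ (A + 1) ≤ 1 / (y : ℝ) ^ A := by
    have h9 : (2 : ℝ) ≤ y := by exact_mod_cast hy2
    rw [← add_div, div_le_div_iff₀ (by positivity) (by positivity), pow_succ, one_mul]
    nlinarith [show (0 : ℝ) < (y : ℝ) ^ A by positivity]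
  constructor
  · refine (card_two _ (fun t => E₁ (pv G a t)) (fun t => E₂ (pv G a t)) (fun t => E (pv G a t)) fun t => hboth _).trans ?_
    calc _ ≤ 1 / (y : ℝ) ^ (A + 1) * N + 1 / (y : ℝ) ^ (A + 1) * N := add_le_add a1 b1
      _ = (1 / (y : ℝ) ^ (A + 1) + 1 / (y : ℝ) ^ (A + 1)) * N := by ring
      _ ≤ _ := mul_le_mul_of_nonneg_right hpow (Nat.cast_nonneg _)
  · refine (card_two _ (fun t => E₁ (pv G a t)) (fun t => E₂ (pv G a t)) (fun t => E (pv G a t)) fun t => hboth _).trans ?_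
    calc _ ≤ 1 / (y : ℝ) ^ (A + 1) * ((Ioc N (2 * N)).filter Nat.Prime).card + 1 / (y : ℝ) ^ (A + 1) * ((Ioc N (2 * N)).filter Nat.Prime).card :=
          add_le_add a2 b2
      _ = (1 / (y : ℝ) ^ (A + 1) + 1 / (y : ℝ) ^ (A + 1)) * ((Ioc N (2 * N)).filter Nat.Prime).card := by ring
      _ ≤ _ := mul_le_mul_of_nonneg_right hpow (Nat.cast_nonneg _)

end Pool.Agent.N647.NG
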