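import Pool.Agent.N647.NG.Num

/-!
# Explicit linear systems of fibrations with `r` sections over number fields
-/

set_option autoImplicit false

namespace Pool.Agent.N647.NG

open Finset Polynomial NumberField IsDedekindDomain Filter
open Pool.Agent.N842.HS (VT mem_VT cf norm_card)

section
variable (R : Type) [CommRing R] (d r e m : ℕ)

/-- the product of the `x - j`, `1 ≤ j ≤ r` -/
noncomputable def wr : (MvPolynomial (Fin (m + 1)) R)[X] := ∏ j ∈ range r, (X - C (((j + 1 : ℕ) : MvPolynomial (Fin (m + 1)) R)))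

/-- the fixed part -/
noncomputable def Fe : (MvPolynomial (Fin (m + 1)) R)[X] := wr R r m * X ^ (d - r) + C (MvPolynomial.X 0 ^ 2)

/-- the exponents -/
abbrev Ee : Type := Fin (d - r) × (Fin (m + 1) → Fin (e + 1))

variable {e} in
/-- the variable part -/
noncomputable def he (i : Ee d r e m) : (MvPolynomial (Fin (m + 1)) R)[X] :=
  wr R r m * (X ^ (i.1 : ℕ) * C (∏ k, MvPolynomial.X k ^ (i.2 k : ℕ)))

lemma wr_monic : (wr R r m).Monic := monic_prod_of_monic _ _ fun j _ => monic_X_sub_C _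

lemma wr_deg [Nontrivial R] : (wr R r m).natDegree = r := by
  unfold wr
  rw [natDegree_prod_of_monic _ _ fun j _ => monic_X_sub_C _]
  simp only [natDegree_X_sub_C, sum_const, card_range, smul_eq_mul, mul_one]

lemma Fe_deg [Nontrivial R] (h : r + 1 ≤ d) : (Fe R d r m).Monic ∧ (Fe R d r m).natDegree = d := by
  have h1 : (wr R r m * X ^ (d - r)).Monic := (wr_monic R r m).mul (monic_X_pow _)
  have h2 : (wr R r m * X ^ (d - r)).natDegree = d := by
    rw [(wr_monic R r m).natDegree_mul (monic_X_pow _), wr_deg, natDegree_X_pow]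
    omega
  have h3 : (C (MvPolynomial.X 0 ^ 2) : (MvPolynomial (Fin (m + 1)) R)[X]).degree < (wr R r m * X ^ (d - r)).degree := by
    rw [degree_eq_natDegree h1.ne_zero, h2]
    exact lt_of_le_of_lt degree_C_le (by exact_mod_cast (by omega : 0 < d))
  unfold Fe
  exact ⟨h1.add_of_left h3, by rw [natDegree_add_eq_left_of_degree_lt h3, h2]⟩

lemma he_deg [Nontrivial R] (h : r + 1 ≤ d) (i : Ee d r e m) : (he R d r m i).natDegree < d := by
  unfold he
  refine lt_of_le_of_lt natDegree_mul_le ?_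
  rw [wr_deg]
  have h1 : (X ^ (i.1 : ℕ) * C (∏ k, MvPolynomial.X k ^ (i.2 k : ℕ)) : (MvPolynomial (Fin (m + 1)) R)[X]).natDegree ≤ i.1 := by
    refine natDegree_mul_le.trans ?_
    rw [natDegree_C, add_zero, natDegree_X_pow]
  have h2 := i.1.2
  omega

variable {R} {κ : Type} [CommRing κ] (φ : R →+* κ)

/-- the value of the product -/
def wv (r : ℕ) (x : κ) : κ := ∏ j ∈ range r, (x - ((j + 1 : ℕ) : κ))

lemma vf_wr (P : (Fin (m + 1) → κ) × κ) : vf φ (wr R r m) P = wv r P.2 := by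
  unfold vf ev wr wv
  rw [Polynomial.map_prod, eval_prod]
  refine prod_congr rfl fun j _ => ?_
  rw [Polynomial.map_sub, map_X, map_C, eval_sub, eval_X, eval_C, map_natCast]

lemma vf_mul (F G : (MvPolynomial (Fin m) R)[X]) (P : (Fin m → κ) × κ) : vf φ (F * G) P = vf φ F P * vf φ G P := by
  unfold vf ev
  rw [Polynomial.map_mul, eval_mul]

lemma vf_add (F G : (MvPolynomial (Fin m) R)[X]) (P : (Fin m → κ) × κ) : vf φ (F + G) P = vf φ F P + vf φ G P := by
  unfold vf ev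
  rw [Polynomial.map_add, eval_add]

lemma vf_X_pow (k : ℕ) (P : (Fin m → κ) × κ) : vf φ (X ^ k : (MvPolynomial (Fin m) R)[X]) P = P.2 ^ k := by
  unfold vf ev
  rw [Polynomial.map_pow, map_X, eval_pow, eval_X]

lemma vf_C (a : MvPolynomial (Fin m) R) (P : (Fin m → κ) × κ) : vf φ (C a) P = MvPolynomial.eval₂Hom φ P.1 a := by
  unfold vf ev
  rw [map_C, eval_C]

lemma vf_Fe (P : (Fin (m + 1) → κ) × κ) : vf φ (Fe R d r m) P = wv r P.2 * P.2 ^ (d - r) + P.1 0 ^ 2 := by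
  unfold Fe
  rw [vf_add, vf_mul, vf_wr, vf_X_pow, vf_C]
  simp

lemma vf_he (i : Ee d r e m) (P : (Fin (m + 1) → κ) × κ) :
    vf φ (he R d r m i) P = wv r P.2 * (P.2 ^ (i.1 : ℕ) * ∏ k, P.1 k ^ (i.2 k : ℕ)) := by
  unfold he
  rw [vf_mul, vf_mul, vf_wr, vf_X_pow, vf_C, map_prod]
  simp

end

section
variable {κ : Type} [Field κ] (d r e m : ℕ) {R : Type} [CommRing R] (φ : R →+* κ)

lemma mono_one (hd : r + 2 ≤ d) (P : (Fin (m + 1) → κ) × κ) :
    vf φ (he R d r m ((⟨0, by omega⟩, fun _ => 0) : Ee d r e m)) P = wv r P.2 := by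
  rw [vf_he]
  simp

/-- separation -/
lemma sep_e (hd : r + 2 ≤ d) (he1 : 1 ≤ e) (P Q : (Fin (m + 1) → κ) × κ) (hPQ : P ≠ Q) (hP : ∃ i : Ee d r e m, vf φ (he R d r m i) P ≠ 0) :
    ¬ ∃ l : κ, ∀ i : Ee d r e m, vf φ (he R d r m i) P = l * vf φ (he R d r m i) Q := by
  rintro ⟨l, hl⟩
  obtain ⟨i, hi⟩ := hP
  rw [vf_he] at hi
  have hw : wv r P.2 ≠ 0 := left_ne_zero_of_mul hi
  have h0 := hl (⟨0, by omega⟩, fun _ => 0)
  rw [mono_one d r e m φ hd, mono_one d r e m φ hd] at h0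
  apply hPQ
  have h1 := hl (⟨1, by omega⟩, fun _ => 0)
  rw [vf_he, vf_he] at h1
  simp only [pow_one, Fin.val_zero, pow_zero, prod_const_one, mul_one] at h1
  have hx : P.2 = Q.2 := by
    apply mul_left_cancel₀ hw
    rw [h1, h0]
    ring
  have ht : P.1 = Q.1 := by
    funext k
    have h3 := hl (⟨0, by omega⟩, Pi.single k ⟨1, by omega⟩)
    rw [vf_he, vf_he] at h3
    have h4 : ∀ t : Fin (m + 1) → κ, ∏ j, t j ^ (((Pi.single k (⟨1, by omega⟩ : Fin (e + 1)) : Fin (m + 1) → Fin (e + 1)) j : Fin (e + 1)) : ℕ) = t k := by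
      intro t
      rw [prod_eq_single k]
      · simp
      · intro j _ hj
        simp [Pi.single_eq_of_ne hj]
      · intro hk
        exact absurd (mem_univ k) hk
    rw [h4, h4] at h3
    simp only [pow_zero, one_mul] at h3
    apply mul_left_cancel₀ hw
    rw [h3, h0]
    ring
  exact Prod.ext ht hx

variable [Fintype κ] [DecidableEq κ]

lemma card_wv (hr : ∀ i j : ℕ, i < r → j < r → ((i + 1 : ℕ) : κ) = ((j + 1 : ℕ) : κ) → i = j) :
    (univ.filter (fun x : κ => wv r x = 0)).card = r := by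
  have h1 : univ.filter (fun x : κ => wv r x = 0) = (range r).image (fun j => ((j + 1 : ℕ) : κ)) := by
    ext x
    rw [mem_filter, mem_image]
    unfold wv
    rw [prod_eq_zero_iff]
    constructor
    · rintro ⟨_, j, hj, hj2⟩
      exact ⟨j, hj, (sub_eq_zero.1 hj2).symm⟩
    · rintro ⟨j, hj, hj2⟩
      exact ⟨mem_univ _, j, hj, by rw [hj2, sub_self]⟩
  rw [h1, card_image_of_injOn, card_range]
  intro i hi j hj hij
  rw [mem_coe, mem_range] at hi hj
  exact hr i j hi hj hij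

lemma ch_sq (a : κ) : ch (a ^ 2) = if a = 0 then 0 else 1 := by
  unfold ch
  split_ifs with h
  · simp [h]
  · rw [quadraticChar_sq_one' h]
    simp

lemma bs_e (D : ℕ) (ee : Fin D ≃ Ee d r e m) (hd : r + 2 ≤ d)
    (hr : ∀ i j : ℕ, i < r → j < r → ((i + 1 : ℕ) : κ) = ((j + 1 : ℕ) : κ) → i = j) :
    bs (vf φ (Fe R d r m)) (fun i : Fin D => vf φ (he R d r m (ee i))) = r * (((Fintype.card κ : ℝ) - 1) * (Fintype.card κ : ℝ) ^ m) := by
  unfold bs
  have h1 : univ.filter (fun P : (Fin (m + 1) → κ) × κ => ∀ i : Fin D, vf φ (he R d r m (ee i)) P = 0) =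
      univ.filter (fun P : (Fin (m + 1) → κ) × κ => wv r P.2 = 0) := by
    ext P
    rw [mem_filter, mem_filter]
    constructor
    · rintro ⟨_, h⟩
      refine ⟨mem_univ _, ?_⟩
      have h3 := h (ee.symm (⟨0, by omega⟩, fun _ => 0))
      rw [Equiv.apply_symm_apply, mono_one d r e m φ hd] at h3
      exact h3
    · rintro ⟨_, h⟩
      refine ⟨mem_univ _, fun i => ?_⟩
      rw [vf_he, h, zero_mul]
  rw [h1, sum_filter]
  have h2 : ∀ P : (Fin (m + 1) → κ) × κ, (if wv r P.2 = 0 then ch (vf φ (Fe R d r m) P) else 0) =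
      (if P.1 0 = 0 then (0 : ℝ) else 1) * (if wv r P.2 = 0 then 1 else 0) := by
    intro P
    by_cases h : wv r P.2 = 0
    · rw [if_pos h, if_pos h, mul_one, vf_Fe, h, zero_mul, zero_add, ch_sq]
    · rw [if_neg h, if_neg h, mul_zero]
  rw [sum_congr rfl fun P _ => h2 P, Fintype.sum_prod_type]
  have h5 : ∑ t : Fin (m + 1) → κ, ∑ x : κ, (if (t, x).1 0 = 0 then (0 : ℝ) else 1) * (if wv r (t, x).2 = 0 then (1 : ℝ) else 0) =
      (∑ t : Fin (m + 1) → κ, (if t 0 = 0 then (0 : ℝ) else 1)) * ∑ x : κ, (if wv r x = 0 then (1 : ℝ) else 0) := by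
    rw [Finset.sum_mul_sum]
  rw [h5]
  have h3 : ∑ x : κ, (if wv r x = 0 then (1 : ℝ) else 0) = r := by
    rw [← sum_filter, sum_const, card_wv r hr, nsmul_eq_mul, mul_one]
  have h4 : ∑ t : Fin (m + 1) → κ, (if t 0 = 0 then (0 : ℝ) else 1) = ((Fintype.card κ : ℝ) - 1) * (Fintype.card κ : ℝ) ^ m := by
    have e1 : ∑ t : Fin (m + 1) → κ, (if t 0 = 0 then (0 : ℝ) else 1) = ∑ z : κ × (Fin m → κ), (if z.1 = 0 then (0 : ℝ) else 1) := by
      refine Fintype.sum_equiv (Fin.consEquiv (fun _ => κ)).symm _ _ fun t => ?_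
      rfl
    rw [e1, Fintype.sum_prod_type]
    show ∑ x : κ, ∑ _y : Fin m → κ, (if x = 0 then (0 : ℝ) else 1) = _
    simp only [sum_const, card_univ, Fintype.card_fun, Fintype.card_fin]
    rw [← smul_sum]
    have e2 : ∑ x : κ, (if x = 0 then (0 : ℝ) else 1) = (Fintype.card κ : ℝ) - 1 := by
      have e3 : ∀ x : κ, (if x = 0 then (0 : ℝ) else 1) = 1 - (if x = 0 then 1 else 0) := by
        intro x
        split_ifs <;> simp
      rw [sum_congr rfl fun x _ => e3 x, sum_sub_distrib, sum_const, card_univ, nsmul_eq_mul, mul_one, sum_ite_eq' univ (0 : κ) fun _ => (1 : ℝ)]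
      simp
    rw [e2, nsmul_eq_mul]
    push_cast
    ring
  rw [h3, h4]
  ring

end

section
variable {K : Type} [Field K] [NumberField K] (d r e m D : ℕ) (ee : Fin D ≃ Ee d r e m)

lemma sepV_e (hd : r + 2 ≤ d) (he1 : 1 ≤ e) (v : HeightOneSpectrum (𝓞 K)) : SepV v (fun i => he (𝓞 K) d r m (ee i)) := by
  have hmax : v.asIdeal.IsMaximal := v.isMaximal
  let fld : Field (𝓞 K ⧸ v.asIdeal) := Ideal.Quotient.field v.asIdeal
  intro P Q hPQ hP hl
  obtain ⟨i, hi⟩ := hP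
  obtain ⟨l, hl⟩ := hl
  refine sep_e d r e m (mkv v) hd he1 P Q hPQ ⟨ee i, hi⟩ ⟨l, fun i => ?_⟩
  have := hl (ee.symm i)
  beta_reduce at this
  rw [Equiv.apply_symm_apply] at this
  exact this

lemma base_e (hd : r + 2 ≤ d) (v : HeightOneSpectrum (𝓞 K)) (hv : (2 : 𝓞 K) ∉ v.asIdeal) (hvr : ((r.factorial : ℕ) : 𝓞 K) ∉ v.asIdeal) :
    |(cc v (Fe (𝓞 K) d r m) (fun i => he (𝓞 K) d r m (ee i)) : ℝ) - cb v (fun i => he (𝓞 K) d r m (ee i)) -
      r * (Ideal.absNorm v.asIdeal : ℝ) ^ (m + 1)| ≤ r * ((Ideal.absNorm v.asIdeal : ℝ) ^ (m + 1) / Real.sqrt (Ideal.absNorm v.asIdeal)) := by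
  classical
  have hmax : v.asIdeal.IsMaximal := v.isMaximal
  let fld : Field (𝓞 K ⧸ v.asIdeal) := Ideal.Quotient.field v.asIdeal
  have hfin := quot_finite v
  let ft : Fintype (𝓞 K ⧸ v.asIdeal) := Fintype.ofFinite _
  have h2 : ringChar (𝓞 K ⧸ v.asIdeal) ≠ 2 := by
    intro h3
    have h4 : ((ringChar (𝓞 K ⧸ v.asIdeal) : ℕ) : 𝓞 K ⧸ v.asIdeal) = 0 := CharP.cast_eq_zero _ _
    rw [h3] at h4
    apply hv
    rw [← Ideal.Quotient.eq_zero_iff_mem, map_ofNat]
    exact_mod_cast h4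
  have hq : (Ideal.absNorm v.asIdeal : ℝ) = Fintype.card (𝓞 K ⧸ v.asIdeal) := by
    rw [norm_card, Nat.card_eq_fintype_card]
  have hkey : ∀ k : ℕ, 0 < k → k ≤ r → ((k : ℕ) : 𝓞 K ⧸ v.asIdeal) ≠ 0 := by
    intro k hk hkr h3
    apply hvr
    rw [← Ideal.Quotient.eq_zero_iff_mem, map_natCast]
    obtain ⟨c, hc⟩ := Nat.dvd_factorial hk hkr
    rw [hc, Nat.cast_mul, h3, zero_mul]
  have hr : ∀ i j : ℕ, i < r → j < r → ((i + 1 : ℕ) : 𝓞 K ⧸ v.asIdeal) = ((j + 1 : ℕ) : 𝓞 K ⧸ v.asIdeal) → i = j := by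
    intro i j hi hj hij
    rcases lt_trichotomy i j with h3 | h3 | h3
    · exfalso
      refine hkey (j - i) (by omega) (by omega) ?_
      rw [Nat.cast_sub h3.le]
      push_cast at hij
      linear_combination -hij
    · exact h3
    · exfalso
      refine hkey (i - j) (by omega) (by omega) ?_
      rw [Nat.cast_sub h3.le]
      push_cast at hij
      linear_combination hij
  have hbs := bs_card h2 (vf (mkv v) (Fe (𝓞 K) d r m)) (fun i : Fin D => vf (mkv v) (he (𝓞 K) d r m (ee i)))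
  rw [bs_e d r e m (mkv v) D ee hd hr, ← hq] at hbs
  have h5 : (cc v (Fe (𝓞 K) d r m) (fun i => he (𝓞 K) d r m (ee i)) : ℝ) - cb v (fun i => he (𝓞 K) d r m (ee i)) =
      r * (((Ideal.absNorm v.asIdeal : ℝ) - 1) * (Ideal.absNorm v.asIdeal : ℝ) ^ m) := hbs.symm
  rw [h5]
  have hq1 := q_one v
  have hs1 := sq_one v
  have e1 : (r : ℝ) * (((Ideal.absNorm v.asIdeal : ℝ) - 1) * (Ideal.absNorm v.asIdeal : ℝ) ^ m) - r * (Ideal.absNorm v.asIdeal : ℝ) ^ (m + 1) =
      -(r * (Ideal.absNorm v.asIdeal : ℝ) ^ m) := by ring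
  rw [e1, abs_neg, abs_of_nonneg (by positivity)]
  apply mul_le_mul_of_nonneg_left _ (Nat.cast_nonneg _)
  rw [le_div_iff₀ (by linarith), pow_succ]
  apply mul_le_mul_of_nonneg_left _ (by positivity)
  rw [Real.sqrt_le_left (by linarith)]
  nlinarith

lemma finite_e : ({v : HeightOneSpectrum (𝓞 K) | (2 : 𝓞 K) ∈ v.asIdeal} ∪
    {v : HeightOneSpectrum (𝓞 K) | ((r.factorial : ℕ) : 𝓞 K) ∈ v.asIdeal}).Finite :=
  (finite_dvd 2 two_ne_zero).union (finite_dvd _ (by exact_mod_cast Nat.factorial_ne_zero r))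

end

end Pool.Agent.N647.NG
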