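import Pool.Agent.N647.NG.NagN
import Pool.Agent.N647.NG.Expl

/-!
# Nagao's Dirichlet polynomials in vertical strips
-/

set_option autoImplicit false

namespace Pool.Agent.N647.NG

open Finset Polynomial NumberField IsDedekindDomain Filter
open Pool.Agent.N842.HS (VT mem_VT cf norm_card)
open Pool.Agent.N647.TS

/-- partial summation on a block -/
lemma abel_block (c : ℕ → ℂ) (f : ℕ → ℝ) (U : ℕ) (M : ℝ) (V : ℕ) (hUV : U ≤ V) (hf : ∀ n, U ≤ n → n < V → f (n + 1) ≤ f n)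
    (hf0 : 0 ≤ f V) (hM : ∀ n, U ≤ n → n ≤ V → ‖∑ k ∈ Ioc U n, c k‖ ≤ M) : ‖∑ k ∈ Ioc U V, c k * (f k : ℂ)‖ ≤ M * f U := by
  have key : ∀ W : ℕ, U ≤ W → W ≤ V → ‖∑ k ∈ Ioc U W, c k * (f k : ℂ) - (f W : ℂ) * ∑ k ∈ Ioc U W, c k‖ ≤ M * (f U - f W) := by
    intro W hUW
    induction W, hUW using Nat.le_induction with
    | base =>
      intro _
      simp
    | succ n hn ih =>
      intro hnV
      have h1 := ih (by omega)
      have h2 := hM n hn (by omega)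
      have h3 := hf n hn (by omega)
      have e1 : ∑ k ∈ Ioc U (n + 1), c k * (f k : ℂ) = ∑ k ∈ Ioc U n, c k * (f k : ℂ) + c (n + 1) * (f (n + 1) : ℂ) :=
        sum_Ioc_succ_top (by omega) _
      have e2 : ∑ k ∈ Ioc U (n + 1), c k = ∑ k ∈ Ioc U n, c k + c (n + 1) := sum_Ioc_succ_top (by omega) _
      rw [e1, e2]
      have e3 : ∑ k ∈ Ioc U n, c k * (f k : ℂ) + c (n + 1) * (f (n + 1) : ℂ) - (f (n + 1) : ℂ) * (∑ k ∈ Ioc U n, c k + c (n + 1)) =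
          (∑ k ∈ Ioc U n, c k * (f k : ℂ) - (f n : ℂ) * ∑ k ∈ Ioc U n, c k) + ((f n - f (n + 1) : ℝ) : ℂ) * ∑ k ∈ Ioc U n, c k := by
        push_cast
        ring
      rw [e3]
      refine (norm_add_le _ _).trans ?_
      rw [norm_mul, Complex.norm_real, Real.norm_of_nonneg (by linarith)]
      have h4 : (f n - f (n + 1)) * ‖∑ k ∈ Ioc U n, c k‖ ≤ (f n - f (n + 1)) * M := mul_le_mul_of_nonneg_left h2 (by linarith)
      linarith
  have h1 := key V hUV le_rfl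
  have h2 := hM V hUV le_rfl
  have e1 : ∑ k ∈ Ioc U V, c k * (f k : ℂ) = (∑ k ∈ Ioc U V, c k * (f k : ℂ) - (f V : ℂ) * ∑ k ∈ Ioc U V, c k) + (f V : ℂ) * ∑ k ∈ Ioc U V, c k := by ring
  rw [e1]
  refine (norm_add_le _ _).trans ?_
  rw [norm_mul, Complex.norm_real, Real.norm_of_nonneg hf0]
  have h3 : f V * ‖∑ k ∈ Ioc U V, c k‖ ≤ f V * M := mul_le_mul_of_nonneg_left h2 hf0
  linarith

/-- from the sums to the Dirichlet polynomials -/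
lemma dyadic (a ε : ℝ) (ha : 0 ≤ a) (hε : 0 < ε) (c : ℕ → ℂ) (y X : ℕ) (hy : 1 ≤ y)
    (hS : ∀ n, y ≤ n → n ≤ X → ‖∑ k ∈ Ioc 0 n, c k‖ ≤ (n : ℝ) ^ a) (σ : ℝ) (hσ : a + ε ≤ σ) :
    ∀ T₁ T₂ : ℕ, y ≤ T₁ → T₁ ≤ T₂ → T₂ ≤ X →
      ‖∑ k ∈ Ioc T₁ T₂, c k * (((k : ℝ) ^ (-σ) : ℝ) : ℂ)‖ ≤ (2 * 2 ^ a) / (1 - 2 ^ (-ε)) * (T₁ : ℝ) ^ (a - σ) := by
  have h2ε : (2 : ℝ) ^ (-ε) < 1 := Real.rpow_lt_one_of_one_lt_of_neg one_lt_two (by linarith)
  have h2a : 0 < (2 : ℝ) ^ a := by positivity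
  obtain ⟨L, hL⟩ : ∃ L : ℝ, L = (2 * 2 ^ a) / (1 - 2 ^ (-ε)) := ⟨_, rfl⟩
  have hL0 : 0 ≤ L := by
    rw [hL]
    apply div_nonneg (by positivity)
    linarith
  have hLeq : 2 * 2 ^ a + L * 2 ^ (-ε) = L := by
    rw [hL]
    have : 1 - (2 : ℝ) ^ (-ε) ≠ 0 := by linarith
    field_simp
    ring
  have hblock : ∀ T₁ T₂ : ℕ, y ≤ T₁ → T₁ ≤ T₂ → T₂ ≤ X → T₂ ≤ 2 * T₁ →
      ‖∑ k ∈ Ioc T₁ T₂, c k * (((k : ℝ) ^ (-σ) : ℝ) : ℂ)‖ ≤ (2 * 2 ^ a) * (T₁ : ℝ) ^ (a - σ) := by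
    intro T₁ T₂ h1 h2 h3 h4
    have hT1 : (0 : ℝ) < T₁ := by exact_mod_cast (by omega : 0 < T₁)
    have h5 := abel_block c (fun k => (k : ℝ) ^ (-σ)) T₁ (2 * (2 ^ a * (T₁ : ℝ) ^ a)) T₂ h2 (fun n hn _ => ?_) (by positivity) (fun n hn1 hn2 => ?_)
    · refine h5.trans (le_of_eq ?_)
      have e1 : (T₁ : ℝ) ^ (a - σ) = (T₁ : ℝ) ^ a * (T₁ : ℝ) ^ (-σ) := by
        rw [← Real.rpow_add hT1]
        rfl
      rw [e1]
      ring
    · have hn0 : (0 : ℝ) < n := by exact_mod_cast (by omega : 0 < n)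
      apply Real.rpow_le_rpow_of_nonpos hn0 _ (by linarith)
      push_cast
      linarith
    · have e1 : ∑ k ∈ Ioc T₁ n, c k = ∑ k ∈ Ioc 0 n, c k - ∑ k ∈ Ioc 0 T₁, c k := by
        rw [← sum_Ioc_consecutive c (Nat.zero_le T₁) hn1]
        ring
      rw [e1]
      refine (norm_sub_le _ _).trans ?_
      have h6 := hS n (by omega) (by omega)
      have h7 := hS T₁ h1 (by omega)
      have h8 : (n : ℝ) ^ a ≤ 2 ^ a * (T₁ : ℝ) ^ a := by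
        rw [← Real.mul_rpow (by norm_num) hT1.le]
        apply Real.rpow_le_rpow (Nat.cast_nonneg _) _ ha
        exact_mod_cast (by omega : n ≤ 2 * T₁)
      have h9 : (T₁ : ℝ) ^ a ≤ 2 ^ a * (T₁ : ℝ) ^ a :=
        le_mul_of_one_le_left (by positivity) (Real.one_le_rpow (by norm_num) ha)
      linarith
  rw [← hL]
  -- induction on the length
  have key : ∀ d : ℕ, ∀ T₁ T₂ : ℕ, T₂ - T₁ ≤ d → y ≤ T₁ → T₁ ≤ T₂ → T₂ ≤ X →
      ‖∑ k ∈ Ioc T₁ T₂, c k * (((k : ℝ) ^ (-σ) : ℝ) : ℂ)‖ ≤ L * (T₁ : ℝ) ^ (a - σ) := by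
    intro d
    induction d with
    | zero =>
      intro T₁ T₂ hd h1 h2 h3
      have : T₁ = T₂ := by omega
      subst this
      rw [Ioc_self, sum_empty, norm_zero]
      positivity
    | succ d ih =>
      intro T₁ T₂ hd h1 h2 h3
      have hT1 : (0 : ℝ) < T₁ := by exact_mod_cast (by omega : 0 < T₁)
      by_cases h4 : T₂ ≤ 2 * T₁
      · refine (hblock T₁ T₂ h1 h2 h3 h4).trans ?_
        apply mul_le_mul_of_nonneg_right _ (by positivity)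
        have : 0 ≤ L * 2 ^ (-ε) := by positivity
        linarith
      · push Not at h4
        rw [← sum_Ioc_consecutive _ (by omega : T₁ ≤ 2 * T₁) h4.le]
        have h5 := hblock T₁ (2 * T₁) h1 (by omega) (by omega) le_rfl
        have h6 := ih (2 * T₁) T₂ (by omega) (by omega) h4.le h3
        have h7 : (((2 * T₁ : ℕ) : ℝ)) ^ (a - σ) ≤ 2 ^ (-ε) * (T₁ : ℝ) ^ (a - σ) := by
          push_cast
          rw [Real.mul_rpow (by norm_num) hT1.le]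
          apply mul_le_mul_of_nonneg_right _ (by positivity)
          apply Real.rpow_le_rpow_of_exponent_le (by norm_num)
          linarith
        refine (norm_add_le _ _).trans ?_
        have h8 : L * ((2 * T₁ : ℕ) : ℝ) ^ (a - σ) ≤ L * (2 ^ (-ε) * (T₁ : ℝ) ^ (a - σ)) := mul_le_mul_of_nonneg_left h7 hL0
        calc _ ≤ (2 * 2 ^ a) * (T₁ : ℝ) ^ (a - σ) + L * (2 ^ (-ε) * (T₁ : ℝ) ^ (a - σ)) := by linarith
          _ = (2 * 2 ^ a + L * 2 ^ (-ε)) * (T₁ : ℝ) ^ (a - σ) := by ring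
          _ = L * (T₁ : ℝ) ^ (a - σ) := by rw [hLeq]
  intro T₁ T₂ h1 h2 h3
  exact key (T₂ - T₁) T₁ T₂ le_rfl h1 h2 h3

lemma cpow_eq (q : ℕ) (hq : 1 ≤ q) (z : ℂ) : (q : ℂ) ^ (-z) =
    ((Real.cos (z.im * Real.log q) : ℂ) - (Real.sin (z.im * Real.log q) : ℂ) * Complex.I) * (((q : ℝ) ^ (-z.re) : ℝ) : ℂ) := by
  have hq0 : (q : ℂ) ≠ 0 := by exact_mod_cast (by omega : q ≠ 0)
  have hq1 : (0 : ℝ) < q := by exact_mod_cast hq
  rw [Complex.cpow_def_of_ne_zero hq0]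
  have h1 : Complex.log (q : ℂ) = ((Real.log q : ℝ) : ℂ) := by
    rw [Complex.ofReal_log (Nat.cast_nonneg q)]
    simp
  rw [h1]
  have h2 : ((Real.log q : ℝ) : ℂ) * -z = ((-(z.re) * Real.log q : ℝ) : ℂ) + ((-(z.im * Real.log q) : ℝ) : ℂ) * Complex.I := by
    conv_lhs => rw [← Complex.re_add_im z]
    push_cast
    ring
  rw [h2, Complex.exp_add, ← Complex.ofReal_exp, Complex.exp_mul_I, ← Complex.ofReal_cos, ← Complex.ofReal_sin, Real.cos_neg, Real.sin_neg,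
    Real.rpow_def_of_pos hq1]
  push_cast
  rw [mul_comm (-(z.re : ℂ)) _]
  ring

end Pool.Agent.N647.NG
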