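import Pool.Agent.N647.NG.Ana

/-!
# Nagao's Dirichlet polynomials in vertical strips: the theorem
-/

set_option autoImplicit false

namespace Pool.Agent.N647.NG

open Finset Polynomial NumberField IsDedekindDomain Filter
open Pool.Agent.N842.HS (VT mem_VT cf norm_card)
open Pool.Agent.N647.TS

section
variable {K : Type} [Field K] [NumberField K]

lemma card_VT (T : ℕ) : ((VT K T).card : ℝ) ≤ Module.finrank ℤ (𝓞 K) * T := by
  have h1 := sum_VT (K := K) T (fun _ => 1)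
  rw [sum_const, nsmul_eq_mul, mul_one] at h1
  rw [h1]
  have h2 : ∀ p ∈ (Icc 1 T).filter Nat.Prime, ∑ _v ∈ Vp K T p, (1 : ℝ) ≤ Module.finrank ℤ (𝓞 K) := by
    intro p hp
    rw [mem_filter] at hp
    rw [sum_const, nsmul_eq_mul, mul_one]
    exact_mod_cast card_Vp T p hp.2
  refine (sum_le_sum h2).trans ?_
  rw [sum_const, nsmul_eq_mul, mul_comm]
  apply mul_le_mul_of_nonneg_left _ (Nat.cast_nonneg _)
  have := card_filter_le (Icc 1 T) Nat.Prime
  rw [Nat.card_Icc] at this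
  exact_mod_cast (by omega : ((Icc 1 T).filter Nat.Prime).card ≤ T)

lemma ev_ana (C n δ : ℝ) (hC : 0 ≤ C) (hn : 0 ≤ n) (hδ : 0 < δ) : ∀ᶠ T : ℕ in atTop,
    2 * ((T : ℝ) ^ (1 / 2 + δ / 4) + (n * T) * (C * Real.sqrt T * Real.log T * (Real.log T / T ^ 2))) ≤ (T : ℝ) ^ (1 / 2 + δ / 2) := by
  have h1 : Tendsto (fun x : ℝ => x ^ (δ / 4)) atTop atTop := tendsto_rpow_atTop (by positivity)
  have h2 := (isLittleO_log_rpow_atTop (show (0 : ℝ) < 1 / 2 by norm_num)).bound (show (0 : ℝ) < 1 / (n * C + 1) by positivity)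
  have h3 : ∀ᶠ x : ℝ in atTop, (4 : ℝ) ≤ x ^ (δ / 4) := h1.eventually (eventually_ge_atTop _)
  have h2' := (isLittleO_log_rpow_atTop (show (0 : ℝ) < 1 / 2 by norm_num)).bound (show (0 : ℝ) < 1 by norm_num)
  have h4 : ∀ᶠ x : ℝ in atTop, 2 * (x ^ (1 / 2 + δ / 4) + (n * x) * (C * Real.sqrt x * Real.log x * (Real.log x / x ^ 2))) ≤ x ^ (1 / 2 + δ / 2) := by
    filter_upwards [h2, h2', h3, eventually_ge_atTop 1] with x hx1 hx1' hx2 hx3
    have hx0 : 0 < x := by linarith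
    have hl : 0 ≤ Real.log x := Real.log_nonneg hx3
    rw [Real.norm_of_nonneg hl, Real.norm_of_nonneg (by positivity), div_mul_eq_mul_div, one_mul, le_div_iff₀ (by positivity),
      ← Real.sqrt_eq_rpow] at hx1
    rw [Real.norm_of_nonneg hl, Real.norm_of_nonneg (by positivity), one_mul, ← Real.sqrt_eq_rpow] at hx1'
    obtain ⟨s, hs⟩ : ∃ s, s = Real.sqrt x := ⟨_, rfl⟩
    have hs2 : s * s = x := by rw [hs]; exact Real.mul_self_sqrt hx0.le
    have hs0 : 0 < s := by rw [hs]; exact Real.sqrt_pos.2 hx0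
    have e0 : (n * x) * (C * Real.sqrt x * Real.log x * (Real.log x / x ^ 2)) ≤ s := by
      rw [← hs] at hx1 hx1' ⊢
      have e1 : (n * x) * (C * s * Real.log x * (Real.log x / x ^ 2)) = (n * C * Real.log x) * (s * Real.log x) / x := by
        field_simp
      rw [e1, div_le_iff₀ hx0]
      have e2 : n * C * Real.log x ≤ s := by nlinarith
      have e3 : s * Real.log x ≤ s * s := mul_le_mul_of_nonneg_left hx1' hs0.le
      calc (n * C * Real.log x) * (s * Real.log x) ≤ s * (s * s) := mul_le_mul e2 e3 (by positivity) hs0.le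
        _ = s * x := by rw [hs2]
    obtain ⟨u, hu⟩ : ∃ u, u = x ^ (δ / 4) := ⟨_, rfl⟩
    have e4 : x ^ (1 / 2 + δ / 4) = s * u := by
      rw [hs, hu, Real.sqrt_eq_rpow, ← Real.rpow_add hx0]
    have e5 : x ^ (1 / 2 + δ / 2) = s * (u * u) := by
      rw [hs, hu, Real.sqrt_eq_rpow, ← Real.rpow_add hx0, ← Real.rpow_add hx0]
      congr 1
      ring
    rw [e4, e5]
    rw [← hu] at hx2
    have e6 : s * u * 4 ≤ s * u * u := mul_le_mul_of_nonneg_left hx2 (by positivity)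
    have e7 : s * 4 ≤ s * u := mul_le_mul_of_nonneg_left hx2 hs0.le
    nlinarith
  exact tendsto_natCast_atTop_atTop.eventually h4

variable {m D : ℕ}

/-- all the averages are at most `C √q_v` -/
theorem AA_bound (hm : 1 ≤ m) (F₀ : (MvPolynomial (Fin m) (𝓞 K))[X]) (h : Fin D → (MvPolynomial (Fin m) (𝓞 K))[X])
    {g' : ℕ} (hF : F₀.Monic) (hd : F₀.natDegree = 2 * g' + 1) (hh : ∀ i, (h i).natDegree < 2 * g' + 1) (r C₀ : ℝ)
    (S : Set (HeightOneSpectrum (𝓞 K))) (hS : S.Finite) (hs : ∀ v ∉ S, SepV v h)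
    (hb : ∀ v ∉ S, |(cc v F₀ h : ℝ) - cb v h - r * (Ideal.absNorm v.asIdeal : ℝ) ^ m| ≤
      C₀ * ((Ideal.absNorm v.asIdeal : ℝ) ^ m / Real.sqrt (Ideal.absNorm v.asIdeal))) :
    ∃ C : ℝ, 0 ≤ C ∧ ∀ (v : HeightOneSpectrum (𝓞 K)) (c : Fin D → 𝓞 K), |AA (mkv v) (mem F₀ h c) + r| ≤ C * Real.sqrt (Ideal.absNorm v.asIdeal) := by
  obtain ⟨C₂, hC₂0, hC₂⟩ := upgrade (fun v u => Ag (mkv v) F₀ h u + r) 0 _ (hS.union (finite_dvd (K := K) 2 two_ne_zero))
    (2 * g' + |r| + (2 + 2 * C₀ ^ 2) + |C₀|) (by positivity) (by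
    intro v hv
    rw [Set.mem_union, not_or] at hv
    exact Bd_main hm F₀ h hF hd hh r C₀ v hv.2 (hs v hv.1) (hb v hv.1))
  refine ⟨C₂, hC₂0, fun v c => ?_⟩
  rw [AA_mem]
  exact (hC₂ v).1 _

open Classical in
/-- the weights -/
noncomputable def Wt (W : Set (HeightOneSpectrum (𝓞 K) → ℝ)) (B T : ℕ) : Set (HeightOneSpectrum (𝓞 K) → ℝ) :=
  (fun z : (HeightOneSpectrum (𝓞 K) → ℝ) × ℤ × Bool => fun v => z.1 v * (if z.2.2 then Real.cos ((z.2.1 : ℝ) / T ^ 2 * Real.log (Ideal.absNorm v.asIdeal))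
    else Real.sin ((z.2.1 : ℝ) / T ^ 2 * Real.log (Ideal.absNorm v.asIdeal)))) '' (W ×ˢ ((Set.Icc (-((T : ℤ) ^ (B + 2))) ((T : ℤ) ^ (B + 2))) ×ˢ Set.univ))

lemma Wt_fin (W : Set (HeightOneSpectrum (𝓞 K) → ℝ)) (hW : W.Finite) (B y T : ℕ) (hT : 2 ≤ T) (hyT : y ≤ T) (hWc : W.ncard ≤ y ^ B) :
    (Wt W B T).Finite ∧ (Wt W B T).ncard ≤ T ^ (2 * B + 5) := by
  have hfin : (W ×ˢ ((Set.Icc (-((T : ℤ) ^ (B + 2))) ((T : ℤ) ^ (B + 2))) ×ˢ (Set.univ : Set Bool))).Finite :=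
    hW.prod ((Set.finite_Icc _ _).prod Set.finite_univ)
  refine ⟨hfin.image _, (Set.ncard_image_le hfin).trans ?_⟩
  rw [Set.ncard_prod, Set.ncard_prod, Set.ncard_univ, Nat.card_eq_fintype_card, Fintype.card_bool]
  have h1 : (Set.Icc (-((T : ℤ) ^ (B + 2))) ((T : ℤ) ^ (B + 2))).ncard = 2 * T ^ (B + 2) + 1 := by
    rw [← Finset.coe_Icc, Set.ncard_coe_finset, Int.card_Icc]
    have : ((T : ℤ) ^ (B + 2) + 1 - -((T : ℤ) ^ (B + 2))) = ((2 * T ^ (B + 2) + 1 : ℕ) : ℤ) := by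
      push_cast
      ring
    rw [this, Int.toNat_natCast]
  rw [h1]
  have h2 : W.ncard ≤ T ^ B := hWc.trans (Nat.pow_le_pow_left hyT B)
  have h3 : 1 ≤ T ^ (B + 2) := Nat.one_le_pow _ _ (by omega)
  have h4 : 6 ≤ T ^ 3 := le_trans (by norm_num) (Nat.pow_le_pow_left hT 3)
  calc W.ncard * ((2 * T ^ (B + 2) + 1) * 2) ≤ T ^ B * ((3 * T ^ (B + 2)) * 2) := Nat.mul_le_mul h2 (by omega)
    _ = 6 * (T ^ B * T ^ (B + 2)) := by ring
    _ ≤ T ^ 3 * (T ^ B * T ^ (B + 2)) := Nat.mul_le_mul_right _ h4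
    _ = T ^ (2 * B + 5) := by ring

lemma Wt_le (W : Set (HeightOneSpectrum (𝓞 K) → ℝ)) (hW1 : ∀ w ∈ W, ∀ v, |w v| ≤ 1) (B T : ℕ) (w : HeightOneSpectrum (𝓞 K) → ℝ)
    (hw : w ∈ Wt W B T) (v : HeightOneSpectrum (𝓞 K)) : |w v| ≤ 1 := by
  obtain ⟨z, hz, rfl⟩ := hw
  beta_reduce
  rw [abs_mul]
  have h1 := hW1 z.1 hz.1 v
  have h2 : |(if z.2.2 then Real.cos ((z.2.1 : ℝ) / T ^ 2 * Real.log (Ideal.absNorm v.asIdeal))
    else Real.sin ((z.2.1 : ℝ) / T ^ 2 * Real.log (Ideal.absNorm v.asIdeal)))| ≤ 1 := by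
    split_ifs
    · exact Real.abs_cos_le_one _
    · exact Real.abs_sin_le_one _
  exact mul_le_one₀ h1 (abs_nonneg _) h2

/-- the twisted sum -/
lemma twist (W : Set (HeightOneSpectrum (𝓞 K) → ℝ)) (B T : ℕ) (hT : 3 ≤ T) (w : HeightOneSpectrum (𝓞 K) → ℝ) (hw : w ∈ W)
    (hw1 : ∀ v, |w v| ≤ 1) (V : Finset (HeightOneSpectrum (𝓞 K))) (hV : V ⊆ VT K T) (G : HeightOneSpectrum (𝓞 K) → ℝ) (C : ℝ) (hC : 0 ≤ C)
    (hG : ∀ v, |G v| ≤ C * Real.sqrt (Ideal.absNorm v.asIdeal)) (M : ℝ)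
    (hM : ∀ w' ∈ Wt W B T, |∑ v ∈ V, w' v * (G v * Real.log (Ideal.absNorm v.asIdeal))| ≤ M) (τ : ℝ) (hτ : |τ| ≤ (T : ℝ) ^ B) :
    ‖∑ v ∈ V, ((w v * (G v * Real.log (Ideal.absNorm v.asIdeal)) : ℝ) : ℂ) *
      ((Real.cos (τ * Real.log (Ideal.absNorm v.asIdeal)) : ℂ) - (Real.sin (τ * Real.log (Ideal.absNorm v.asIdeal)) : ℂ) * Complex.I)‖ ≤
      2 * (M + (Module.finrank ℤ (𝓞 K) * T) * (C * Real.sqrt T * Real.log T * (Real.log T / T ^ 2))) := by
  have hT0 : (0 : ℝ) < T := by exact_mod_cast (by omega : 0 < T)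
  obtain ⟨k, hk⟩ : ∃ k : ℤ, k = ⌊τ * T ^ 2⌋ := ⟨_, rfl⟩
  have hk1 : |τ - (k : ℝ) / T ^ 2| ≤ 1 / T ^ 2 := by
    have h1 := Int.floor_le (τ * (T : ℝ) ^ 2)
    have h2 := Int.lt_floor_add_one (τ * (T : ℝ) ^ 2)
    rw [← hk] at h1 h2
    have e1 : τ - (k : ℝ) / T ^ 2 = (τ * T ^ 2 - k) / T ^ 2 := by field_simp
    rw [e1, abs_div, abs_of_pos (by positivity : (0 : ℝ) < T ^ 2)]
    apply div_le_div_of_nonneg_right _ (by positivity)
    rw [abs_le]
    constructor <;> linarith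
  have hk2 : k ∈ Set.Icc (-((T : ℤ) ^ (B + 2))) ((T : ℤ) ^ (B + 2)) := by
    have h3 : |τ * (T : ℝ) ^ 2| ≤ (T : ℝ) ^ (B + 2) := by
      rw [abs_mul, abs_of_pos (by positivity : (0 : ℝ) < T ^ 2), pow_add]
      exact mul_le_mul_of_nonneg_right hτ (by positivity)
    rw [abs_le] at h3
    constructor
    · rw [hk, Int.le_floor]
      push_cast
      exact h3.1
    · have h4 := Int.floor_le (τ * (T : ℝ) ^ 2)
      rw [← hk] at h4
      have h5 : (k : ℝ) ≤ (((T : ℤ) ^ (B + 2) : ℤ) : ℝ) := by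
        push_cast
        linarith [h3.2]
      exact_mod_cast h5
  have hcos : (fun v : HeightOneSpectrum (𝓞 K) => w v * Real.cos ((k : ℝ) / T ^ 2 * Real.log (Ideal.absNorm v.asIdeal))) ∈ Wt W B T :=
    ⟨(w, k, true), ⟨hw, hk2, Set.mem_univ _⟩, by funext v; simp⟩
  have hsin : (fun v : HeightOneSpectrum (𝓞 K) => w v * Real.sin ((k : ℝ) / T ^ 2 * Real.log (Ideal.absNorm v.asIdeal))) ∈ Wt W B T :=
    ⟨(w, k, false), ⟨hw, hk2, Set.mem_univ _⟩, by funext v; simp⟩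
  have hlogT : 0 ≤ Real.log T := Real.log_nonneg (by exact_mod_cast (by omega : 1 ≤ T))
  -- the general estimate
  have hgen : ∀ f : ℝ → ℝ, (∀ a b, |f a - f b| ≤ |a - b|) →
      (fun v : HeightOneSpectrum (𝓞 K) => w v * f ((k : ℝ) / T ^ 2 * Real.log (Ideal.absNorm v.asIdeal))) ∈ Wt W B T →
      |∑ v ∈ V, (w v * (G v * Real.log (Ideal.absNorm v.asIdeal))) * f (τ * Real.log (Ideal.absNorm v.asIdeal))| ≤
        M + (Module.finrank ℤ (𝓞 K) * T) * (C * Real.sqrt T * Real.log T * (Real.log T / T ^ 2)) := by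
    intro f hf hmem
    have h1 := hM _ hmem
    have e1 : ∑ v ∈ V, (w v * (G v * Real.log (Ideal.absNorm v.asIdeal))) * f (τ * Real.log (Ideal.absNorm v.asIdeal)) =
        ∑ v ∈ V, (w v * f ((k : ℝ) / T ^ 2 * Real.log (Ideal.absNorm v.asIdeal))) * (G v * Real.log (Ideal.absNorm v.asIdeal)) +
        ∑ v ∈ V, (w v * (G v * Real.log (Ideal.absNorm v.asIdeal))) * (f (τ * Real.log (Ideal.absNorm v.asIdeal)) -
          f ((k : ℝ) / T ^ 2 * Real.log (Ideal.absNorm v.asIdeal))) := by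
      rw [← sum_add_distrib]
      exact sum_congr rfl fun v _ => by ring
    rw [e1]
    refine (abs_add_le _ _).trans (add_le_add h1 ?_)
    have h2 : ∀ v ∈ V, |(w v * (G v * Real.log (Ideal.absNorm v.asIdeal))) * (f (τ * Real.log (Ideal.absNorm v.asIdeal)) -
          f ((k : ℝ) / T ^ 2 * Real.log (Ideal.absNorm v.asIdeal)))| ≤ C * Real.sqrt T * Real.log T * (Real.log T / T ^ 2) := by
      intro v hv
      have hvT := hV hv
      rw [mem_VT] at hvT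
      have hq : (Ideal.absNorm v.asIdeal : ℝ) ≤ T := by exact_mod_cast hvT
      have hq1 := q_one v
      have hl0 : 0 ≤ Real.log (Ideal.absNorm v.asIdeal) := Real.log_nonneg hq1
      have hl1 : Real.log (Ideal.absNorm v.asIdeal) ≤ Real.log T := Real.log_le_log (by linarith) hq
      have h3 : |f (τ * Real.log (Ideal.absNorm v.asIdeal)) - f ((k : ℝ) / T ^ 2 * Real.log (Ideal.absNorm v.asIdeal))| ≤ Real.log T / T ^ 2 := by
        refine (hf _ _).trans ?_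
        rw [← sub_mul, abs_mul, abs_of_nonneg hl0]
        calc |τ - (k : ℝ) / T ^ 2| * Real.log (Ideal.absNorm v.asIdeal) ≤ (1 / T ^ 2) * Real.log T := mul_le_mul hk1 hl1 hl0 (by positivity)
          _ = _ := by ring
      rw [abs_mul, abs_mul, abs_mul, abs_of_nonneg hl0]
      have h4 : |w v| * (|G v| * Real.log (Ideal.absNorm v.asIdeal)) ≤ C * Real.sqrt T * Real.log T := by
        calc |w v| * (|G v| * Real.log (Ideal.absNorm v.asIdeal)) ≤ 1 * ((C * Real.sqrt (Ideal.absNorm v.asIdeal)) * Real.log (Ideal.absNorm v.asIdeal)) := by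
              apply mul_le_mul (hw1 v) _ (by positivity) zero_le_one
              exact mul_le_mul_of_nonneg_right (hG v) hl0
          _ ≤ C * Real.sqrt T * Real.log T := by
              rw [one_mul]
              have h5 := Real.sqrt_le_sqrt hq
              gcongr
      exact mul_le_mul h4 h3 (abs_nonneg _) (by positivity)
    refine (abs_sum_le_sum_abs _ _).trans ((sum_le_sum h2).trans ?_)
    rw [sum_const, nsmul_eq_mul]
    apply mul_le_mul_of_nonneg_right _ (by positivity)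
    refine le_trans ?_ (card_VT T)
    exact_mod_cast card_le_card hV
  have hc := hgen Real.cos (fun a b => Real.abs_cos_sub_cos_le a b) hcos
  have hs := hgen Real.sin (fun a b => Real.abs_sin_sub_sin_le a b) hsin
  have e2 : ∑ v ∈ V, ((w v * (G v * Real.log (Ideal.absNorm v.asIdeal)) : ℝ) : ℂ) *
      ((Real.cos (τ * Real.log (Ideal.absNorm v.asIdeal)) : ℂ) - (Real.sin (τ * Real.log (Ideal.absNorm v.asIdeal)) : ℂ) * Complex.I) =
      ((∑ v ∈ V, (w v * (G v * Real.log (Ideal.absNorm v.asIdeal))) * Real.cos (τ * Real.log (Ideal.absNorm v.asIdeal)) : ℝ) : ℂ) -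
      ((∑ v ∈ V, (w v * (G v * Real.log (Ideal.absNorm v.asIdeal))) * Real.sin (τ * Real.log (Ideal.absNorm v.asIdeal)) : ℝ) : ℂ) * Complex.I := by
    rw [Complex.ofReal_sum, Complex.ofReal_sum, sum_mul, ← sum_sub_distrib]
    refine sum_congr rfl fun v _ => ?_
    push_cast
    ring
  rw [e2]
  refine (norm_sub_le _ _).trans ?_
  rw [norm_mul, Complex.norm_I, mul_one, Complex.norm_real, Complex.norm_real, Real.norm_eq_abs, Real.norm_eq_abs]
  linarith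

end

end Pool.Agent.N647.NG
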