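import Pool.Agent.N647.NG.AnaN

/-!
# Nagao's Dirichlet polynomials in vertical strips: the main theorem
-/

set_option autoImplicit false

namespace Pool.Agent.N647.NG

open Finset Polynomial NumberField IsDedekindDomain Filter
open Pool.Agent.N842.HS (VT mem_VT cf norm_card)
open Pool.Agent.N647.TS

variable {K : Type} [Field K] [NumberField K] {m D : ℕ}

open Classical in
/-- the deterministic part: from the sums to the Dirichlet polynomials -/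
theorem ana_det (δ : ℝ) (hδ : 0 < δ) (C : ℝ) (hC : 0 ≤ C) : ∃ y₀ : ℕ, ∀ (B y X : ℕ), y₀ ≤ y →
    ∀ (W : Set (HeightOneSpectrum (𝓞 K) → ℝ)), (∀ w ∈ W, ∀ v, |w v| ≤ 1) →
    ∀ (G : HeightOneSpectrum (𝓞 K) → ℝ), (∀ v, |G v| ≤ C * Real.sqrt (Ideal.absNorm v.asIdeal)) → ∀ R : Set (HeightOneSpectrum (𝓞 K)),
    (∀ T : ℕ, y ≤ T → T ≤ X → ∀ w ∈ Wt W B T, |∑ v ∈ (VT K T).filter (fun v => v ∉ R), w v * (G v * Real.log (Ideal.absNorm v.asIdeal))| ≤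
      (T : ℝ) ^ (1 / 2 + δ / 4)) →
    ∀ T₁ T₂ : ℕ, y ≤ T₁ → T₁ ≤ T₂ → T₂ ≤ X → ∀ w ∈ W, ∀ z : ℂ, 1 / 2 + δ ≤ z.re → |z.im| ≤ (T₁ : ℝ) ^ B →
      ‖∑ v ∈ (VT K T₂).filter (fun v => v ∉ R ∧ T₁ < Ideal.absNorm v.asIdeal),
        ((w v * (G v * Real.log (Ideal.absNorm v.asIdeal)) : ℝ) : ℂ) * (Ideal.absNorm v.asIdeal : ℂ) ^ (-z)‖ ≤ (T₁ : ℝ) ^ (1 / 2 + δ - z.re) := by
  obtain ⟨n, hn⟩ : ∃ n, n = Module.finrank ℤ (𝓞 K) := ⟨_, rfl⟩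
  obtain ⟨x₁, hx₁⟩ := eventually_atTop.1 (ev_ana C n δ hC (Nat.cast_nonneg _) hδ)
  obtain ⟨L, hL⟩ : ∃ L : ℝ, L = (2 * 2 ^ (1 / 2 + δ / 2)) / (1 - 2 ^ (-(δ / 2))) := ⟨_, rfl⟩
  have hev : ∀ᶠ T : ℕ in atTop, L ≤ (T : ℝ) ^ (δ / 2) := by
    have h1 : Tendsto (fun x : ℝ => x ^ (δ / 2)) atTop atTop := tendsto_rpow_atTop (by positivity)
    exact (h1.comp tendsto_natCast_atTop_atTop).eventually (eventually_ge_atTop _)
  obtain ⟨x₂, hx₂⟩ := eventually_atTop.1 hev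
  refine ⟨x₁ + x₂ + 3, fun B y X hy W hW1 G hG R hM T₁ T₂ hyT hT12 hTX w hw z hz1 hz2 => ?_⟩
  have hT1 : (0 : ℝ) < T₁ := by exact_mod_cast (by omega : 0 < T₁)
  -- the twisted coefficient
  obtain ⟨tw, htw⟩ : ∃ tw : HeightOneSpectrum (𝓞 K) → ℂ, tw = fun v => ((w v * (G v * Real.log (Ideal.absNorm v.asIdeal)) : ℝ) : ℂ) *
      ((Real.cos (z.im * Real.log (Ideal.absNorm v.asIdeal)) : ℂ) - (Real.sin (z.im * Real.log (Ideal.absNorm v.asIdeal)) : ℂ) * Complex.I) := ⟨_, rfl⟩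
  obtain ⟨c, hc⟩ : ∃ c : ℕ → ℂ, c = fun k => ∑ v ∈ (VT K X).filter (fun v => v ∉ R ∧ Ideal.absNorm v.asIdeal = k), tw v := ⟨_, rfl⟩
  have hpos : ∀ v : HeightOneSpectrum (𝓞 K), 0 < Ideal.absNorm v.asIdeal := fun v => lt_of_lt_of_le (rc_prime v).pos (rc_le v)
  -- sums over fibres
  have hfib : ∀ (A₁ A₂ : ℕ), A₂ ≤ X → ∀ f : ℕ → ℂ, ∑ k ∈ Ioc A₁ A₂, c k * f k =
      ∑ v ∈ (VT K A₂).filter (fun v => v ∉ R ∧ A₁ < Ideal.absNorm v.asIdeal), tw v * f (Ideal.absNorm v.asIdeal) := by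
    intro A₁ A₂ hA f
    have h1 : (VT K A₂).filter (fun v => v ∉ R ∧ A₁ < Ideal.absNorm v.asIdeal) =
        (VT K X).filter (fun v => v ∉ R ∧ Ideal.absNorm v.asIdeal ∈ Ioc A₁ A₂) := by
      ext v
      rw [mem_filter, mem_filter, mem_VT, mem_VT, mem_Ioc]
      constructor
      · rintro ⟨h1, h2, h3⟩
        exact ⟨h1.trans hA, h2, h3, h1⟩
      · rintro ⟨_, h2, h3, h4⟩
        exact ⟨h4, h2, h3⟩
    rw [h1]
    rw [← sum_fiberwise_of_maps_to (s := (VT K X).filter (fun v => v ∉ R ∧ Ideal.absNorm v.asIdeal ∈ Ioc A₁ A₂)) (t := Ioc A₁ A₂)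
      (g := fun v => Ideal.absNorm v.asIdeal) (fun v hv => by rw [mem_filter] at hv; exact hv.2.2)]
    refine sum_congr rfl fun k hk => ?_
    rw [hc]
    beta_reduce
    rw [sum_mul]
    have h2 : ((VT K X).filter (fun v => v ∉ R ∧ Ideal.absNorm v.asIdeal ∈ Ioc A₁ A₂)).filter (fun v => Ideal.absNorm v.asIdeal = k) =
        (VT K X).filter (fun v => v ∉ R ∧ Ideal.absNorm v.asIdeal = k) := by
      ext v
      rw [mem_filter, mem_filter, mem_filter]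
      constructor
      · rintro ⟨⟨h1, h2, _⟩, h4⟩
        exact ⟨h1, h2, h4⟩
      · rintro ⟨h1, h2, h4⟩
        exact ⟨⟨h1, h2, by rw [h4]; exact hk⟩, h4⟩
    rw [h2]
    refine sum_congr rfl fun v hv => ?_
    rw [mem_filter] at hv
    rw [hv.2.2]
  -- the sums
  have hS : ∀ k, T₁ ≤ k → k ≤ X → ‖∑ j ∈ Ioc 0 k, c j‖ ≤ (k : ℝ) ^ (1 / 2 + δ / 2) := by
    intro k hk1 hk2
    have h1 := hfib 0 k hk2 (fun _ => 1)
    simp only [mul_one] at h1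
    rw [h1]
    have h2 : (VT K k).filter (fun v => v ∉ R ∧ 0 < Ideal.absNorm v.asIdeal) = (VT K k).filter (fun v => v ∉ R) := by
      ext v
      rw [mem_filter, mem_filter]
      exact ⟨fun h => ⟨h.1, h.2.1⟩, fun h => ⟨h.1, h.2, hpos v⟩⟩
    rw [h2, htw]
    have hz3 : |z.im| ≤ (k : ℝ) ^ B := by
      refine hz2.trans ?_
      apply pow_le_pow_left₀ hT1.le
      exact_mod_cast hk1
    refine (twist W B k (by omega) w hw (hW1 w hw) _ (filter_subset _ _) G C hC hG ((k : ℝ) ^ (1 / 2 + δ / 4)) (hM k (by omega) hk2) z.im hz3).trans ?_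
    rw [← hn]
    exact hx₁ k (by omega)
  have h3 := dyadic (1 / 2 + δ / 2) (δ / 2) (by positivity) (by positivity) c T₁ X (by omega) hS z.re (by linarith) T₁ T₂ le_rfl hT12 hTX
  rw [← hL] at h3
  have h4 : ∑ v ∈ (VT K T₂).filter (fun v => v ∉ R ∧ T₁ < Ideal.absNorm v.asIdeal),
        ((w v * (G v * Real.log (Ideal.absNorm v.asIdeal)) : ℝ) : ℂ) * (Ideal.absNorm v.asIdeal : ℂ) ^ (-z) =
      ∑ k ∈ Ioc T₁ T₂, c k * (((k : ℝ) ^ (-z.re) : ℝ) : ℂ) := by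
    rw [hfib T₁ T₂ hTX (fun k => (((k : ℝ) ^ (-z.re) : ℝ) : ℂ))]
    refine sum_congr rfl fun v _ => ?_
    rw [cpow_eq _ (hpos v) z, htw]
    ring
  rw [h4]
  refine h3.trans ?_
  have h5 := hx₂ T₁ (by omega)
  have h6 : (T₁ : ℝ) ^ (1 / 2 + δ - z.re) = (T₁ : ℝ) ^ (δ / 2) * (T₁ : ℝ) ^ (1 / 2 + δ / 2 - z.re) := by
    rw [← Real.rpow_add hT1]
    congr 1
    ring
  rw [h6]
  exact mul_le_mul_of_nonneg_right h5 (by positivity)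

open Classical in
/-- **Nagao's Dirichlet polynomials for the members of a linear system of fibrations at the integer parts of generalised polynomials.** -/
theorem anaN (hm : 1 ≤ m) (F₀ : (MvPolynomial (Fin m) (𝓞 K))[X]) (h : Fin D → (MvPolynomial (Fin m) (𝓞 K))[X])
    {g' : ℕ} (hF : F₀.Monic) (hd : F₀.natDegree = 2 * g' + 1) (hh : ∀ i, (h i).natDegree < 2 * g' + 1) (r C₀ : ℝ)
    (S : Set (HeightOneSpectrum (𝓞 K))) (hS : S.Finite) (hs : ∀ v ∉ S, SepV v h)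
    (hb : ∀ v ∉ S, |(cc v F₀ h : ℝ) - cb v h - r * (Ideal.absNorm v.asIdeal : ℝ) ^ m| ≤
      C₀ * ((Ideal.absNorm v.asIdeal : ℝ) ^ m / Real.sqrt (Ideal.absNorm v.asIdeal)))
    (P : MvPolynomial (Fin D) (𝓞 K)) (hP : P ≠ 0)
    {g : ℕ} (ω : Fin g → 𝓞 K) (hω : Submodule.span ℤ (Set.range ω) = ⊤) (hD : 1 ≤ D * g)
    {G : Fin (D * g) → Finset ℝ} {a : Fin (D * g) → ℝ → ℝ} {c : Fin (D * g) → ℝ}
    (ha : ∀ i, Adm (G i) (a i) (c i)) (hc : Function.Injective c) (δ : ℝ) (hδ : 0 < δ) (A B : ℕ) :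
    ∃ κ : ℝ, 0 < κ ∧ ∃ y₀ : ℕ, ∀ y N : ℕ, y₀ ≤ y →
    ∀ W : Set (HeightOneSpectrum (𝓞 K) → ℝ), W.Finite → W.ncard ≤ y ^ B → (∀ w ∈ W, ∀ v, |w v| ≤ 1) →
    ∀ E : (Fin (D * g) → ℕ) → Prop,
    (∀ n, (∀ T₁ T₂ : ℕ, y ≤ T₁ → T₁ ≤ T₂ → (T₂ : ℝ) ≤ (N : ℝ) ^ κ → ∀ w ∈ W, ∀ R : Set (HeightOneSpectrum (𝓞 K)),
      (∀ v ∈ R, MvPolynomial.eval (cf ω n) P ∈ v.asIdeal) → ∀ z : ℂ, 1 / 2 + δ ≤ z.re → |z.im| ≤ (T₁ : ℝ) ^ B →
      ‖∑ v ∈ (VT K T₂).filter (fun v => v ∉ R ∧ T₁ < Ideal.absNorm v.asIdeal),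
        ((w v * ((AA (mkv v) (mem F₀ h (cf ω n)) + r) * Real.log (Ideal.absNorm v.asIdeal)) : ℝ) : ℂ) * (Ideal.absNorm v.asIdeal : ℂ) ^ (-z)‖ ≤
          (T₁ : ℝ) ^ (1 / 2 + δ - z.re)) → E n) →
    (((Ioc N (2 * N)).filter fun t => ¬ E (pv G a t)).card : ℝ) ≤ 1 / (y : ℝ) ^ A * N ∧
    ((((Ioc N (2 * N)).filter Nat.Prime).filter fun t => ¬ E (pv G a t)).card : ℝ) ≤
      1 / (y : ℝ) ^ A * ((Ioc N (2 * N)).filter Nat.Prime).card := by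
  obtain ⟨C, hC0, hC⟩ := AA_bound hm F₀ h hF hd hh r C₀ S hS hs hb
  obtain ⟨y₁, hdet⟩ := ana_det (K := K) δ hδ C hC0
  obtain ⟨κ, hκ, y₂, hnag⟩ := nagN hm F₀ h hF hd hh r C₀ S hS hs hb P hP ω hω hD ha hc (δ / 4) (by positivity) A (2 * B + 5)
  refine ⟨κ, hκ, y₁ + y₂ + 2, fun y N hy W hW hWc hW1 E hE => ?_⟩
  refine hnag y N (by omega) (fun T => if y ≤ T then Wt W B T else ∅) (fun T => ?_) (fun T w hw v => ?_) E fun n hn => hE n ?_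
  · beta_reduce
    split_ifs with hT
    · exact Wt_fin W hW B y T (by omega) hT hWc
    · exact ⟨Set.finite_empty, by rw [Set.ncard_empty]; exact Nat.zero_le _⟩
  · beta_reduce at hw
    split_ifs at hw with hT
    · exact Wt_le W hW1 B T w hw v
    · exact absurd hw (Set.notMem_empty _)
  · intro T₁ T₂ hyT hT12 hTN w hw R hR z hz1 hz2
    refine hdet B y T₂ (by omega) W hW1 (fun v => AA (mkv v) (mem F₀ h (cf ω n)) + r) (fun v => hC v _) R (fun T hyT' hTX w' hw' => ?_)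
      T₁ T₂ hyT hT12 le_rfl w hw z hz1 hz2
    refine hn T hyT' (le_trans (by exact_mod_cast hTX) hTN) w' ?_ R hR
    beta_reduce
    rw [if_pos hyT']
    exact hw'

end Pool.Agent.N647.NG
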