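import Pool.Agent.N647.NG.Expl

/-!
# Explicit linear systems of surfaces over the line with `r` sections over number fields
-/

set_option autoImplicit false

namespace Pool.Agent.N647.NG

open Finset Polynomial NumberField IsDedekindDomain Filter
open Pool.Agent.N842.HS (VT mem_VT cf norm_card)

section
variable (R : Type) [CommRing R] (d r n e m : ℕ)

/-- the fixed part -/
noncomputable def Fs : (MvPolynomial (Fin (m + 1)) R)[X] := wr R r m * X ^ (d - r) + C (MvPolynomial.X 0 ^ (2 * (n * d)))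

/-- the exponents -/
abbrev Es : Type := (Σ a : Fin (d - r), Fin (2 * n * (d - r - a) + 1)) × (Fin m → Fin (e + 1))

variable {n e} in
/-- the variable part -/
noncomputable def hs (i : Es d r n e m) : (MvPolynomial (Fin (m + 1)) R)[X] :=
  wr R r m * (X ^ (i.1.1 : ℕ) * C (MvPolynomial.X 0 ^ (i.1.2 : ℕ) * ∏ k, MvPolynomial.X (Fin.succ k) ^ (i.2 k : ℕ)))

lemma Fs_deg [Nontrivial R] (h : r + 1 ≤ d) : (Fs R d r n m).Monic ∧ (Fs R d r n m).natDegree = d := by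
  have h1 : (wr R r m * X ^ (d - r)).Monic := (wr_monic R r m).mul (monic_X_pow _)
  have h2 : (wr R r m * X ^ (d - r)).natDegree = d := by
    rw [(wr_monic R r m).natDegree_mul (monic_X_pow _), wr_deg, natDegree_X_pow]
    omega
  have h3 : (C (MvPolynomial.X 0 ^ (2 * (n * d))) : (MvPolynomial (Fin (m + 1)) R)[X]).degree < (wr R r m * X ^ (d - r)).degree := by
    rw [degree_eq_natDegree h1.ne_zero, h2]
    exact lt_of_le_of_lt degree_C_le (by exact_mod_cast (by omega : 0 < d))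
  unfold Fs
  exact ⟨h1.add_of_left h3, by rw [natDegree_add_eq_left_of_degree_lt h3, h2]⟩

lemma hs_deg [Nontrivial R] (h : r + 1 ≤ d) (i : Es d r n e m) : (hs R d r m i).natDegree < d := by
  unfold hs
  refine lt_of_le_of_lt natDegree_mul_le ?_
  rw [wr_deg]
  have h1 : (X ^ (i.1.1 : ℕ) * C (MvPolynomial.X 0 ^ (i.1.2 : ℕ) * ∏ k, MvPolynomial.X (Fin.succ k) ^ (i.2 k : ℕ)) :
      (MvPolynomial (Fin (m + 1)) R)[X]).natDegree ≤ i.1.1 := by
    refine natDegree_mul_le.trans ?_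
    rw [natDegree_C, add_zero, natDegree_X_pow]
  have h2 := i.1.1.2
  omega

variable {R} {κ : Type} [CommRing κ] (φ : R →+* κ)

lemma vf_Fs (P : (Fin (m + 1) → κ) × κ) : vf φ (Fs R d r n m) P = wv r P.2 * P.2 ^ (d - r) + (P.1 0 ^ (n * d)) ^ 2 := by
  unfold Fs
  rw [vf_add, vf_mul, vf_wr, vf_X_pow, vf_C]
  simp
  ring

lemma vf_hs (i : Es d r n e m) (P : (Fin (m + 1) → κ) × κ) :
    vf φ (hs R d r m i) P = wv r P.2 * (P.2 ^ (i.1.1 : ℕ) * (P.1 0 ^ (i.1.2 : ℕ) * ∏ k : Fin m, P.1 k.succ ^ (i.2 k : ℕ))) := by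
  unfold hs
  rw [vf_mul, vf_mul, vf_wr, vf_X_pow, vf_C, map_mul, map_prod]
  simp

end

section
variable {κ : Type} [Field κ] (d r n e m : ℕ) {R : Type} [CommRing R] (φ : R →+* κ)

lemma mono_s (hd : r + 2 ≤ d) (P : (Fin (m + 1) → κ) × κ) :
    vf φ (hs R d r m ((⟨⟨0, by omega⟩, 0⟩, fun _ => 0) : Es d r n e m)) P = wv r P.2 := by
  rw [vf_hs]
  simp

/-- separation -/
lemma sep_s (hd : r + 2 ≤ d) (hn : 1 ≤ n) (he1 : 1 ≤ e) (P Q : (Fin (m + 1) → κ) × κ) (hPQ : P ≠ Q)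
    (hP : ∃ i : Es d r n e m, vf φ (hs R d r m i) P ≠ 0) :
    ¬ ∃ l : κ, ∀ i : Es d r n e m, vf φ (hs R d r m i) P = l * vf φ (hs R d r m i) Q := by
  rintro ⟨l, hl⟩
  obtain ⟨i, hi⟩ := hP
  rw [vf_hs] at hi
  have hw : wv r P.2 ≠ 0 := left_ne_zero_of_mul hi
  have h0 := hl (⟨⟨0, by omega⟩, 0⟩, fun _ => 0)
  rw [mono_s d r n e m φ hd, mono_s d r n e m φ hd] at h0
  apply hPQ
  have h1 := hl (⟨⟨1, by omega⟩, 0⟩, fun _ => 0)
  rw [vf_hs, vf_hs] at h1
  simp only [pow_one, Fin.val_zero, pow_zero, prod_const_one, mul_one] at h1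
  have hx : P.2 = Q.2 := by
    apply mul_left_cancel₀ hw
    rw [h1, h0]
    ring
  have hpos : 1 < 2 * n * (d - r - 0) + 1 := by
    have h3 : 1 ≤ d - r - 0 := by omega
    have h4 : 1 * 1 ≤ n * (d - r - 0) := Nat.mul_le_mul hn h3
    rw [mul_assoc]
    omega
  have ht0 : P.1 0 = Q.1 0 := by
    have h3 := hl (⟨⟨0, by omega⟩, ⟨1, hpos⟩⟩, fun _ => 0)
    rw [vf_hs, vf_hs] at h3
    simp only [pow_one, Fin.val_zero, pow_zero, prod_const_one, mul_one, one_mul] at h3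
    apply mul_left_cancel₀ hw
    rw [h3, h0]
    ring
  have hts : ∀ k : Fin m, P.1 k.succ = Q.1 k.succ := by
    intro k
    have h3 := hl (⟨⟨0, by omega⟩, 0⟩, Pi.single k ⟨1, by omega⟩)
    rw [vf_hs, vf_hs] at h3
    have h4 : ∀ t : Fin (m + 1) → κ, ∏ j : Fin m, t j.succ ^ (((Pi.single k (⟨1, by omega⟩ : Fin (e + 1)) : Fin m → Fin (e + 1)) j : Fin (e + 1)) : ℕ) =
        t k.succ := by
      intro t
      rw [prod_eq_single k]
      · simp
      · intro j _ hj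
        simp [Pi.single_eq_of_ne hj]
      · intro hk
        exact absurd (mem_univ k) hk
    rw [h4, h4] at h3
    simp only [pow_zero, Fin.val_zero, one_mul] at h3
    apply mul_left_cancel₀ hw
    rw [h3, h0]
    ring
  have ht : P.1 = Q.1 := by
    funext k
    refine Fin.cases ht0 (fun j => hts j) k
  exact Prod.ext ht hx

variable [Fintype κ] [DecidableEq κ]

lemma bs_s (D : ℕ) (ee : Fin D ≃ Es d r n e m) (hd : r + 2 ≤ d) (hn : 1 ≤ n)
    (hr : ∀ i j : ℕ, i < r → j < r → ((i + 1 : ℕ) : κ) = ((j + 1 : ℕ) : κ) → i = j) :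
    bs (vf φ (Fs R d r n m)) (fun i : Fin D => vf φ (hs R d r m (ee i))) = r * (((Fintype.card κ : ℝ) - 1) * (Fintype.card κ : ℝ) ^ m) := by
  unfold bs
  have h1 : univ.filter (fun P : (Fin (m + 1) → κ) × κ => ∀ i : Fin D, vf φ (hs R d r m (ee i)) P = 0) =
      univ.filter (fun P : (Fin (m + 1) → κ) × κ => wv r P.2 = 0) := by
    ext P
    rw [mem_filter, mem_filter]
    constructor
    · rintro ⟨_, h⟩
      refine ⟨mem_univ _, ?_⟩
      have h3 := h (ee.symm (⟨⟨0, by omega⟩, 0⟩, fun _ => 0))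
      rw [Equiv.apply_symm_apply, mono_s d r n e m φ hd] at h3
      exact h3
    · rintro ⟨_, h⟩
      refine ⟨mem_univ _, fun i => ?_⟩
      rw [vf_hs, h, zero_mul]
  rw [h1, sum_filter]
  have hnd : n * d ≠ 0 := Nat.mul_ne_zero (by omega) (by omega)
  have h2 : ∀ P : (Fin (m + 1) → κ) × κ, (if wv r P.2 = 0 then ch (vf φ (Fs R d r n m) P) else 0) =
      (if P.1 0 = 0 then (0 : ℝ) else 1) * (if wv r P.2 = 0 then 1 else 0) := by
    intro P
    by_cases h : wv r P.2 = 0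
    · rw [if_pos h, if_pos h, mul_one, vf_Fs, h, zero_mul, zero_add, ch_sq]
      by_cases h3 : P.1 0 = 0
      · rw [if_pos h3, if_pos (by rw [h3, zero_pow hnd])]
      · rw [if_neg h3, if_neg (pow_ne_zero _ h3)]
    · rw [if_neg h, if_neg h, mul_zero]
  rw [sum_congr rfl fun P _ => h2 P, Fintype.sum_prod_type]
  have h5 : ∑ t : Fin (m + 1) → κ, ∑ x : κ, (if (t, x).1 0 = 0 then (0 : ℝ) else 1) * (if wv r (t, x).2 = 0 then (1 : ℝ) else 0) =
      (∑ t : Fin (m + 1) → κ, (if t 0 = 0 then (0 : ℝ) else 1)) * ∑ x : κ, (if wv r x = 0 then (1 : ℝ) else 0) := by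
    rw [Finset.sum_mul_sum]
  rw [h5]
  have h3 : ∑ x : κ, (if wv r x = 0 then (1 : ℝ) else 0) = r := by
    rw [← sum_filter, sum_const, card_wv r hr, nsmul_eq_mul, mul_one]
  have h4 : ∑ t : Fin (m + 1) → κ, (if t 0 = 0 then (0 : ℝ) else 1) = ((Fintype.card κ : ℝ) - 1) * (Fintype.card κ : ℝ) ^ m := by
    have e1 : ∑ t : Fin (m + 1) → κ, (if t 0 = 0 then (0 : ℝ) else 1) = ∑ z : κ × (Fin m → κ), (if z.1 = 0 then (0 : ℝ) else 1) := by
      refine Fintype.sum_equiv (Fin.consEquiv (fun _ => κ)).symm _ _ fun t => ?_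
      rfl
    rw [e1, Fintype.sum_prod_type]
    show ∑ x : κ, ∑ _y : Fin m → κ, (if x = 0 then (0 : ℝ) else 1) = _
    simp only [sum_const, card_univ, Fintype.card_fun, Fintype.card_fin]
    rw [← smul_sum]
    have e2 : ∑ x : κ, (if x = 0 then (0 : ℝ) else 1) = (Fintype.card κ : ℝ) - 1 := by
      have e3 : ∀ x : κ, (if x = 0 then (0 : ℝ) else 1) = 1 - (if x = 0 then 1 else 0) := by
        intro x
        split_ifs <;> simp
      rw [sum_congr rfl fun x _ => e3 x, sum_sub_distrib, sum_const, card_univ, nsmul_eq_mul, mul_one, sum_ite_eq' univ (0 : κ) fun _ => (1 : ℝ)]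
      simp
    rw [e2, nsmul_eq_mul]
    push_cast
    ring
  rw [h3, h4]
  ring

end

section
variable {K : Type} [Field K] [NumberField K] (d r n e m D : ℕ) (ee : Fin D ≃ Es d r n e m)

lemma sepV_s (hd : r + 2 ≤ d) (hn : 1 ≤ n) (he1 : 1 ≤ e) (v : HeightOneSpectrum (𝓞 K)) : SepV v (fun i => hs (𝓞 K) d r m (ee i)) := by
  have hmax : v.asIdeal.IsMaximal := v.isMaximal
  let fld : Field (𝓞 K ⧸ v.asIdeal) := Ideal.Quotient.field v.asIdeal
  intro P Q hPQ hP hl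
  obtain ⟨i, hi⟩ := hP
  obtain ⟨l, hl⟩ := hl
  refine sep_s d r n e m (mkv v) hd hn he1 P Q hPQ ⟨ee i, hi⟩ ⟨l, fun i => ?_⟩
  have := hl (ee.symm i)
  beta_reduce at this
  rw [Equiv.apply_symm_apply] at this
  exact this

lemma base_s (hd : r + 2 ≤ d) (hn : 1 ≤ n) (v : HeightOneSpectrum (𝓞 K)) (hv : (2 : 𝓞 K) ∉ v.asIdeal) (hvr : ((r.factorial : ℕ) : 𝓞 K) ∉ v.asIdeal) :
    |(cc v (Fs (𝓞 K) d r n m) (fun i => hs (𝓞 K) d r m (ee i)) : ℝ) - cb v (fun i => hs (𝓞 K) d r m (ee i)) -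
      r * (Ideal.absNorm v.asIdeal : ℝ) ^ (m + 1)| ≤ r * ((Ideal.absNorm v.asIdeal : ℝ) ^ (m + 1) / Real.sqrt (Ideal.absNorm v.asIdeal)) := by
  classical
  have hmax : v.asIdeal.IsMaximal := v.isMaximal
  let fld : Field (𝓞 K ⧸ v.asIdeal) := Ideal.Quotient.field v.asIdeal
  have hfin := quot_finite v
  let ft : Fintype (𝓞 K ⧸ v.asIdeal) := Fintype.ofFinite _
  have h2 : ringChar (𝓞 K ⧸ v.asIdeal) ≠ 2 := by
    intro h3
    have h4 : ((ringChar (𝓞 K ⧸ v.asIdeal) : ℕ) : 𝓞 K ⧸ v.asIdeal) = 0 := CharP.cast_eq_zero _ _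
    rw [h3] at h4
    apply hv
    rw [← Ideal.Quotient.eq_zero_iff_mem, map_ofNat]
    exact_mod_cast h4
  have hq : (Ideal.absNorm v.asIdeal : ℝ) = Fintype.card (𝓞 K ⧸ v.asIdeal) := by
    rw [norm_card, Nat.card_eq_fintype_card]
  have hkey : ∀ k : ℕ, 0 < k → k ≤ r → ((k : ℕ) : 𝓞 K ⧸ v.asIdeal) ≠ 0 := by
    intro k hk hkr h3
    apply hvr
    rw [← Ideal.Quotient.eq_zero_iff_mem, map_natCast]
    obtain ⟨c, hc⟩ := Nat.dvd_factorial hk hkr
    rw [hc, Nat.cast_mul, h3, zero_mul]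
  have hr : ∀ i j : ℕ, i < r → j < r → ((i + 1 : ℕ) : 𝓞 K ⧸ v.asIdeal) = ((j + 1 : ℕ) : 𝓞 K ⧸ v.asIdeal) → i = j := by
    intro i j hi hj hij
    rcases lt_trichotomy i j with h3 | h3 | h3
    · exfalso
      refine hkey (j - i) (by omega) (by omega) ?_
      rw [Nat.cast_sub h3.le]
      push_cast at hij
      linear_combination -hij
    · exact h3
    · exfalso
      refine hkey (i - j) (by omega) (by omega) ?_
      rw [Nat.cast_sub h3.le]
      push_cast at hij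
      linear_combination hij
  have hbs := bs_card h2 (vf (mkv v) (Fs (𝓞 K) d r n m)) (fun i : Fin D => vf (mkv v) (hs (𝓞 K) d r m (ee i)))
  rw [bs_s d r n e m (mkv v) D ee hd hn hr, ← hq] at hbs
  have h5 : (cc v (Fs (𝓞 K) d r n m) (fun i => hs (𝓞 K) d r m (ee i)) : ℝ) - cb v (fun i => hs (𝓞 K) d r m (ee i)) =
      r * (((Ideal.absNorm v.asIdeal : ℝ) - 1) * (Ideal.absNorm v.asIdeal : ℝ) ^ m) := hbs.symm
  rw [h5]
  have hq1 := q_one v
  have hs1 := sq_one v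
  have e1 : (r : ℝ) * (((Ideal.absNorm v.asIdeal : ℝ) - 1) * (Ideal.absNorm v.asIdeal : ℝ) ^ m) - r * (Ideal.absNorm v.asIdeal : ℝ) ^ (m + 1) =
      -(r * (Ideal.absNorm v.asIdeal : ℝ) ^ m) := by ring
  rw [e1, abs_neg, abs_of_nonneg (by positivity)]
  apply mul_le_mul_of_nonneg_left _ (Nat.cast_nonneg _)
  rw [le_div_iff₀ (by linarith), pow_succ]
  apply mul_le_mul_of_nonneg_left _ (by positivity)
  rw [Real.sqrt_le_left (by linarith)]
  nlinarith

end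

end Pool.Agent.N647.NG
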