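import Pool.Agent.N647.NG.Loc
import Mathlib.Algebra.MvPolynomial.SchwartzZippel

/-!
# Linear systems of fibrations in hyperelliptic curves over finite fields
-/

set_option autoImplicit false

namespace Pool.Agent.N647.NG

open Finset Polynomial

section defs
variable {R κ : Type} [CommRing R] [CommRing κ] {m D : ℕ}

/-- the fibre over `t` -/
noncomputable def ev (φ : R →+* κ) (t : Fin m → κ) (F : (MvPolynomial (Fin m) R)[X]) : κ[X] := F.map (MvPolynomial.eval₂Hom φ t)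

/-- the number of the points -/
noncomputable def pts (φ : R →+* κ) (F : (MvPolynomial (Fin m) R)[X]) : ℕ :=
  Nat.card {P : (Fin m → κ) × κ × κ // P.2.2 ^ 2 = (ev φ P.1 F).eval P.2.1}

/-- the average of the traces -/
noncomputable def AA (φ : R →+* κ) (F : (MvPolynomial (Fin m) R)[X]) : ℝ := (Nat.card κ : ℝ) - (pts φ F : ℝ) / (Nat.card κ : ℝ) ^ m

/-- the member of the linear system -/
noncomputable def mem (F₀ : (MvPolynomial (Fin m) R)[X]) (h : Fin D → (MvPolynomial (Fin m) R)[X]) (c : Fin D → R) :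
    (MvPolynomial (Fin m) R)[X] := F₀ + ∑ i, C (MvPolynomial.C (c i)) * h i

/-- the values -/
noncomputable def vf (φ : R →+* κ) (F : (MvPolynomial (Fin m) R)[X]) (P : (Fin m → κ) × κ) : κ := (ev φ P.1 F).eval P.2

/-- the local function -/
noncomputable def Ag (φ : R →+* κ) (F₀ : (MvPolynomial (Fin m) R)[X]) (h : Fin D → (MvPolynomial (Fin m) R)[X]) (u : Fin D → κ) : ℝ :=
  (Nat.card κ : ℝ) - (Nat.card {P : (Fin m → κ) × κ × κ // P.2.2 ^ 2 = vf φ F₀ (P.1, P.2.1) + ∑ i, u i * vf φ (h i) (P.1, P.2.1)} : ℝ) /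
    (Nat.card κ : ℝ) ^ m

lemma vf_mem (φ : R →+* κ) (F₀ : (MvPolynomial (Fin m) R)[X]) (h : Fin D → (MvPolynomial (Fin m) R)[X]) (c : Fin D → R) (P : (Fin m → κ) × κ) :
    vf φ (mem F₀ h c) P = vf φ F₀ P + ∑ i, φ (c i) * vf φ (h i) P := by
  unfold vf ev mem
  rw [Polynomial.map_add, Polynomial.map_sum, eval_add, eval_finsetSum]
  congr 1
  refine sum_congr rfl fun i _ => ?_
  rw [Polynomial.map_mul, map_C, eval_mul, eval_C]
  congr 1
  simp

lemma AA_mem (φ : R →+* κ) (F₀ : (MvPolynomial (Fin m) R)[X]) (h : Fin D → (MvPolynomial (Fin m) R)[X]) (c : Fin D → R) :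
    AA φ (mem F₀ h c) = Ag φ F₀ h (fun i => φ (c i)) := by
  unfold AA Ag pts
  have h1 : ∀ P : (Fin m → κ) × κ × κ, (ev φ P.1 (mem F₀ h c)).eval P.2.1 = vf φ F₀ (P.1, P.2.1) + ∑ i, φ (c i) * vf φ (h i) (P.1, P.2.1) :=
    fun P => vf_mem φ F₀ h c (P.1, P.2.1)
  simp only [h1]

end defs

section
variable {R κ : Type} [CommRing R] [Field κ] [Fintype κ] [DecidableEq κ] {m D : ℕ}

lemma card_cover (h2 : ringChar κ ≠ 2) (G : (Fin m → κ) × κ → κ) :
    (Nat.card {P : (Fin m → κ) × κ × κ // P.2.2 ^ 2 = G (P.1, P.2.1)} : ℝ) = (Fintype.card κ : ℝ) ^ (m + 1) + ∑ P, ch (G P) := by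
  have e : {P : (Fin m → κ) × κ × κ // P.2.2 ^ 2 = G (P.1, P.2.1)} ≃ (Σ Q : (Fin m → κ) × κ, {y : κ // y ^ 2 = G Q}) :=
    { toFun := fun P => ⟨(P.1.1, P.1.2.1), ⟨P.1.2.2, P.2⟩⟩
      invFun := fun Q => ⟨(Q.1.1, Q.1.2, Q.2.1), Q.2.2⟩
      left_inv := fun _ => rfl
      right_inv := fun _ => rfl }
  rw [Nat.card_congr e, Nat.card_sigma]
  push_cast
  simp only [card_sqrt h2]
  rw [sum_add_distrib, sum_const, card_univ, Fintype.card_prod, Fintype.card_fun, Fintype.card_fin, nsmul_eq_mul, mul_one]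
  push_cast
  ring

lemma Ag_eq (h2 : ringChar κ ≠ 2) (φ : R →+* κ) (F₀ : (MvPolynomial (Fin m) R)[X]) (h : Fin D → (MvPolynomial (Fin m) R)[X]) (u : Fin D → κ) :
    Ag φ F₀ h u = -(∑ P, ch (vl (vf φ F₀) (fun i => vf φ (h i)) u P)) / (Fintype.card κ : ℝ) ^ m := by
  unfold Ag
  have h1 := card_cover h2 (vl (vf φ F₀) (fun i => vf φ (h i)) u)
  have h3 : (Nat.card {P : (Fin m → κ) × κ × κ // P.2.2 ^ 2 = vf φ F₀ (P.1, P.2.1) + ∑ i, u i * vf φ (h i) (P.1, P.2.1)} : ℝ) =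
      (Fintype.card κ : ℝ) ^ (m + 1) + ∑ P, ch (vl (vf φ F₀) (fun i => vf φ (h i)) u P) := h1
  rw [h3, Nat.card_eq_fintype_card]
  have hq : (Fintype.card κ : ℝ) ≠ 0 := by exact_mod_cast Fintype.card_ne_zero
  field_simp
  ring

lemma Ag_weil (h2 : ringChar κ ≠ 2) (φ : R →+* κ) (F₀ : (MvPolynomial (Fin m) R)[X]) (h : Fin D → (MvPolynomial (Fin m) R)[X])
    {g : ℕ} (hF : F₀.Monic) (hd : F₀.natDegree = 2 * g + 1) (hh : ∀ i, (h i).natDegree < 2 * g + 1) (u : Fin D → κ) :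
    |Ag φ F₀ h u| ≤ 2 * g * Real.sqrt (Fintype.card κ) := by
  rw [Ag_eq h2, abs_div, abs_neg, abs_of_nonneg (by positivity : (0 : ℝ) ≤ (Fintype.card κ : ℝ) ^ m)]
  have hq : (0 : ℝ) < (Fintype.card κ : ℝ) ^ m := by
    have : (0 : ℝ) < Fintype.card κ := by exact_mod_cast Fintype.card_pos
    positivity
  rw [div_le_iff₀ hq]
  have h1 : ∀ t : Fin m → κ, |∑ x : κ, ch (vl (vf φ F₀) (fun i => vf φ (h i)) u (t, x))| ≤ 2 * g * Real.sqrt (Fintype.card κ) := by
    intro t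
    obtain ⟨p, hp⟩ : ∃ p : κ[X], p = ev φ t F₀ + ∑ i, C (u i) * ev φ t (h i) := ⟨_, rfl⟩
    have h3 : ∀ x, vl (vf φ F₀) (fun i => vf φ (h i)) u (t, x) = p.eval x := by
      intro x
      rw [hp, eval_add, eval_finsetSum]
      unfold vl vf
      congr 1
      exact sum_congr rfl fun i _ => by rw [eval_mul, eval_C]
    simp only [h3]
    have h4 : (ev φ t F₀).Monic := hF.map _
    have h5 : (ev φ t F₀).natDegree = 2 * g + 1 := by
      unfold ev
      rw [hF.natDegree_map, hd]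
    have h6 : (∑ i, C (u i) * ev φ t (h i)).natDegree ≤ 2 * g := by
      refine natDegree_sum_le_of_forall_le _ _ fun i _ => ?_
      refine (natDegree_C_mul_le _ _).trans ?_
      unfold ev
      have := hh i
      exact natDegree_map_le.trans (by omega)
    have h7 : (∑ i, C (u i) * ev φ t (h i)).degree < (ev φ t F₀).degree := by
      rw [degree_eq_natDegree h4.ne_zero, h5]
      exact lt_of_le_of_lt degree_le_natDegree (by exact_mod_cast (by omega : (∑ i, C (u i) * ev φ t (h i)).natDegree < 2 * g + 1))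
    refine weil_odd h2 (g := g) ?_ ?_
    · rw [hp]
      exact h4.add_of_left h7
    · rw [hp, natDegree_add_eq_left_of_degree_lt h7, h5]
  rw [Fintype.sum_prod_type]
  refine (abs_sum_le_sum_abs _ _).trans ((sum_le_sum fun t _ => h1 t).trans ?_)
  rw [sum_const, card_univ, Fintype.card_fun, Fintype.card_fin, nsmul_eq_mul]
  push_cast
  exact le_of_eq (by ring)

theorem loc_all (hm : 1 ≤ m) (h2 : ringChar κ ≠ 2) (φ : R →+* κ) (F₀ : (MvPolynomial (Fin m) R)[X]) (h : Fin D → (MvPolynomial (Fin m) R)[X])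
    {g : ℕ} (hF : F₀.Monic) (hd : F₀.natDegree = 2 * g + 1) (hh : ∀ i, (h i).natDegree < 2 * g + 1) (r C₀ : ℝ) (hC₀ : 0 ≤ C₀)
    (hs : Sep (fun i => vf φ (h i))) (hb : |bs (vf φ F₀) (fun i => vf φ (h i)) - r * (Fintype.card κ : ℝ) ^ m| ≤
      C₀ * ((Fintype.card κ : ℝ) ^ m / Real.sqrt (Fintype.card κ))) :
    (∀ u, |Ag φ F₀ h u + r| ≤ (2 * g + |r|) * Real.sqrt (Fintype.card κ)) ∧
    (∑ u : Fin D → κ, (Ag φ F₀ h u + r) ^ 2) / (Fintype.card κ : ℝ) ^ D ≤ 2 + 2 * C₀ ^ 2 ∧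
    |(∑ u : Fin D → κ, (Ag φ F₀ h u + r)) / (Fintype.card κ : ℝ) ^ D| ≤ C₀ / Real.sqrt (Fintype.card κ) := by
  obtain ⟨q, hq⟩ : ∃ q : ℝ, q = Fintype.card κ := ⟨_, rfl⟩
  have hq1 : 1 ≤ q := by
    rw [hq]
    exact_mod_cast Fintype.card_pos
  have hq0 : 0 < q := by linarith
  have hsq1 : 1 ≤ Real.sqrt q := by rw [Real.one_le_sqrt]; exact hq1
  have hsq0 : 0 < Real.sqrt q := by linarith
  obtain ⟨b, hbd⟩ : ∃ b, b = bs (vf φ F₀) (fun i => vf φ (h i)) := ⟨_, rfl⟩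
  rw [← hbd, ← hq] at hb
  have hqm : 0 < q ^ m := by positivity
  have hb1 : |b / q ^ m - r| ≤ C₀ / Real.sqrt q := by
    have e1 : b / q ^ m - r = (b - r * q ^ m) / q ^ m := by field_simp
    rw [e1, abs_div, abs_of_pos hqm, div_le_iff₀ hqm]
    refine hb.trans (le_of_eq ?_)
    ring
  refine ⟨fun u => ?_, ?_, ?_⟩
  · have h1 := Ag_weil h2 φ F₀ h hF hd hh u
    rw [← hq] at h1 ⊢
    refine (abs_add_le _ _).trans ?_
    have h3 : |r| ≤ |r| * Real.sqrt q := le_mul_of_one_le_right (abs_nonneg _) hsq1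
    linarith
  · have h1 := second (vf φ F₀) (fun i => vf φ (h i)) h2 hs
    rw [Fintype.card_prod, Fintype.card_fun, Fintype.card_fin, ← hbd, ← hq] at h1
    push_cast at h1
    rw [← hq] at h1 ⊢
    rw [div_le_iff₀ (by positivity)]
    have h3 : ∀ u : Fin D → κ, (Ag φ F₀ h u + r) ^ 2 ≤
        2 / (q ^ m * q ^ m) * (∑ P, ch (vl (vf φ F₀) (fun i => vf φ (h i)) u P) - b) ^ 2 + 2 * C₀ ^ 2 := by
      intro u
      rw [Ag_eq h2, ← hq]
      have h4 : (b / q ^ m - r) ^ 2 ≤ C₀ ^ 2 := by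
        rw [← sq_abs]
        apply pow_le_pow_left₀ (abs_nonneg _)
        exact hb1.trans (div_le_self hC₀ hsq1)
      have e1 : -(∑ P, ch (vl (vf φ F₀) (fun i => vf φ (h i)) u P)) / q ^ m + r =
          -((∑ P, ch (vl (vf φ F₀) (fun i => vf φ (h i)) u P) - b) / q ^ m) - (b / q ^ m - r) := by
        field_simp
        ring
      have e2 : 2 / (q ^ m * q ^ m) * (∑ P, ch (vl (vf φ F₀) (fun i => vf φ (h i)) u P) - b) ^ 2 =
          2 * ((∑ P, ch (vl (vf φ F₀) (fun i => vf φ (h i)) u P) - b) / q ^ m) ^ 2 := by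
        field_simp
      rw [e1, e2]
      nlinarith [sq_nonneg ((∑ P, ch (vl (vf φ F₀) (fun i => vf φ (h i)) u P) - b) / q ^ m - (b / q ^ m - r))]
    refine (sum_le_sum fun u _ => h3 u).trans ?_
    rw [sum_add_distrib, ← mul_sum, sum_const, card_univ, Fintype.card_fun, Fintype.card_fin, nsmul_eq_mul]
    push_cast
    rw [← hq]
    have h5 : 2 / (q ^ m * q ^ m) * ∑ u : Fin D → κ, (∑ P, ch (vl (vf φ F₀) (fun i => vf φ (h i)) u P) - b) ^ 2 ≤ 2 * q ^ D := by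
      calc 2 / (q ^ m * q ^ m) * ∑ u : Fin D → κ, (∑ P, ch (vl (vf φ F₀) (fun i => vf φ (h i)) u P) - b) ^ 2 ≤
          2 / (q ^ m * q ^ m) * (q ^ D * (q ^ m * q)) := mul_le_mul_of_nonneg_left h1 (by positivity)
        _ = 2 * q ^ D * (q / q ^ m) := by field_simp
        _ ≤ 2 * q ^ D * 1 := by
            apply mul_le_mul_of_nonneg_left _ (by positivity)
            rw [div_le_one hqm]
            exact le_self_pow₀ hq1 (by omega)
        _ = 2 * q ^ D := mul_one _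
    nlinarith
  · have h1 := first (vf φ F₀) (fun i => vf φ (h i)) h2
    rw [← hbd, ← hq] at h1
    rw [← hq]
    have h3 : ∑ u : Fin D → κ, (Ag φ F₀ h u + r) = q ^ D * (r - b / q ^ m) := by
      rw [sum_add_distrib, sum_const, card_univ, Fintype.card_fun, Fintype.card_fin, nsmul_eq_mul]
      simp only [Ag_eq h2]
      rw [← sum_div, sum_neg_distrib, h1, ← hq]
      push_cast
      rw [← hq]
      field_simp
      ring
    rw [h3, mul_div_cancel_left₀ _ (by positivity), abs_sub_comm]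
    exact hb1

/-- the zeros of a polynomial -/
lemma zeros_le (P : MvPolynomial (Fin D) κ) (hP : P ≠ 0) :
    ((univ.filter (fun u : Fin D → κ => MvPolynomial.eval u P = 0)).card : ℝ) / (Fintype.card κ : ℝ) ^ D ≤ P.totalDegree / Fintype.card κ := by
  have h1 := MvPolynomial.schwartz_zippel_totalDegree hP (univ : Finset κ)
  rw [Fintype.piFinset_univ, card_univ] at h1
  have h3 := (NNRat.cast_le (K := ℝ)).2 h1
  push_cast at h3
  exact h3

end

end Pool.Agent.N647.NG
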