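import Pool.Agent.N647.NG.Red

/-!
# Sums of local functions over all the prime ideals of bounded norm, at the integer parts of generalised polynomials

The local functions may be as large as the square root of the norm, provided that their second moments are bounded.
-/

set_option autoImplicit false

namespace Pool.Agent.N647.NG

open Finset NumberField IsDedekindDomain Filter
open Pool.Agent.TH894.NE (mean box mem_box Per mean_prod mean_mono mean_const mean_mul mean_add card_box)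
open Pool.Agent.N842.HS (VT mem_VT cf res_char prime_above norm_card)
open Pool.Agent.N647.TS

variable {K : Type} [Field K] [NumberField K]

/-- the prime ideals of norm at most `T` above `p` -/
noncomputable def Vp (K : Type) [Field K] [NumberField K] (T p : ℕ) : Finset (HeightOneSpectrum (𝓞 K)) := (VT K T).filter (fun v => rc v = p)

lemma card_Vp (T p : ℕ) (hp : p.Prime) : (Vp K T p).card ≤ Module.finrank ℤ (𝓞 K) := by
  refine prime_above K p hp _ fun v hv => ?_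
  unfold Vp at hv
  rw [mem_filter] at hv
  rw [← hv.2]
  exact rc_mem v

lemma sum_VT (T : ℕ) (f : HeightOneSpectrum (𝓞 K) → ℝ) :
    ∑ v ∈ VT K T, f v = ∑ p ∈ (Icc 1 T).filter Nat.Prime, ∑ v ∈ Vp K T p, f v := by
  unfold Vp
  rw [sum_fiberwise_of_maps_to]
  intro v hv
  rw [mem_VT] at hv
  rw [mem_filter, mem_Icc]
  exact ⟨⟨(rc_prime v).one_lt.le, (rc_le v).trans hv⟩, rc_prime v⟩

/-- the sum of the local functions above `p` -/
noncomputable def Xp {D g : ℕ} (ω : Fin g → 𝓞 K) (Φ : ∀ v : HeightOneSpectrum (𝓞 K), (Fin D → 𝓞 K ⧸ v.asIdeal) → ℝ) (T : ℕ)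
    (w : HeightOneSpectrum (𝓞 K) → ℝ) (p : ℕ) (m : Fin (D * g) → ℕ) : ℝ :=
  ∑ v ∈ Vp K T p, w v * (Φ v (rd ω v m) * Real.log (Ideal.absNorm v.asIdeal))

lemma mean_sum {d q : ℕ} {ι : Type} (s : Finset ι) (F : ι → (Fin d → ℕ) → ℝ) :
    mean d q (fun m => ∑ i ∈ s, F i m) = ∑ i ∈ s, mean d q (F i) := by
  unfold Pool.Agent.TH894.NE.mean
  rw [← mul_sum, sum_comm]

lemma mean_smul {d q : ℕ} (c : ℝ) (F : (Fin d → ℕ) → ℝ) : mean d q (fun m => c * F m) = c * mean d q F := by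
  unfold Pool.Agent.TH894.NE.mean
  rw [← mul_sum]
  ring

lemma Xp_per {D g : ℕ} (ω : Fin g → 𝓞 K) (Φ : ∀ v : HeightOneSpectrum (𝓞 K), (Fin D → 𝓞 K ⧸ v.asIdeal) → ℝ) (T : ℕ)
    (w : HeightOneSpectrum (𝓞 K) → ℝ) (p : ℕ) : Per p (Xp ω Φ T w p) := by
  intro m
  unfold Xp
  refine sum_congr rfl fun v hv => ?_
  unfold Vp at hv
  rw [mem_filter] at hv
  rw [rd_mod ω v m, hv.2]

section
variable {D g : ℕ} {ω : Fin g → 𝓞 K} (hω : Submodule.span ℤ (Set.range ω) = ⊤)
  {Φ : ∀ v : HeightOneSpectrum (𝓞 K), (Fin D → 𝓞 K ⧸ v.asIdeal) → ℝ} {C : ℝ} (hC : 0 ≤ C)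
  (hbd : ∀ v u, |Φ v u| ≤ C * Real.sqrt (Ideal.absNorm v.asIdeal)) {T : ℕ} (hT : 3 ≤ T) {w : HeightOneSpectrum (𝓞 K) → ℝ} (hw : ∀ v, |w v| ≤ 1)
include hC hbd hT hw

lemma log_le_T (v : HeightOneSpectrum (𝓞 K)) (hv : v ∈ VT K T) : 0 ≤ Real.log (Ideal.absNorm v.asIdeal) ∧
    Real.log (Ideal.absNorm v.asIdeal) ≤ Real.log T := by
  rw [mem_VT] at hv
  have h1 : 1 ≤ Ideal.absNorm v.asIdeal := le_trans (rc_prime v).one_lt.le (rc_le v)
  exact ⟨Real.log_nonneg (by exact_mod_cast h1), Real.log_le_log (by exact_mod_cast h1) (by exact_mod_cast hv)⟩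

lemma Xp_le (p : ℕ) (hp : p.Prime) (m : Fin (D * g) → ℕ) :
    |Xp ω Φ T w p m| ≤ Module.finrank ℤ (𝓞 K) * (C * Real.sqrt T * Real.log T) := by
  unfold Xp
  have h1 : ∀ v ∈ Vp K T p, |w v * (Φ v (rd ω v m) * Real.log (Ideal.absNorm v.asIdeal))| ≤ C * Real.sqrt T * Real.log T := by
    intro v hv
    unfold Vp at hv
    rw [mem_filter] at hv
    obtain ⟨h2, h3⟩ := log_le_T hC hbd hT hw v hv.1
    have h4 : (Ideal.absNorm v.asIdeal : ℝ) ≤ T := by exact_mod_cast (mem_VT T v).1 hv.1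
    rw [abs_mul, abs_mul, abs_of_nonneg h2]
    calc |w v| * (|Φ v (rd ω v m)| * Real.log (Ideal.absNorm v.asIdeal)) ≤ 1 * ((C * Real.sqrt (Ideal.absNorm v.asIdeal)) * Real.log (Ideal.absNorm v.asIdeal)) := by
          apply mul_le_mul (hw v) _ (by positivity) zero_le_one
          exact mul_le_mul_of_nonneg_right (hbd v _) h2
      _ ≤ C * Real.sqrt T * Real.log T := by
          rw [one_mul]
          have h5 := Real.sqrt_le_sqrt h4
          gcongr
  have hlog : 0 ≤ Real.log T := Real.log_nonneg (by exact_mod_cast (by omega : 1 ≤ T))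
  refine (abs_sum_le_sum_abs _ _).trans ((sum_le_sum h1).trans ?_)
  rw [sum_const, nsmul_eq_mul]
  apply mul_le_mul_of_nonneg_right _ (by positivity)
  exact_mod_cast card_Vp T p hp

include hω

lemma Xp_sq (hsq : ∀ v, av v (fun u => Φ v u ^ 2) ≤ C) (p : ℕ) (hp : p.Prime) :
    mean (D * g) p (fun m => Xp ω Φ T w p m ^ 2) ≤ (Module.finrank ℤ (𝓞 K) : ℝ) ^ 2 * (C * Real.log T ^ 2) := by
  obtain ⟨n, hn⟩ : ∃ n, n = Module.finrank ℤ (𝓞 K) := ⟨_, rfl⟩
  have hcard : ((Vp K T p).card : ℝ) ≤ n := by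
    rw [hn]
    exact_mod_cast card_Vp T p hp
  rw [← hn]
  have h1 : ∀ m : Fin (D * g) → ℕ, Xp ω Φ T w p m ^ 2 ≤ ∑ v ∈ Vp K T p, (n * Real.log T ^ 2) * Φ v (rd ω v m) ^ 2 := by
    intro m
    unfold Xp
    have h2 := sq_sum_le_card_mul_sum_sq (s := Vp K T p) (f := fun v => w v * (Φ v (rd ω v m) * Real.log (Ideal.absNorm v.asIdeal)))
    refine h2.trans ?_
    have h3 : ∑ v ∈ Vp K T p, (w v * (Φ v (rd ω v m) * Real.log (Ideal.absNorm v.asIdeal))) ^ 2 ≤ ∑ v ∈ Vp K T p, Real.log T ^ 2 * Φ v (rd ω v m) ^ 2 := by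
      refine sum_le_sum fun v hv => ?_
      unfold Vp at hv
      rw [mem_filter] at hv
      obtain ⟨h4, h5⟩ := log_le_T hC hbd hT hw v hv.1
      have h6 : w v ^ 2 ≤ 1 := by
        rw [← sq_abs]
        exact pow_le_one₀ (abs_nonneg _) (hw v)
      calc (w v * (Φ v (rd ω v m) * Real.log (Ideal.absNorm v.asIdeal))) ^ 2 =
            w v ^ 2 * (Real.log (Ideal.absNorm v.asIdeal) ^ 2 * Φ v (rd ω v m) ^ 2) := by ring
        _ ≤ 1 * (Real.log T ^ 2 * Φ v (rd ω v m) ^ 2) := by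
            apply mul_le_mul h6 _ (by positivity) zero_le_one
            apply mul_le_mul_of_nonneg_right _ (sq_nonneg _)
            exact pow_le_pow_left₀ h4 h5 2
        _ = _ := one_mul _
    calc ((Vp K T p).card : ℝ) * ∑ v ∈ Vp K T p, (w v * (Φ v (rd ω v m) * Real.log (Ideal.absNorm v.asIdeal))) ^ 2 ≤
          n * ∑ v ∈ Vp K T p, Real.log T ^ 2 * Φ v (rd ω v m) ^ 2 := by
            apply mul_le_mul hcard h3 (sum_nonneg fun _ _ => sq_nonneg _) (Nat.cast_nonneg _)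
      _ = _ := by
          rw [mul_sum]
          exact sum_congr rfl fun v _ => by ring
  refine (mean_mono h1).trans ?_
  rw [mean_sum]
  have h7 : ∀ v ∈ Vp K T p, mean (D * g) p (fun m => (n * Real.log T ^ 2) * Φ v (rd ω v m) ^ 2) ≤ n * Real.log T ^ 2 * C := by
    intro v hv
    unfold Vp at hv
    rw [mem_filter] at hv
    rw [mean_smul]
    have h8 := mean_rd (D := D) ω hω v (fun u => Φ v u ^ 2)
    rw [hv.2] at h8
    rw [h8]
    exact mul_le_mul_of_nonneg_left (hsq v) (by positivity)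
  refine (sum_le_sum h7).trans ?_
  rw [sum_const, nsmul_eq_mul]
  calc ((Vp K T p).card : ℝ) * (n * Real.log T ^ 2 * C) ≤ n * (n * Real.log T ^ 2 * C) := mul_le_mul_of_nonneg_right hcard (by positivity)
    _ = _ := by ring

lemma Xp_mean (p : ℕ) : mean (D * g) p (Xp ω Φ T w p) =
    ∑ v ∈ Vp K T p, w v * (av v (Φ v) * Real.log (Ideal.absNorm v.asIdeal)) := by
  have h1 : Xp ω Φ T w p = fun m => ∑ v ∈ Vp K T p, (w v * Real.log (Ideal.absNorm v.asIdeal)) * Φ v (rd ω v m) := by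
    funext m
    unfold Xp
    exact sum_congr rfl fun v _ => by ring
  rw [h1, mean_sum]
  refine sum_congr rfl fun v hv => ?_
  unfold Vp at hv
  rw [mem_filter] at hv
  rw [mean_smul]
  have h8 := mean_rd (D := D) ω hω v (fun u => Φ v u)
  rw [hv.2] at h8
  rw [h8]
  ring

end

end Pool.Agent.N647.NG
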