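import Pool.Agent.N647.NG.Gen

/-!
# Sums of local functions over all the prime ideals of bounded norm, at the integer parts of generalised polynomials: the theorem
-/

set_option autoImplicit false

namespace Pool.Agent.N647.NG

open Finset NumberField IsDedekindDomain Filter
open Pool.Agent.TH894.NE (mean box mem_box Per mean_prod mean_mono mean_const mean_mul mean_add card_box)
open Pool.Agent.N842.HS (VT mem_VT cf res_char prime_above norm_card)
open Pool.Agent.N647.TS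

variable {K : Type} [Field K] [NumberField K]

lemma sum_inv_sqrt (T : ℕ) : ∑ k ∈ Icc 1 T, 1 / Real.sqrt k ≤ 2 * Real.sqrt T := by
  induction T with
  | zero => simp
  | succ n ih =>
    rw [sum_Icc_succ_top (by omega)]
    have h1 : 1 / Real.sqrt ((n + 1 : ℕ) : ℝ) ≤ 2 * (Real.sqrt ((n + 1 : ℕ) : ℝ) - Real.sqrt n) := by
      have hn : (0 : ℝ) ≤ n := Nat.cast_nonneg n
      have h2 : 0 < Real.sqrt ((n + 1 : ℕ) : ℝ) := Real.sqrt_pos.2 (by positivity)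
      have h3 : Real.sqrt ((n + 1 : ℕ) : ℝ) ^ 2 = n + 1 := by
        rw [Real.sq_sqrt (by positivity)]
        push_cast
        ring
      have h4 : Real.sqrt (n : ℝ) ^ 2 = n := Real.sq_sqrt hn
      rw [div_le_iff₀ h2]
      nlinarith [sq_nonneg (Real.sqrt ((n + 1 : ℕ) : ℝ) - Real.sqrt n)]
    linarith

lemma sum_VT_inv (T : ℕ) : ∑ v ∈ VT K T, 1 / Real.sqrt (Ideal.absNorm v.asIdeal) ≤ Module.finrank ℤ (𝓞 K) * (2 * Real.sqrt T) := by
  rw [sum_VT]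
  have h1 : ∀ p ∈ (Icc 1 T).filter Nat.Prime, ∑ v ∈ Vp K T p, 1 / Real.sqrt (Ideal.absNorm v.asIdeal) ≤ Module.finrank ℤ (𝓞 K) * (1 / Real.sqrt p) := by
    intro p hp
    rw [mem_filter] at hp
    have hp0 : (0 : ℝ) < p := by exact_mod_cast hp.2.pos
    have h2 : ∀ v ∈ Vp K T p, 1 / Real.sqrt (Ideal.absNorm v.asIdeal) ≤ 1 / Real.sqrt p := by
      intro v hv
      unfold Vp at hv
      rw [mem_filter] at hv
      apply one_div_le_one_div_of_le (Real.sqrt_pos.2 hp0)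
      apply Real.sqrt_le_sqrt
      rw [← hv.2]
      exact_mod_cast rc_le v
    refine (sum_le_sum h2).trans ?_
    rw [sum_const, nsmul_eq_mul]
    apply mul_le_mul_of_nonneg_right _ (by positivity)
    exact_mod_cast card_Vp T p hp.2
  refine (sum_le_sum h1).trans ?_
  rw [← mul_sum]
  apply mul_le_mul_of_nonneg_left _ (Nat.cast_nonneg _)
  refine le_trans ?_ (sum_inv_sqrt T)
  exact sum_le_sum_of_subset_of_nonneg (filter_subset _ _) (fun _ _ _ => by positivity)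

lemma ev_fin (C n δ : ℝ) (hC : 0 ≤ C) (hn : 0 ≤ n) (hδ : 0 < δ) : ∀ᶠ T : ℕ in atTop,
    (C * (Real.sqrt T * Real.log T)) * (Real.sqrt n * (T : ℝ) ^ (δ / 4) + 2) ≤ (T : ℝ) ^ (1 / 2 + δ) := by
  have h1 : Tendsto (fun x : ℝ => x ^ (δ / 4)) atTop atTop := tendsto_rpow_atTop (by positivity)
  have h2 := (isLittleO_log_rpow_atTop (show (0 : ℝ) < δ / 4 by positivity)).bound (show (0 : ℝ) < 1 / (C + 1) by positivity)
  have h3 : ∀ᶠ x : ℝ in atTop, Real.sqrt n + 2 ≤ x ^ (δ / 4) := h1.eventually (eventually_ge_atTop _)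
  have h4 : ∀ᶠ x : ℝ in atTop, (C * (Real.sqrt x * Real.log x)) * (Real.sqrt n * x ^ (δ / 4) + 2) ≤ x ^ (1 / 2 + δ) := by
    filter_upwards [h2, h3, eventually_ge_atTop 1] with x hx1 hx2 hx3
    have hx0 : 0 < x := by linarith
    have hl : 0 ≤ Real.log x := Real.log_nonneg hx3
    rw [Real.norm_of_nonneg hl, Real.norm_of_nonneg (by positivity), div_mul_eq_mul_div, one_mul, le_div_iff₀ (by positivity)] at hx1
    obtain ⟨u, hu⟩ : ∃ u, u = x ^ (δ / 4) := ⟨_, rfl⟩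
    have hu1 : 1 ≤ u := by
      rw [hu]
      exact Real.one_le_rpow hx3 (by positivity)
    have e1 : x ^ (1 / 2 + δ) = Real.sqrt x * (u * (u * (u * u))) := by
      rw [hu, Real.sqrt_eq_rpow, ← Real.rpow_add hx0, ← Real.rpow_add hx0, ← Real.rpow_add hx0, ← Real.rpow_add hx0]
      congr 1
      ring
    rw [e1, ← hu]
    rw [← hu] at hx1 hx2
    have hs0 : 0 ≤ Real.sqrt n := Real.sqrt_nonneg _
    have h5 : C * Real.log x ≤ u := by nlinarith
    have h6 : Real.sqrt n * u + 2 ≤ u * u := by nlinarith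
    have h7 : 0 ≤ C * Real.log x := by positivity
    calc (C * (Real.sqrt x * Real.log x)) * (Real.sqrt n * u + 2) = Real.sqrt x * ((C * Real.log x) * (Real.sqrt n * u + 2)) := by ring
      _ ≤ Real.sqrt x * (u * (u * u)) := by
          apply mul_le_mul_of_nonneg_left _ (Real.sqrt_nonneg _)
          exact mul_le_mul h5 h6 (by positivity) (by linarith)
      _ ≤ Real.sqrt x * (u * (u * (u * u))) := by
          apply mul_le_mul_of_nonneg_left _ (Real.sqrt_nonneg _)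
          apply mul_le_mul_of_nonneg_left _ (by linarith)
          apply mul_le_mul_of_nonneg_left _ (by linarith)
          nlinarith
  exact tendsto_natCast_atTop_atTop.eventually h4

open Classical in
/-- **The theorem for well distributed families.** -/
theorem genW {D g : ℕ} (ω : Fin g → 𝓞 K) (hω : Submodule.span ℤ (Set.range ω) = ⊤) (δ : ℝ) (hδ : 0 < δ) (A B : ℕ)
    {Θ : Type} (Q : Finset Θ) (Φ : Θ → ∀ v : HeightOneSpectrum (𝓞 K), (Fin D → 𝓞 K ⧸ v.asIdeal) → ℝ) (M : Θ → ℝ)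
    (hbd : ∀ θ ∈ Q, ∃ C : ℝ, 0 ≤ C ∧ ∀ v, (∀ u, |Φ θ v u| ≤ C * Real.sqrt (Ideal.absNorm v.asIdeal)) ∧
      av v (fun u => Φ θ v u ^ 2) ≤ C ∧ |av v (Φ θ v) - M θ| ≤ C / Real.sqrt (Ideal.absNorm v.asIdeal)) :
    ∃ Me : ℕ, ∃ y₀ : ℕ, ∀ (S : Finset ℕ) (t : ℕ → Fin (D * g) → ℕ) (H y : ℕ), WellN S t H → y₀ ≤ y →
    ∀ W : ℕ → Set (HeightOneSpectrum (𝓞 K) → ℝ), (∀ T, (W T).Finite ∧ (W T).ncard ≤ T ^ B) → (∀ T, ∀ w ∈ W T, ∀ v, |w v| ≤ 1) →
    ∀ E : (Fin (D * g) → ℕ) → Prop,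
    (∀ m, (∀ T : ℕ, y ≤ T → T ^ Me ≤ 2 * H + 1 → ∀ w ∈ W T, ∀ θ ∈ Q,
      |∑ v ∈ VT K T, w v * ((Φ θ v (rd ω v m) - M θ) * Real.log (Ideal.absNorm v.asIdeal))| ≤ (T : ℝ) ^ (1 / 2 + δ)) → E m) →
    ((S.filter fun n => ¬ E (t n)).card : ℝ) ≤ 1 / (y : ℝ) ^ A * S.card := by
  obtain ⟨C', hC'⟩ : ∃ C' : Θ → ℝ, ∀ θ ∈ Q, 0 ≤ C' θ ∧ ∀ v, (∀ u, |Φ θ v u| ≤ C' θ * Real.sqrt (Ideal.absNorm v.asIdeal)) ∧
      av v (fun u => Φ θ v u ^ 2) ≤ C' θ ∧ |av v (Φ θ v) - M θ| ≤ C' θ / Real.sqrt (Ideal.absNorm v.asIdeal) := by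
    have h1 : ∀ θ, ∃ C : ℝ, θ ∈ Q → 0 ≤ C ∧ ∀ v, (∀ u, |Φ θ v u| ≤ C * Real.sqrt (Ideal.absNorm v.asIdeal)) ∧
      av v (fun u => Φ θ v u ^ 2) ≤ C ∧ |av v (Φ θ v) - M θ| ≤ C / Real.sqrt (Ideal.absNorm v.asIdeal) := by
      intro θ
      by_cases h : θ ∈ Q
      · obtain ⟨C, hC⟩ := hbd θ h
        exact ⟨C, fun _ => hC⟩
      · exact ⟨0, fun h' => absurd h' h⟩
    choose C' hC' using h1
    exact ⟨C', hC'⟩
  obtain ⟨C, hCdef⟩ : ∃ C : ℝ, C = ∑ θ ∈ Q, C' θ := ⟨_, rfl⟩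
  have hC0 : 0 ≤ C := by
    rw [hCdef]
    exact sum_nonneg fun θ hθ => (hC' θ hθ).1
  have hCle : ∀ θ ∈ Q, C' θ ≤ C := by
    intro θ hθ
    rw [hCdef]
    exact single_le_sum (f := C') (fun i hi => (hC' i hi).1) hθ
  have hb1 : ∀ θ ∈ Q, ∀ v u, |Φ θ v u| ≤ C * Real.sqrt (Ideal.absNorm v.asIdeal) := fun θ hθ v u =>
    (((hC' θ hθ).2 v).1 u).trans (mul_le_mul_of_nonneg_right (hCle θ hθ) (Real.sqrt_nonneg _))
  have hb2 : ∀ θ ∈ Q, ∀ v, av v (fun u => Φ θ v u ^ 2) ≤ C := fun θ hθ v => (((hC' θ hθ).2 v).2.1).trans (hCle θ hθ)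
  have hb3 : ∀ θ ∈ Q, ∀ v, |av v (Φ θ v) - M θ| ≤ C / Real.sqrt (Ideal.absNorm v.asIdeal) := fun θ hθ v =>
    (((hC' θ hθ).2 v).2.2).trans (div_le_div_of_nonneg_right (hCle θ hθ) (Real.sqrt_nonneg _))
  obtain ⟨n, hn⟩ : ∃ n, n = Module.finrank ℤ (𝓞 K) := ⟨_, rfl⟩
  obtain ⟨Me, x₀, hlaw⟩ := lawW (D * g) (δ / 4) A (B + 1) (by positivity)
  obtain ⟨x₁, hx₁⟩ := eventually_atTop.1 (ev_fin (n * C + 1) (n + 1) δ (by positivity) (by positivity) hδ)
  refine ⟨Me, x₀ + x₁ + Q.card + 3, fun S t H y hw hy W hW hW1 E hE => ?_⟩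
  have hyr : (1 : ℝ) ≤ y := by exact_mod_cast (by omega : 1 ≤ y)
  have hy0 : (0 : ℝ) < y := by linarith
  have h1 : 1 / (y : ℝ) ^ A = (y : ℝ) ^ (-(A : ℝ)) := by
    rw [Real.rpow_neg hy0.le, Real.rpow_natCast, one_div]
  rw [h1]
  -- the normalisation
  obtain ⟨L, hL⟩ : ∃ L : ℕ → ℝ, L = fun T : ℕ => (n * C + 1) * (Real.sqrt T * Real.log T) := ⟨_, rfl⟩
  have hLpos : ∀ T : ℕ, 3 ≤ T → 0 < L T := by
    intro T hT
    rw [hL]
    have h2 : 0 < Real.log T := Real.log_pos (by exact_mod_cast (by omega : 1 < T))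
    have h3 : 0 < Real.sqrt T := Real.sqrt_pos.2 (by exact_mod_cast (by omega : 0 < T))
    positivity
  obtain ⟨Λ, hΛ⟩ : ∃ Λ : ℕ → Finset (ℕ × (HeightOneSpectrum (𝓞 K) → ℝ) × Θ), Λ = fun x => if x < Q.card + 3 then ∅ else
    ({x} : Finset ℕ) ×ˢ ((hW x).1.toFinset ×ˢ Q) := ⟨_, rfl⟩
  have hmem : ∀ x l, l ∈ Λ x → 3 ≤ x ∧ l.1 = x ∧ l.2.1 ∈ W x ∧ l.2.2 ∈ Q := by
    intro x l hl
    rw [hΛ] at hl
    beta_reduce at hl
    split_ifs at hl with hx
    · exact absurd hl (notMem_empty _)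
    · rw [mem_product, mem_product, mem_singleton, Set.Finite.mem_toFinset] at hl
      exact ⟨by omega, hl.1, hl.2.1, hl.2.2⟩
  refine hlaw S t H y hw (by omega) (ℕ × (HeightOneSpectrum (𝓞 K) → ℝ) × Θ) Λ ?_ ℕ (fun x _ => (Icc 1 x).filter Nat.Prime) (fun _ p => p)
    ?_ ?_ ?_ (fun l p m => Xp ω (Φ l.2.2) l.1 l.2.1 p m / L l.1) ?_ ?_ _ (filter_subset _ _) ?_
  · intro x hx
    rw [hΛ]
    beta_reduce
    split_ifs with hxq
    · rw [card_empty, Nat.cast_zero]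
      positivity
    · rw [card_product, card_product, card_singleton, one_mul, ← Set.ncard_eq_toFinset_card _ (hW x).1]
      have h2 : (W x).ncard * Q.card ≤ x ^ B * x := Nat.mul_le_mul (hW x).2 (by omega)
      have h3 : ((W x).ncard * Q.card : ℕ) ≤ x ^ (B + 1) := by rw [pow_succ]; exact h2
      have h4 : ((x : ℝ)) ^ ((B : ℝ) + 1) = ((x ^ (B + 1) : ℕ) : ℝ) := by
        rw [show ((B : ℝ) + 1) = ((B + 1 : ℕ) : ℝ) by push_cast; ring, Real.rpow_natCast]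
        push_cast
        ring
      rw [h4]
      exact_mod_cast h3
  · intro x l _
    refine (card_filter_le _ _).trans ?_
    rw [Nat.card_Icc]
    omega
  · intro x l _ p hp
    rw [mem_filter, mem_Icc] at hp
    exact hp.1
  · intro x l _ p hp p' hp' hne
    rw [mem_filter] at hp hp'
    exact (Nat.coprime_primes hp.2 hp'.2).2 hne
  · intro x l _ p _ m
    show Xp ω (Φ l.2.2) l.1 l.2.1 p m / L l.1 = Xp ω (Φ l.2.2) l.1 l.2.1 p (fun i => m i % p) / L l.1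
    rw [← Xp_per ω (Φ l.2.2) l.1 l.2.1 p m]
  · intro x l hl p hp m
    obtain ⟨hx3, hlx, hlw, hlQ⟩ := hmem x l hl
    rw [mem_filter] at hp
    rw [abs_div, abs_of_pos (hLpos _ (by omega)), div_le_one (hLpos _ (by omega))]
    refine (Xp_le hC0 (hb1 _ hlQ) (T := l.1) (by omega) (hW1 x _ hlw) p hp.2 m).trans ?_
    rw [hL, ← hn]
    have h2 : 0 ≤ Real.sqrt l.1 * Real.log l.1 := mul_nonneg (Real.sqrt_nonneg _) (Real.log_nonneg (by exact_mod_cast (by omega : 1 ≤ l.1)))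
    beta_reduce
    nlinarith
  · intro k hk
    rw [mem_filter] at hk
    have h2 : ¬ ∀ T : ℕ, y ≤ T → T ^ Me ≤ 2 * H + 1 → ∀ w ∈ W T, ∀ θ ∈ Q,
      |∑ v ∈ VT K T, w v * ((Φ θ v (rd ω v (t k)) - M θ) * Real.log (Ideal.absNorm v.asIdeal))| ≤ (T : ℝ) ^ (1 / 2 + δ) :=
      fun h => hk.2 (hE _ h)
    push Not at h2
    obtain ⟨T, hyT, hTH, w, hwW, θ, hθ, hlt⟩ := h2
    have hT3 : 3 ≤ T := by omega
    refine ⟨T, hyT, hTH, (T, w, θ), ?_, ?_⟩
    · rw [hΛ]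
      beta_reduce
      rw [if_neg (by omega), mem_product, mem_product, mem_singleton, Set.Finite.mem_toFinset]
      exact ⟨rfl, hwW, hθ⟩
    · have hLT := hLpos T hT3
      -- the variance
      have hvar : max 1 (∑ p ∈ (Icc 1 T).filter Nat.Prime, mean (D * g) p (fun v => (Xp ω (Φ θ) T w p v / L T) ^ 2)) ≤ (n : ℝ) + 1 := by
        apply max_le
        · have : (0 : ℝ) ≤ n := Nat.cast_nonneg n
          linarith
        · have hTr : (0 : ℝ) < T := by exact_mod_cast (by omega : 0 < T)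
          have h3 : ∀ p ∈ (Icc 1 T).filter Nat.Prime, mean (D * g) p (fun v => (Xp ω (Φ θ) T w p v / L T) ^ 2) ≤ n / T := by
            intro p hp
            rw [mem_filter] at hp
            have h4 : (fun v : Fin (D * g) → ℕ => (Xp ω (Φ θ) T w p v / L T) ^ 2) = fun v => (1 / L T ^ 2) * Xp ω (Φ θ) T w p v ^ 2 := by
              funext v
              rw [div_pow]
              ring
            rw [h4, mean_smul]
            have h5 := Xp_sq hω hC0 (hb1 _ hθ) hT3 (hW1 T w hwW) (hb2 _ hθ) p hp.2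
            rw [← hn] at h5
            rw [div_mul_eq_mul_div, one_mul, div_le_div_iff₀ (by positivity) hTr]
            refine (mul_le_mul_of_nonneg_right h5 hTr.le).trans ?_
            have h6 : L T ^ 2 = (n * C + 1) ^ 2 * (T * Real.log T ^ 2) := by
              rw [hL]
              beta_reduce
              rw [mul_pow, mul_pow, Real.sq_sqrt hTr.le]
            rw [h6]
            have hn0 : (0 : ℝ) ≤ n := Nat.cast_nonneg n
            have h7 : (n : ℝ) ^ 2 * C ≤ n * (n * C + 1) ^ 2 := by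
              have h8 : (1 : ℝ) ≤ n * C + 1 := by nlinarith [mul_nonneg hn0 hC0]
              have h9 : n * C ≤ (n * C + 1) ^ 2 := by nlinarith
              nlinarith
            calc (n : ℝ) ^ 2 * (C * Real.log T ^ 2) * T = ((n : ℝ) ^ 2 * C) * (T * Real.log T ^ 2) := by ring
              _ ≤ (n * (n * C + 1) ^ 2) * (T * Real.log T ^ 2) := mul_le_mul_of_nonneg_right h7 (by positivity)
              _ = _ := by ring
          refine (sum_le_sum h3).trans ?_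
          rw [sum_const, nsmul_eq_mul]
          have h4 : ((((Icc 1 T).filter Nat.Prime).card : ℕ) : ℝ) ≤ T := by
            have := card_filter_le (Icc 1 T) Nat.Prime
            rw [Nat.card_Icc] at this
            exact_mod_cast (by omega : ((Icc 1 T).filter Nat.Prime).card ≤ T)
          calc ((((Icc 1 T).filter Nat.Prime).card : ℕ) : ℝ) * (n / T) ≤ T * (n / T) := mul_le_mul_of_nonneg_right h4 (by positivity)
            _ = n := by field_simp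
            _ ≤ n + 1 := by linarith
      -- the sums
      have hs1 : ∑ p ∈ (Icc 1 T).filter Nat.Prime, Xp ω (Φ θ) T w p (t k) / L T - ∑ p ∈ (Icc 1 T).filter Nat.Prime,
          mean (D * g) p (fun m => Xp ω (Φ θ) T w p m / L T) =
          (∑ v ∈ VT K T, w v * ((Φ θ v (rd ω v (t k)) - M θ) * Real.log (Ideal.absNorm v.asIdeal)) -
            ∑ v ∈ VT K T, w v * ((av v (Φ θ v) - M θ) * Real.log (Ideal.absNorm v.asIdeal))) / L T := by
        have e1 : ∀ p, mean (D * g) p (fun m => Xp ω (Φ θ) T w p m / L T) = (∑ v ∈ Vp K T p, w v * (av v (Φ θ v) * Real.log (Ideal.absNorm v.asIdeal))) / L T := by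
          intro p
          have e2 : (fun m : Fin (D * g) → ℕ => Xp ω (Φ θ) T w p m / L T) = fun m => (1 / L T) * Xp ω (Φ θ) T w p m := by
            funext m
            ring
          rw [e2, mean_smul, Xp_mean hω hC0 (hb1 _ hθ) hT3 (hW1 T w hwW) p]
          ring
        simp only [e1]
        rw [← sum_div, ← sum_div, ← sub_div, ← sum_sub_distrib]
        congr 1
        have e3 : ∑ p ∈ (Icc 1 T).filter Nat.Prime, Xp ω (Φ θ) T w p (t k) = ∑ v ∈ VT K T, w v * (Φ θ v (rd ω v (t k)) * Real.log (Ideal.absNorm v.asIdeal)) := by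
          rw [sum_VT]
          rfl
        rw [sum_sub_distrib, e3, ← sum_VT, ← sum_sub_distrib, ← sum_sub_distrib]
        refine sum_congr rfl fun v _ => by ring
      have hs2 : |∑ v ∈ VT K T, w v * ((av v (Φ θ v) - M θ) * Real.log (Ideal.absNorm v.asIdeal))| ≤ 2 * L T := by
        have h3 : ∀ v ∈ VT K T, |w v * ((av v (Φ θ v) - M θ) * Real.log (Ideal.absNorm v.asIdeal))| ≤ C * Real.log T * (1 / Real.sqrt (Ideal.absNorm v.asIdeal)) := by
          intro v hv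
          obtain ⟨h4, h5⟩ := log_le_T hC0 (hb1 _ hθ) hT3 (hW1 T w hwW) v hv
          rw [abs_mul, abs_mul, abs_of_nonneg h4]
          have h6 := hb3 θ hθ v
          calc |w v| * (|av v (Φ θ v) - M θ| * Real.log (Ideal.absNorm v.asIdeal)) ≤ 1 * ((C / Real.sqrt (Ideal.absNorm v.asIdeal)) * Real.log T) := by
                apply mul_le_mul (hW1 T w hwW v) _ (by positivity) zero_le_one
                exact mul_le_mul h6 h5 h4 (by positivity)
            _ = _ := by ring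
        refine (abs_sum_le_sum_abs _ _).trans ((sum_le_sum h3).trans ?_)
        rw [← mul_sum]
        have h7 := sum_VT_inv (K := K) T
        rw [← hn] at h7
        have hlog : 0 ≤ Real.log T := Real.log_nonneg (by exact_mod_cast (by omega : 1 ≤ T))
        refine (mul_le_mul_of_nonneg_left h7 (by positivity)).trans ?_
        rw [hL]
        beta_reduce
        have h8 : 0 ≤ Real.sqrt T * Real.log T := mul_nonneg (Real.sqrt_nonneg _) hlog
        nlinarith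
      show Real.sqrt (max 1 (∑ p ∈ (Icc 1 T).filter Nat.Prime, mean (D * g) p (fun v => (Xp ω (Φ θ) T w p v / L T) ^ 2))) * (T : ℝ) ^ (δ / 4) <
        |∑ p ∈ (Icc 1 T).filter Nat.Prime, Xp ω (Φ θ) T w p (t k) / L T - ∑ p ∈ (Icc 1 T).filter Nat.Prime,
          mean (D * g) p (fun m => Xp ω (Φ θ) T w p m / L T)|
      rw [hs1, abs_div, abs_of_pos hLT, lt_div_iff₀ hLT]
      have h9 := hx₁ T (by omega)
      have h10 : Real.sqrt (max 1 (∑ p ∈ (Icc 1 T).filter Nat.Prime, mean (D * g) p (fun v => (Xp ω (Φ θ) T w p v / L T) ^ 2))) ≤ Real.sqrt (n + 1) :=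
        Real.sqrt_le_sqrt hvar
      have h11 : Real.sqrt (max 1 (∑ p ∈ (Icc 1 T).filter Nat.Prime, mean (D * g) p (fun v => (Xp ω (Φ θ) T w p v / L T) ^ 2))) * (T : ℝ) ^ (δ / 4) * L T ≤
          Real.sqrt (n + 1) * (T : ℝ) ^ (δ / 4) * L T := by gcongr
      have h12 : L T * (Real.sqrt (n + 1) * (T : ℝ) ^ (δ / 4) + 2) ≤ (T : ℝ) ^ (1 / 2 + δ) := by
        rw [hL]
        exact h9
      have h13 := abs_sub_abs_le_abs_sub (∑ v ∈ VT K T, w v * ((Φ θ v (rd ω v (t k)) - M θ) * Real.log (Ideal.absNorm v.asIdeal)))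
        (∑ v ∈ VT K T, w v * ((av v (Φ θ v) - M θ) * Real.log (Ideal.absNorm v.asIdeal)))
      nlinarith

open Classical in
/-- **The theorem for the integer parts of generalised polynomials.** -/
theorem genN {D g : ℕ} (ω : Fin g → 𝓞 K) (hω : Submodule.span ℤ (Set.range ω) = ⊤) (hD : 1 ≤ D * g)
    {P : Fin (D * g) → Finset ℝ} {a : Fin (D * g) → ℝ → ℝ} {c : Fin (D * g) → ℝ}
    (h : ∀ i, Adm (P i) (a i) (c i)) (hc : Function.Injective c) (δ : ℝ) (hδ : 0 < δ) (A B : ℕ)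
    {Θ : Type} (Q : Finset Θ) (Φ : Θ → ∀ v : HeightOneSpectrum (𝓞 K), (Fin D → 𝓞 K ⧸ v.asIdeal) → ℝ) (M : Θ → ℝ)
    (hbd : ∀ θ ∈ Q, ∃ C : ℝ, 0 ≤ C ∧ ∀ v, (∀ u, |Φ θ v u| ≤ C * Real.sqrt (Ideal.absNorm v.asIdeal)) ∧
      av v (fun u => Φ θ v u ^ 2) ≤ C ∧ |av v (Φ θ v) - M θ| ≤ C / Real.sqrt (Ideal.absNorm v.asIdeal)) :
    ∃ κ : ℝ, 0 < κ ∧ ∃ y₀ : ℕ, ∀ y N : ℕ, y₀ ≤ y →
    ∀ W : ℕ → Set (HeightOneSpectrum (𝓞 K) → ℝ), (∀ T, (W T).Finite ∧ (W T).ncard ≤ T ^ B) → (∀ T, ∀ w ∈ W T, ∀ v, |w v| ≤ 1) →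
    ∀ E : (Fin (D * g) → ℕ) → Prop,
    (∀ m, (∀ T : ℕ, y ≤ T → (T : ℝ) ≤ (N : ℝ) ^ κ → ∀ w ∈ W T, ∀ θ ∈ Q,
      |∑ v ∈ VT K T, w v * ((Φ θ v (rd ω v m) - M θ) * Real.log (Ideal.absNorm v.asIdeal))| ≤ (T : ℝ) ^ (1 / 2 + δ)) → E m) →
    (((Ioc N (2 * N)).filter fun t => ¬ E (pv P a t)).card : ℝ) ≤ 1 / (y : ℝ) ^ A * N ∧
    ((((Ioc N (2 * N)).filter Nat.Prime).filter fun t => ¬ E (pv P a t)).card : ℝ) ≤
      1 / (y : ℝ) ^ A * ((Ioc N (2 * N)).filter Nat.Prime).card := by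
  obtain ⟨Me, y₁, h1⟩ := genW ω hω δ hδ A B Q Φ M hbd
  obtain ⟨κ, hκ, y₂, h2⟩ := thin_conv hD h hc Me
  refine ⟨κ, hκ, y₁ + y₂, fun y N hy W hW hW1 E hE => ?_⟩
  exact h2 y N A (by omega) (fun T m => ∀ w ∈ W T, ∀ θ ∈ Q,
    |∑ v ∈ VT K T, w v * ((Φ θ v (rd ω v m) - M θ) * Real.log (Ideal.absNorm v.asIdeal))| ≤ (T : ℝ) ^ (1 / 2 + δ))
    (fun S t H hw E' hE' => h1 S t H y hw (by omega) W hW hW1 E' hE') E hE

end Pool.Agent.N647.NG
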