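import Pool.Agent.H341R2.WeilSharp

/-!
# Linear systems of double coverings over finite fields: the first two moments
-/

set_option autoImplicit false

namespace Pool.Agent.N647.NG

open Finset Polynomial

section
variable {κ : Type} [Field κ] [Fintype κ] [DecidableEq κ]

/-- the quadratic character -/
noncomputable def ch (a : κ) : ℝ := (quadraticChar κ a : ℤ)

lemma ch_abs (a : κ) : |ch a| ≤ 1 := by
  unfold ch
  by_cases h : a = 0
  · rw [h]
    simp
  · rcases quadraticChar_dichotomy h with h1 | h1 <;> rw [h1] <;> simp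

lemma sum_ch (h2 : ringChar κ ≠ 2) : ∑ a : κ, ch a = 0 := by
  unfold ch
  exact_mod_cast quadraticChar_sum_zero h2

lemma sum_ch_affine (h2 : ringChar κ ≠ 2) (a b : κ) (hb : b ≠ 0) : ∑ s : κ, ch (a + s * b) = 0 := by
  rw [← sum_ch h2]
  exact Fintype.sum_bijective (fun s : κ => a + s * b)
    ⟨fun x y hxy => mul_right_cancel₀ hb (add_left_cancel hxy), fun y => ⟨(y - a) / b, by field_simp; ring⟩⟩ _ _ fun _ => rfl

/-- the number of the square roots -/
lemma card_sqrt (h2 : ringChar κ ≠ 2) (a : κ) : (Nat.card {y : κ // y ^ 2 = a} : ℝ) = 1 + ch a := by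
  unfold ch
  have h1 := quadraticChar_card_sqrts h2 a
  have h3 : (Nat.card {y : κ // y ^ 2 = a} : ℤ) = quadraticChar κ a + 1 := by
    rw [← h1]
    rw [Nat.card_eq_fintype_card]
    congr 1
    rw [Set.toFinset_card]
    exact Fintype.card_congr (Equiv.refl _)
  have h4 : ((Nat.card {y : κ // y ^ 2 = a} : ℤ) : ℝ) = ((quadraticChar κ a + 1 : ℤ) : ℝ) := by rw [h3]
  push_cast at h4 ⊢
  linarith

variable {Ω : Type} [Fintype Ω] [DecidableEq Ω] {D : ℕ} (f : Ω → κ) (h : Fin D → Ω → κ)

/-- the value -/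
def vl (u : Fin D → κ) (P : Ω) : κ := f P + ∑ i, u i * h i P

/-- the values of the system separate the points -/
def Sep : Prop := ∀ P Q : Ω, P ≠ Q → (∃ i, h i P ≠ 0) → ¬ ∃ l : κ, ∀ i, h i P = l * h i Q

/-- the sum over the base locus -/
noncomputable def bs : ℝ := ∑ P with (∀ i, h i P = 0), ch (f P)

lemma sep_vec (hs : Sep h) (P Q : Ω) (hPQ : P ≠ Q) (hP : ∃ i, h i P ≠ 0) :
    ∃ c : Fin D → κ, ∑ i, c i * h i P ≠ 0 ∧ ∑ i, c i * h i Q = 0 := by
  by_cases hQ : ∃ j, h j Q ≠ 0
  · obtain ⟨j, hj⟩ := hQ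
    have h1 := hs P Q hPQ hP
    push Not at h1
    obtain ⟨i, hi⟩ := h1 (h j P / h j Q)
    refine ⟨fun k => (if k = i then 1 else 0) - (h i Q / h j Q) * (if k = j then 1 else 0), ?_, ?_⟩
    · simp only [sub_mul, sum_sub_distrib, mul_assoc, ← mul_sum, ite_mul, one_mul, zero_mul, sum_ite_eq', mem_univ, if_true]
      intro h3
      apply hi
      field_simp
      field_simp at h3
      linear_combination h3
    · simp only [sub_mul, sum_sub_distrib, mul_assoc, ← mul_sum, ite_mul, one_mul, zero_mul, sum_ite_eq', mem_univ, if_true]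
      field_simp
      ring
  · push Not at hQ
    obtain ⟨i, hi⟩ := hP
    refine ⟨fun k => if k = i then 1 else 0, ?_, ?_⟩
    · simp only [ite_mul, one_mul, zero_mul, sum_ite_eq', mem_univ, if_true]
      exact hi
    · exact sum_eq_zero fun k _ => by rw [hQ k, mul_zero]

/-- sums over all the coefficient vectors -/
lemma sum_shift (F : (Fin D → κ) → ℝ) (c : Fin D → κ) (hF : ∀ u : Fin D → κ, ∑ s : κ, F (fun i => u i + s * c i) = 0) : ∑ u, F u = 0 := by
  have h1 : ∀ s : κ, ∑ u : Fin D → κ, F (fun i => u i + s * c i) = ∑ u, F u := by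
    intro s
    exact Fintype.sum_equiv (Equiv.addRight fun i => s * c i) _ _ fun _ => rfl
  have h2 : ∑ s : κ, ∑ u : Fin D → κ, F (fun i => u i + s * c i) = 0 := by
    rw [sum_comm]
    exact sum_eq_zero fun u _ => hF u
  rw [sum_congr rfl fun s _ => h1 s, sum_const, nsmul_eq_mul, card_univ] at h2
  rcases mul_eq_zero.1 h2 with h3 | h3
  · exact absurd h3 (by exact_mod_cast Fintype.card_ne_zero)
  · exact h3

lemma vl_add (u c : Fin D → κ) (s : κ) (P : Ω) : vl f h (fun i => u i + s * c i) P = vl f h u P + s * ∑ i, c i * h i P := by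
  unfold vl
  rw [mul_sum, add_assoc, ← sum_add_distrib]
  congr 1
  exact sum_congr rfl fun i _ => by ring

lemma sum_one (h2 : ringChar κ ≠ 2) (P : Ω) (hP : ∃ i, h i P ≠ 0) : ∑ u, ch (vl f h u P) = 0 := by
  obtain ⟨i, hi⟩ := hP
  refine sum_shift _ (fun k => if k = i then 1 else 0) fun u => ?_
  have h1 : ∑ k, (if k = i then (1 : κ) else 0) * h k P = h i P := by
    simp only [ite_mul, one_mul, zero_mul, sum_ite_eq', mem_univ, if_true]
  simp only [vl_add, h1]
  exact sum_ch_affine h2 _ _ hi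

lemma sum_two (h2 : ringChar κ ≠ 2) (hs : Sep h) (P Q : Ω) (hPQ : P ≠ Q) (hP : ∃ i, h i P ≠ 0) :
    ∑ u, ch (vl f h u P) * ch (vl f h u Q) = 0 := by
  obtain ⟨c, h1, h3⟩ := sep_vec h hs P Q hPQ hP
  refine sum_shift _ c fun u => ?_
  simp only [vl_add, h3, mul_zero, add_zero]
  rw [← sum_mul, sum_ch_affine h2 _ _ h1, zero_mul]

lemma sum_eq_bs (u : Fin D → κ) : ∑ P, ch (vl f h u P) = bs f h + ∑ P with (¬ ∀ i, h i P = 0), ch (vl f h u P) := by
  rw [← sum_filter_add_sum_filter_not univ (fun P => ∀ i, h i P = 0)]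
  congr 1
  unfold bs
  refine sum_congr rfl fun P hP => ?_
  rw [mem_filter] at hP
  unfold vl
  rw [sum_eq_zero fun i _ => by rw [hP.2 i, mul_zero], add_zero]

theorem first (h2 : ringChar κ ≠ 2) : ∑ u : Fin D → κ, ∑ P, ch (vl f h u P) = (Fintype.card κ : ℝ) ^ D * bs f h := by
  simp only [sum_eq_bs]
  rw [sum_add_distrib, sum_const, card_univ, Fintype.card_fun, Fintype.card_fin, nsmul_eq_mul, sum_comm]
  rw [sum_eq_zero (s := univ.filter fun P => ¬ ∀ i, h i P = 0)]
  · push_cast
    ring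
  · intro P hP
    rw [mem_filter] at hP
    have := hP.2
    push Not at this
    exact sum_one f h h2 P this

theorem second (h2 : ringChar κ ≠ 2) (hs : Sep h) :
    ∑ u : Fin D → κ, (∑ P, ch (vl f h u P) - bs f h) ^ 2 ≤ (Fintype.card κ : ℝ) ^ D * Fintype.card Ω := by
  obtain ⟨S, hS⟩ : ∃ S, S = univ.filter (fun P => ¬ ∀ i, h i P = 0) := ⟨_, rfl⟩
  have h1 : ∀ u : Fin D → κ, (∑ P, ch (vl f h u P) - bs f h) ^ 2 = ∑ P ∈ S, ∑ Q ∈ S, ch (vl f h u P) * ch (vl f h u Q) := by
    intro u
    rw [sum_eq_bs, add_sub_cancel_left, sq, sum_mul_sum, hS]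
  simp only [h1]
  rw [sum_comm]
  have h3 : ∀ P ∈ S, ∑ u : Fin D → κ, ∑ Q ∈ S, ch (vl f h u P) * ch (vl f h u Q) ≤ (Fintype.card κ : ℝ) ^ D := by
    intro P hP
    rw [sum_comm, sum_eq_single P]
    · have h4 : ∀ u : Fin D → κ, ch (vl f h u P) * ch (vl f h u P) ≤ 1 := by
        intro u
        have := ch_abs (vl f h u P)
        rw [← abs_mul_abs_self]
        have h5 := abs_nonneg (ch (vl f h u P))
        nlinarith
      refine (sum_le_sum fun u _ => h4 u).trans ?_
      rw [sum_const, card_univ, Fintype.card_fun, Fintype.card_fin, nsmul_eq_mul, mul_one]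
      push_cast
      exact le_rfl
    · intro Q _ hQP
      rw [hS, mem_filter] at hP
      have := hP.2
      push Not at this
      exact sum_two f h h2 hs P Q (Ne.symm hQP) this
    · intro hP'
      exact absurd hP hP'
  refine (sum_le_sum h3).trans ?_
  rw [sum_const, nsmul_eq_mul, mul_comm]
  apply mul_le_mul_of_nonneg_left _ (by positivity)
  exact_mod_cast card_le_univ S

end

section
variable {κ : Type} [Field κ] [Fintype κ] [DecidableEq κ]

/-- Weil's bound for monic polynomials of odd degree -/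
theorem weil_odd (h2 : ringChar κ ≠ 2) {g : ℕ} {p : κ[X]} (hp : p.Monic) (hd : p.natDegree = 2 * g + 1) :
    |∑ x : κ, ch (p.eval x)| ≤ 2 * g * Real.sqrt (Fintype.card κ) := by
  have h3 := Pool.Agent.H341R2.Sharp.weil_sharp_monic h2 hp (by omega) (by
    intro c f hc
    have hc0 : c ≠ 0 := by
      rintro rfl
      rw [Polynomial.C_0, zero_mul] at hc
      rw [hc, Polynomial.natDegree_zero] at hd
      omega
    rw [hc, Polynomial.natDegree_C_mul hc0, Polynomial.natDegree_pow] at hd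
    omega)
  rw [hd] at h3
  push_cast at h3
  rw [add_sub_cancel_right] at h3
  exact h3

end

end Pool.Agent.N647.NG
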