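import Pool.Agent.N647.NG.Num

/-!
# Nagao's sums over all the prime ideals: the theorem
-/

set_option autoImplicit false

namespace Pool.Agent.N647.NG

open Finset Polynomial NumberField IsDedekindDomain Filter
open Pool.Agent.N842.HS (VT mem_VT cf norm_card)
open Pool.Agent.N647.TS

variable {K : Type} [Field K] [NumberField K] {m D : ℕ}

open Classical in
/-- **Nagao's sums for the members of a linear system of fibrations at the integer parts of generalised polynomials.** -/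
theorem nagN (hm : 1 ≤ m) (F₀ : (MvPolynomial (Fin m) (𝓞 K))[X]) (h : Fin D → (MvPolynomial (Fin m) (𝓞 K))[X])
    {g' : ℕ} (hF : F₀.Monic) (hd : F₀.natDegree = 2 * g' + 1) (hh : ∀ i, (h i).natDegree < 2 * g' + 1) (r C₀ : ℝ)
    (S : Set (HeightOneSpectrum (𝓞 K))) (hS : S.Finite) (hs : ∀ v ∉ S, SepV v h)
    (hb : ∀ v ∉ S, |(cc v F₀ h : ℝ) - cb v h - r * (Ideal.absNorm v.asIdeal : ℝ) ^ m| ≤
      C₀ * ((Ideal.absNorm v.asIdeal : ℝ) ^ m / Real.sqrt (Ideal.absNorm v.asIdeal)))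
    (P : MvPolynomial (Fin D) (𝓞 K)) (hP : P ≠ 0)
    {g : ℕ} (ω : Fin g → 𝓞 K) (hω : Submodule.span ℤ (Set.range ω) = ⊤) (hD : 1 ≤ D * g)
    {G : Fin (D * g) → Finset ℝ} {a : Fin (D * g) → ℝ → ℝ} {c : Fin (D * g) → ℝ}
    (ha : ∀ i, Adm (G i) (a i) (c i)) (hc : Function.Injective c) (δ : ℝ) (hδ : 0 < δ) (A B : ℕ) :
    ∃ κ : ℝ, 0 < κ ∧ ∃ y₀ : ℕ, ∀ y N : ℕ, y₀ ≤ y →
    ∀ W : ℕ → Set (HeightOneSpectrum (𝓞 K) → ℝ), (∀ T, (W T).Finite ∧ (W T).ncard ≤ T ^ B) → (∀ T, ∀ w ∈ W T, ∀ v, |w v| ≤ 1) →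
    ∀ E : (Fin (D * g) → ℕ) → Prop,
    (∀ n, (∀ T : ℕ, y ≤ T → (T : ℝ) ≤ (N : ℝ) ^ κ → ∀ w ∈ W T, ∀ R : Set (HeightOneSpectrum (𝓞 K)),
      (∀ v ∈ R, MvPolynomial.eval (cf ω n) P ∈ v.asIdeal) →
      |∑ v ∈ (VT K T).filter (fun v => v ∉ R), w v * ((AA (mkv v) (mem F₀ h (cf ω n)) + r) * Real.log (Ideal.absNorm v.asIdeal))| ≤
        (T : ℝ) ^ (1 / 2 + δ)) → E n) →
    (((Ioc N (2 * N)).filter fun t => ¬ E (pv G a t)).card : ℝ) ≤ 1 / (y : ℝ) ^ A * N ∧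
    ((((Ioc N (2 * N)).filter Nat.Prime).filter fun t => ¬ E (pv G a t)).card : ℝ) ≤
      1 / (y : ℝ) ^ A * ((Ioc N (2 * N)).filter Nat.Prime).card := by
  obtain ⟨Φ, hΦ⟩ : ∃ Φ : ∀ v : HeightOneSpectrum (𝓞 K), (Fin D → 𝓞 K ⧸ v.asIdeal) → ℝ, Φ = fun v u => Ag (mkv v) F₀ h u + r := ⟨_, rfl⟩
  obtain ⟨C₁, hC₁⟩ : ∃ C₁ : ℝ, C₁ = 2 * g' + |r| + (2 + 2 * C₀ ^ 2) + |C₀| := ⟨_, rfl⟩
  have hC₁0 : 0 ≤ C₁ := by
    rw [hC₁]
    positivity
  have h2 : {v : HeightOneSpectrum (𝓞 K) | (2 : 𝓞 K) ∈ v.asIdeal}.Finite := finite_dvd 2 two_ne_zero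
  -- the bounds for the averages
  have hbd1 : ∀ v ∉ S ∪ {v : HeightOneSpectrum (𝓞 K) | (2 : 𝓞 K) ∈ v.asIdeal}, Bd C₁ 0 v (Φ v) := by
    intro v hv
    rw [Set.mem_union, not_or] at hv
    rw [hΦ, hC₁]
    exact Bd_main hm F₀ h hF hd hh r C₀ v hv.2 (hs v hv.1) (hb v hv.1)
  obtain ⟨C₂, hC₂0, hC₂⟩ := upgrade Φ 0 _ (hS.union h2) C₁ hC₁0 hbd1
  -- the bounds for the bad part
  obtain ⟨s, hs'⟩ : ∃ s, P.coeff s ≠ 0 := by
    by_contra hcon
    push Not at hcon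
    exact hP (MvPolynomial.ext _ _ fun s => by rw [hcon s, MvPolynomial.coeff_zero])
  obtain ⟨Ψ, hΨ⟩ : ∃ Ψ : ∀ v : HeightOneSpectrum (𝓞 K), (Fin D → 𝓞 K ⧸ v.asIdeal) → ℝ,
    Ψ = fun v u => |Φ v u| * (if MvPolynomial.eval u (MvPolynomial.map (mkv v) P) = 0 then 1 else 0) := ⟨_, rfl⟩
  obtain ⟨C₃, hC₃0, hC₃⟩ := upgrade Ψ 0 _ (finite_dvd (P.coeff s) hs') (C₂ + Real.sqrt (C₂ * P.totalDegree)) (by positivity) (by
    intro v hv
    rw [hΨ]
    refine Bd_bad P v ?_ C₂ hC₂0 (Φ v) (hC₂ v)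
    intro h0
    apply hv
    have h1 := congrArg (MvPolynomial.coeff s) h0
    rw [MvPolynomial.coeff_map, MvPolynomial.coeff_zero] at h1
    exact Ideal.Quotient.eq_zero_iff_mem.1 h1)
  obtain ⟨κ, hκ, y₁, hgen⟩ := genN ω hω hD ha hc (δ / 2) (by positivity) A (B + 1) (univ : Finset Bool) (fun b => if b then Φ else Ψ) (fun _ => 0)
    (fun b _ => by
      cases b
      · exact ⟨C₃, hC₃0, fun v => hC₃ v⟩
      · exact ⟨C₂, hC₂0, fun v => hC₂ v⟩)
  have hev : ∀ᶠ T : ℕ in atTop, (2 : ℝ) ≤ (T : ℝ) ^ (δ / 2) := by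
    have h1 : Tendsto (fun x : ℝ => x ^ (δ / 2)) atTop atTop := tendsto_rpow_atTop (by positivity)
    exact (h1.comp tendsto_natCast_atTop_atTop).eventually (eventually_ge_atTop _)
  obtain ⟨y₂, hy₂⟩ := eventually_atTop.1 hev
  refine ⟨κ, hκ, y₁ + y₂ + 2, fun y N hy W hW hW1 E hE => ?_⟩
  obtain ⟨W', hW'⟩ : ∃ W' : ℕ → Set (HeightOneSpectrum (𝓞 K) → ℝ), W' = fun T => if 2 ≤ T then insert (fun _ => (1 : ℝ)) (W T) else ∅ := ⟨_, rfl⟩
  refine hgen y N (by omega) W' (fun T => ?_) (fun T w hw v => ?_) E fun n hn => hE n fun T hyT hTN w hw R hR => ?_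
  · rw [hW']
    beta_reduce
    split_ifs with hT
    · refine ⟨(hW T).1.insert _, (Set.ncard_insert_le _ _).trans ?_⟩
      have h1 := (hW T).2
      have h3 : 1 ≤ T ^ B := Nat.one_le_pow _ _ (by omega)
      rw [pow_succ]
      nlinarith
    · exact ⟨Set.finite_empty, by rw [Set.ncard_empty]; exact Nat.zero_le _⟩
  · rw [hW'] at hw
    beta_reduce at hw
    split_ifs at hw with hT
    · rcases Set.mem_insert_iff.1 hw with h1 | h1
      · rw [h1]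
        simp
      · exact hW1 T w h1 v
    · exact absurd hw (Set.notMem_empty _)
  · have hT2 : 2 ≤ T := by omega
    have hw' : w ∈ W' T := by
      rw [hW']
      beta_reduce
      rw [if_pos hT2]
      exact Set.mem_insert_of_mem _ hw
    have hone : (fun _ => (1 : ℝ)) ∈ W' T := by
      rw [hW']
      beta_reduce
      rw [if_pos hT2]
      exact Set.mem_insert _ _
    have e1 := hn T hyT hTN w hw' true (mem_univ _)
    have e2 := hn T hyT hTN (fun _ => 1) hone false (mem_univ _)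
    simp only [if_true, sub_zero] at e1
    simp only [Bool.false_eq_true, if_false, sub_zero, one_mul] at e2
    have hterm : ∀ v : HeightOneSpectrum (𝓞 K), AA (mkv v) (mem F₀ h (cf ω n)) + r = Φ v (rd ω v n) := by
      intro v
      rw [AA_mem, hΦ]
      rfl
    simp only [hterm]
    have e3 : ∑ v ∈ (VT K T).filter (fun v => v ∉ R), w v * (Φ v (rd ω v n) * Real.log (Ideal.absNorm v.asIdeal)) =
        ∑ v ∈ VT K T, w v * (Φ v (rd ω v n) * Real.log (Ideal.absNorm v.asIdeal)) -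
        ∑ v ∈ (VT K T).filter (fun v => v ∈ R), w v * (Φ v (rd ω v n) * Real.log (Ideal.absNorm v.asIdeal)) := by
      rw [← sum_filter_add_sum_filter_not (VT K T) (fun v => v ∈ R)]
      ring
    have hlog : ∀ v : HeightOneSpectrum (𝓞 K), 0 ≤ Real.log (Ideal.absNorm v.asIdeal) := fun v => Real.log_nonneg (q_one v)
    have e4 : |∑ v ∈ (VT K T).filter (fun v => v ∈ R), w v * (Φ v (rd ω v n) * Real.log (Ideal.absNorm v.asIdeal))| ≤
        ∑ v ∈ VT K T, Ψ v (rd ω v n) * Real.log (Ideal.absNorm v.asIdeal) := by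
      refine (abs_sum_le_sum_abs _ _).trans ?_
      have hΨ0 : ∀ v u, 0 ≤ Ψ v u := by
        intro v u
        rw [hΨ]
        exact mul_nonneg (abs_nonneg _) (by split_ifs <;> norm_num)
      refine le_trans (sum_le_sum fun v hv => ?_) (sum_le_sum_of_subset_of_nonneg (filter_subset (fun v => v ∈ R) (VT K T)) fun v _ _ => mul_nonneg (hΨ0 _ _) (hlog v))
      rw [mem_filter] at hv
      have h3 : Ψ v (rd ω v n) = |Φ v (rd ω v n)| := by
        rw [hΨ]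
        beta_reduce
        rw [if_pos, mul_one]
        have h4 : MvPolynomial.eval (rd ω v n) (MvPolynomial.map (mkv v) P) = mkv v (MvPolynomial.eval (cf ω n) P) := by
          rw [MvPolynomial.eval_map]
          exact (MvPolynomial.eval₂_comp_left (mkv v) (RingHom.id _) (cf ω n) P).symm.trans rfl |>.symm ▸ rfl
        rw [h4]
        exact Ideal.Quotient.eq_zero_iff_mem.2 (hR v hv.2)
      rw [h3, abs_mul, abs_mul, abs_of_nonneg (hlog v)]
      have h5 := hW1 T w hw v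
      have h6 : 0 ≤ |Φ v (rd ω v n)| * Real.log (Ideal.absNorm v.asIdeal) := mul_nonneg (abs_nonneg _) (hlog v)
      nlinarith
    have e5 := (le_abs_self _).trans e2
    have e6 : (2 : ℝ) * (T : ℝ) ^ (1 / 2 + δ / 2) ≤ (T : ℝ) ^ (1 / 2 + δ) := by
      have hT0 : (0 : ℝ) < T := by exact_mod_cast (by omega : 0 < T)
      have h7 := hy₂ T (by omega)
      have h8 : (T : ℝ) ^ (1 / 2 + δ) = (T : ℝ) ^ (δ / 2) * (T : ℝ) ^ (1 / 2 + δ / 2) := by
        rw [← Real.rpow_add hT0]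
        congr 1
        ring
      rw [h8]
      exact mul_le_mul_of_nonneg_right h7 (by positivity)
    rw [e3]
    refine (abs_sub _ _).trans ?_
    linarith

end Pool.Agent.N647.NG
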