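import Pool.Agent.N647.NG.Gen2
import Pool.Agent.N647.NG.Fib

/-!
# Nagao's sums over all the prime ideals, for linear systems of fibrations whose coefficients are the integer parts of generalised
# polynomials
-/

set_option autoImplicit false

namespace Pool.Agent.N647.NG

open Finset Polynomial NumberField IsDedekindDomain Filter
open Pool.Agent.N842.HS (VT mem_VT cf norm_card)
open Pool.Agent.N647.TS

section bounds
variable {K : Type} [Field K] [NumberField K] {D : ℕ}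

/-- the bounds for a local function -/
def Bd (C M : ℝ) (v : HeightOneSpectrum (𝓞 K)) (F : (Fin D → 𝓞 K ⧸ v.asIdeal) → ℝ) : Prop :=
  (∀ u, |F u| ≤ C * Real.sqrt (Ideal.absNorm v.asIdeal)) ∧ av v (fun u => F u ^ 2) ≤ C ∧ |av v F - M| ≤ C / Real.sqrt (Ideal.absNorm v.asIdeal)

lemma q_one (v : HeightOneSpectrum (𝓞 K)) : (1 : ℝ) ≤ Ideal.absNorm v.asIdeal := by
  exact_mod_cast le_trans (rc_prime v).one_lt.le (rc_le v)

lemma sq_one (v : HeightOneSpectrum (𝓞 K)) : (1 : ℝ) ≤ Real.sqrt (Ideal.absNorm v.asIdeal) := by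
  rw [Real.one_le_sqrt]
  exact q_one v

lemma Bd_mono {C C' M : ℝ} (h : C ≤ C') {v : HeightOneSpectrum (𝓞 K)} {F : (Fin D → 𝓞 K ⧸ v.asIdeal) → ℝ} (hF : Bd C M v F) : Bd C' M v F := by
  obtain ⟨h1, h2, h3⟩ := hF
  have h4 := sq_one v
  exact ⟨fun u => (h1 u).trans (mul_le_mul_of_nonneg_right h (by linarith)), h2.trans h, h3.trans (div_le_div_of_nonneg_right h (by linarith))⟩

lemma av_le (v : HeightOneSpectrum (𝓞 K)) (F : (Fin D → 𝓞 K ⧸ v.asIdeal) → ℝ) (B : ℝ) (hF : ∀ u, F u ≤ B) : av v F ≤ B := by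
  have hfin := quot_finite v
  have : Fintype (𝓞 K ⧸ v.asIdeal) := Fintype.ofFinite _
  have hq := q_one v
  unfold av
  rw [finsum_eq_sum_of_fintype, div_le_iff₀ (by positivity)]
  refine (sum_le_sum fun u _ => hF u).trans (le_of_eq ?_)
  rw [sum_const, card_univ, Fintype.card_fun, Fintype.card_fin, nsmul_eq_mul, norm_card, Nat.card_eq_fintype_card]
  push_cast
  ring

lemma av_abs (v : HeightOneSpectrum (𝓞 K)) (F : (Fin D → 𝓞 K ⧸ v.asIdeal) → ℝ) (B : ℝ) (hF : ∀ u, |F u| ≤ B) : |av v F| ≤ B := by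
  have hfin := quot_finite v
  have : Fintype (𝓞 K ⧸ v.asIdeal) := Fintype.ofFinite _
  rw [abs_le]
  constructor
  · have h1 := av_le v (fun u => -F u) B (fun u => by have := (abs_le.1 (hF u)).1; linarith)
    have h2 : av v (fun u => -F u) = -av v F := by
      unfold av
      rw [finsum_eq_sum_of_fintype, finsum_eq_sum_of_fintype, sum_neg_distrib, neg_div]
    rw [h2] at h1
    linarith
  · exact av_le v F B (fun u => (abs_le.1 (hF u)).2)

lemma Bd_each (M : ℝ) (v : HeightOneSpectrum (𝓞 K)) (F : (Fin D → 𝓞 K ⧸ v.asIdeal) → ℝ) : ∃ C : ℝ, 0 ≤ C ∧ Bd C M v F := by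
  have hfin := quot_finite v
  have : Fintype (𝓞 K ⧸ v.asIdeal) := Fintype.ofFinite _
  obtain ⟨B, hB⟩ : ∃ B, B = ∑ u, |F u| := ⟨_, rfl⟩
  have hB0 : 0 ≤ B := by rw [hB]; exact sum_nonneg fun _ _ => abs_nonneg _
  have hFB : ∀ u, |F u| ≤ B := fun u => by
    rw [hB]
    exact single_le_sum (f := fun u => |F u|) (fun _ _ => abs_nonneg _) (mem_univ u)
  have hs := sq_one v
  refine ⟨B ^ 2 + (B + |M|) * Real.sqrt (Ideal.absNorm v.asIdeal), by positivity, fun u => ?_, ?_, ?_⟩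
  · refine (hFB u).trans ?_
    have h1 : 0 ≤ B ^ 2 + |M| * Real.sqrt (Ideal.absNorm v.asIdeal) := by positivity
    have h2 : B ≤ B * Real.sqrt (Ideal.absNorm v.asIdeal) := le_mul_of_one_le_right hB0 hs
    have h3 : B ^ 2 + (B + |M|) * Real.sqrt (Ideal.absNorm v.asIdeal) ≤ (B ^ 2 + (B + |M|) * Real.sqrt (Ideal.absNorm v.asIdeal)) * Real.sqrt (Ideal.absNorm v.asIdeal) :=
      le_mul_of_one_le_right (by positivity) hs
    linarith
  · refine (av_le v (fun u => F u ^ 2) (B ^ 2) fun u => ?_).trans ?_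
    · rw [← sq_abs]
      exact pow_le_pow_left₀ (abs_nonneg _) (hFB u) 2
    · have : 0 ≤ (B + |M|) * Real.sqrt (Ideal.absNorm v.asIdeal) := by positivity
      linarith
  · have h1 := av_abs v F B hFB
    have h2 : |av v F - M| ≤ B + |M| := (abs_sub _ _).trans (by linarith)
    refine h2.trans ?_
    rw [le_div_iff₀ (by linarith)]
    have : 0 ≤ B ^ 2 := sq_nonneg _
    linarith

lemma upgrade (Φ : ∀ v : HeightOneSpectrum (𝓞 K), (Fin D → 𝓞 K ⧸ v.asIdeal) → ℝ) (M : ℝ) (S : Set (HeightOneSpectrum (𝓞 K))) (hS : S.Finite)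
    (C : ℝ) (hC : 0 ≤ C) (h : ∀ v ∉ S, Bd C M v (Φ v)) : ∃ C' : ℝ, 0 ≤ C' ∧ ∀ v, Bd C' M v (Φ v) := by
  choose C' hC' using fun v => Bd_each M v (Φ v)
  refine ⟨C + ∑ v ∈ hS.toFinset, C' v, add_nonneg hC (sum_nonneg fun v _ => (hC' v).1), fun v => ?_⟩
  by_cases hv : v ∈ S
  · refine Bd_mono ?_ (hC' v).2
    have h1 := single_le_sum (f := C') (fun v _ => (hC' v).1) (hS.mem_toFinset.2 hv)
    linarith
  · refine Bd_mono ?_ (h v hv)
    have : 0 ≤ ∑ v ∈ hS.toFinset, C' v := sum_nonneg fun v _ => (hC' v).1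
    linarith

lemma finite_dvd (a : 𝓞 K) (ha : a ≠ 0) : {v : HeightOneSpectrum (𝓞 K) | a ∈ v.asIdeal}.Finite := by
  have h := Ideal.finite_factors (R := 𝓞 K) (I := Ideal.span {a}) (by rwa [Ne, Ideal.zero_eq_bot, Ideal.span_singleton_eq_bot])
  refine h.subset fun v hv => ?_
  rw [Set.mem_ofPred_eq, Ideal.dvd_span_singleton]
  exact hv

end bounds

section
variable {K : Type} [Field K] [NumberField K] {m D : ℕ}

/-- the reduction -/
noncomputable def mkv (v : HeightOneSpectrum (𝓞 K)) : 𝓞 K →+* 𝓞 K ⧸ v.asIdeal := Ideal.Quotient.mk v.asIdeal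

/-- the points of the base locus -/
noncomputable def cb (v : HeightOneSpectrum (𝓞 K)) (h : Fin D → (MvPolynomial (Fin m) (𝓞 K))[X]) : ℕ :=
  Nat.card {P : (Fin m → 𝓞 K ⧸ v.asIdeal) × (𝓞 K ⧸ v.asIdeal) // ∀ i, vf (mkv v) (h i) P = 0}

/-- the points of the covering of the base locus -/
noncomputable def cc (v : HeightOneSpectrum (𝓞 K)) (F₀ : (MvPolynomial (Fin m) (𝓞 K))[X]) (h : Fin D → (MvPolynomial (Fin m) (𝓞 K))[X]) : ℕ :=
  Nat.card {P : ((Fin m → 𝓞 K ⧸ v.asIdeal) × (𝓞 K ⧸ v.asIdeal)) × (𝓞 K ⧸ v.asIdeal) //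
    (∀ i, vf (mkv v) (h i) P.1 = 0) ∧ P.2 ^ 2 = vf (mkv v) F₀ P.1}

/-- separation -/
def SepV (v : HeightOneSpectrum (𝓞 K)) (h : Fin D → (MvPolynomial (Fin m) (𝓞 K))[X]) : Prop :=
  ∀ P Q : (Fin m → 𝓞 K ⧸ v.asIdeal) × (𝓞 K ⧸ v.asIdeal), P ≠ Q → (∃ i, vf (mkv v) (h i) P ≠ 0) →
    ¬ ∃ l : 𝓞 K ⧸ v.asIdeal, ∀ i, vf (mkv v) (h i) P = l * vf (mkv v) (h i) Q

lemma bs_card {κ Ω : Type} [Field κ] [Fintype κ] [DecidableEq κ] [Fintype Ω] [DecidableEq Ω] (h2 : ringChar κ ≠ 2) (f : Ω → κ) (h : Fin D → Ω → κ) :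
    bs f h = (Nat.card {P : Ω × κ // (∀ i, h i P.1 = 0) ∧ P.2 ^ 2 = f P.1} : ℝ) - Nat.card {P : Ω // ∀ i, h i P = 0} := by
  have e : {P : Ω × κ // (∀ i, h i P.1 = 0) ∧ P.2 ^ 2 = f P.1} ≃ (Σ Q : {P : Ω // ∀ i, h i P = 0}, {y : κ // y ^ 2 = f Q.1}) :=
    { toFun := fun P => ⟨⟨P.1.1, P.2.1⟩, ⟨P.1.2, P.2.2⟩⟩
      invFun := fun Q => ⟨(Q.1.1, Q.2.1), Q.1.2, Q.2.2⟩
      left_inv := fun _ => rfl
      right_inv := fun _ => rfl }
  rw [Nat.card_congr e, Nat.card_sigma, Nat.card_eq_fintype_card (α := {P : Ω // ∀ i, h i P = 0})]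
  push_cast
  simp only [card_sqrt h2]
  rw [sum_add_distrib, sum_const, card_univ, nsmul_eq_mul, mul_one, add_sub_cancel_left]
  unfold bs
  rw [sum_subtype (univ.filter fun P => ∀ i, h i P = 0) (p := fun P => ∀ i, h i P = 0) (by intro x; simp)]

/-- the bounds for the averages of the traces -/
theorem Bd_main (hm : 1 ≤ m) (F₀ : (MvPolynomial (Fin m) (𝓞 K))[X]) (h : Fin D → (MvPolynomial (Fin m) (𝓞 K))[X])
    {g' : ℕ} (hF : F₀.Monic) (hd : F₀.natDegree = 2 * g' + 1) (hh : ∀ i, (h i).natDegree < 2 * g' + 1) (r C₀ : ℝ)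
    (v : HeightOneSpectrum (𝓞 K)) (hv2 : (2 : 𝓞 K) ∉ v.asIdeal) (hs : SepV v h)
    (hb : |(cc v F₀ h : ℝ) - cb v h - r * (Ideal.absNorm v.asIdeal : ℝ) ^ m| ≤ C₀ * ((Ideal.absNorm v.asIdeal : ℝ) ^ m / Real.sqrt (Ideal.absNorm v.asIdeal))) :
    Bd (2 * g' + |r| + (2 + 2 * C₀ ^ 2) + |C₀|) 0 v (fun u => Ag (mkv v) F₀ h u + r) := by
  classical
  have hmax : v.asIdeal.IsMaximal := v.isMaximal
  let fld : Field (𝓞 K ⧸ v.asIdeal) := Ideal.Quotient.field v.asIdeal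
  have hfin := quot_finite v
  let ft : Fintype (𝓞 K ⧸ v.asIdeal) := Fintype.ofFinite _
  have h2 : ringChar (𝓞 K ⧸ v.asIdeal) ≠ 2 := by
    intro h3
    have h4 : ((ringChar (𝓞 K ⧸ v.asIdeal) : ℕ) : 𝓞 K ⧸ v.asIdeal) = 0 := CharP.cast_eq_zero _ _
    rw [h3] at h4
    apply hv2
    rw [← Ideal.Quotient.eq_zero_iff_mem, map_ofNat]
    exact_mod_cast h4
  have hq : (Ideal.absNorm v.asIdeal : ℝ) = Fintype.card (𝓞 K ⧸ v.asIdeal) := by
    rw [norm_card, Nat.card_eq_fintype_card]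
  have hbs := bs_card h2 (vf (mkv v) F₀) (fun i => vf (mkv v) (h i))
  have hqm : (0 : ℝ) < (Ideal.absNorm v.asIdeal : ℝ) ^ m / Real.sqrt (Ideal.absNorm v.asIdeal) := by
    have h1 := q_one v
    have h3 := sq_one v
    positivity
  have hC0 : 0 ≤ C₀ := by
    by_contra hcon
    push Not at hcon
    have h3 := (abs_nonneg _).trans hb
    nlinarith
  obtain ⟨h3, h4, h5⟩ := loc_all hm h2 (mkv v) F₀ h hF hd hh r C₀ hC0 hs (by
    rw [hbs, ← hq]
    exact hb)
  rw [← hq] at h3 h4 h5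
  have hs1 := sq_one v
  have hcc : 0 ≤ 2 + 2 * C₀ ^ 2 := by positivity
  have hr := abs_nonneg r
  have hg0 : (0 : ℝ) ≤ g' := Nat.cast_nonneg _
  have hC1 := abs_nonneg C₀
  refine ⟨fun u => (h3 u).trans ?_, ?_, ?_⟩
  · apply mul_le_mul_of_nonneg_right _ (by linarith)
    linarith
  · unfold av
    rw [finsum_eq_sum_of_fintype]
    refine h4.trans ?_
    linarith
  · unfold av
    rw [finsum_eq_sum_of_fintype, sub_zero]
    refine h5.trans ?_
    apply div_le_div_of_nonneg_right _ (by linarith)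
    have := le_abs_self C₀
    linarith

open Classical in
/-- the bounds for the part over the bad prime ideals -/
theorem Bd_bad (P : MvPolynomial (Fin D) (𝓞 K)) (v : HeightOneSpectrum (𝓞 K)) (hP : MvPolynomial.map (mkv v) P ≠ 0) (C : ℝ) (hC : 0 ≤ C)
    (F : (Fin D → 𝓞 K ⧸ v.asIdeal) → ℝ) (hF : Bd C 0 v F) :
    Bd (C + Real.sqrt (C * P.totalDegree)) 0 v (fun u => |F u| * (if MvPolynomial.eval u (MvPolynomial.map (mkv v) P) = 0 then 1 else 0)) := by
  have hmax : v.asIdeal.IsMaximal := v.isMaximal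
  let fld : Field (𝓞 K ⧸ v.asIdeal) := Ideal.Quotient.field v.asIdeal
  have hfin := quot_finite v
  let ft : Fintype (𝓞 K ⧸ v.asIdeal) := Fintype.ofFinite _
  have hq : (Ideal.absNorm v.asIdeal : ℝ) = Fintype.card (𝓞 K ⧸ v.asIdeal) := by
    rw [norm_card, Nat.card_eq_fintype_card]
  have hq1 := q_one v
  have hs1 := sq_one v
  obtain ⟨h1, h2, h3⟩ := hF
  have hsC : 0 ≤ Real.sqrt (C * P.totalDegree) := Real.sqrt_nonneg _
  have hle : ∀ u, |(|F u|) * (if MvPolynomial.eval u (MvPolynomial.map (mkv v) P) = 0 then (1 : ℝ) else 0)| ≤ |F u| := by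
    intro u
    rw [abs_mul, abs_abs]
    apply mul_le_of_le_one_right (abs_nonneg _)
    split_ifs <;> simp
  refine ⟨fun u => ?_, ?_, ?_⟩
  · refine ((hle u).trans (h1 u)).trans ?_
    apply mul_le_mul_of_nonneg_right _ (by linarith)
    linarith
  · have h4 : av v (fun u => (|F u| * (if MvPolynomial.eval u (MvPolynomial.map (mkv v) P) = 0 then (1 : ℝ) else 0)) ^ 2) ≤ av v (fun u => F u ^ 2) := by
      unfold av
      rw [finsum_eq_sum_of_fintype, finsum_eq_sum_of_fintype]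
      apply div_le_div_of_nonneg_right _ (by positivity)
      refine sum_le_sum fun u _ => ?_
      rw [← sq_abs, ← sq_abs (F u)]
      exact pow_le_pow_left₀ (abs_nonneg _) (hle u) 2
    linarith
  · have h4 : 0 ≤ av v (fun u => |F u| * (if MvPolynomial.eval u (MvPolynomial.map (mkv v) P) = 0 then (1 : ℝ) else 0)) := by
      unfold av
      rw [finsum_eq_sum_of_fintype]
      exact div_nonneg (sum_nonneg fun u _ => mul_nonneg (abs_nonneg _) (by split_ifs <;> norm_num)) (by positivity)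
    rw [sub_zero, abs_of_nonneg h4]
    have h5 : av v (fun u => |F u| * (if MvPolynomial.eval u (MvPolynomial.map (mkv v) P) = 0 then (1 : ℝ) else 0)) ^ 2 ≤
        av v (fun u => F u ^ 2) * (P.totalDegree / Ideal.absNorm v.asIdeal) := by
      unfold av at h2 ⊢
      rw [finsum_eq_sum_of_fintype, finsum_eq_sum_of_fintype]
      have h6 := sum_mul_sq_le_sq_mul_sq univ (fun u => |F u|) (fun u => if MvPolynomial.eval u (MvPolynomial.map (mkv v) P) = 0 then (1 : ℝ) else 0)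
      have h7 : ∑ u : Fin D → 𝓞 K ⧸ v.asIdeal, (if MvPolynomial.eval u (MvPolynomial.map (mkv v) P) = 0 then (1 : ℝ) else 0) ^ 2 =
          ((univ.filter (fun u : Fin D → 𝓞 K ⧸ v.asIdeal => MvPolynomial.eval u (MvPolynomial.map (mkv v) P) = 0)).card : ℝ) := by
        rw [card_filter]
        push_cast
        refine sum_congr rfl fun u _ => ?_
        split_ifs <;> simp
      have h8 := zeros_le (MvPolynomial.map (mkv v) P) hP
      have h9 : ((MvPolynomial.map (mkv v) P).totalDegree : ℝ) ≤ P.totalDegree := by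
        exact_mod_cast Finset.sup_mono (MvPolynomial.support_map_subset (mkv v) P)
      rw [h7] at h6
      simp only [sq_abs] at h6
      rw [← hq] at h8
      obtain ⟨Z, hZ⟩ : ∃ Z : ℝ, Z = ((univ.filter (fun u : Fin D → 𝓞 K ⧸ v.asIdeal => MvPolynomial.eval u (MvPolynomial.map (mkv v) P) = 0)).card : ℝ) := ⟨_, rfl⟩
      have hZ0 : 0 ≤ Z := by rw [hZ]; exact Nat.cast_nonneg _
      have h8' : Z / (Ideal.absNorm v.asIdeal : ℝ) ^ D ≤ P.totalDegree / Ideal.absNorm v.asIdeal := by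
        rw [hZ]
        refine h8.trans ?_
        exact div_le_div_of_nonneg_right h9 (by linarith)
      rw [← hZ] at h6
      obtain ⟨U, hU⟩ : ∃ U : ℝ, U = ∑ u : Fin D → 𝓞 K ⧸ v.asIdeal, F u ^ 2 := ⟨_, rfl⟩
      have hU0 : 0 ≤ U := by rw [hU]; exact sum_nonneg fun _ _ => sq_nonneg _
      rw [← hU] at h6 ⊢
      rw [div_pow]
      calc (∑ u : Fin D → 𝓞 K ⧸ v.asIdeal, |F u| * (if MvPolynomial.eval u (MvPolynomial.map (mkv v) P) = 0 then (1 : ℝ) else 0)) ^ 2 /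
            ((Ideal.absNorm v.asIdeal : ℝ) ^ D) ^ 2 ≤ (U * Z) / ((Ideal.absNorm v.asIdeal : ℝ) ^ D) ^ 2 :=
            div_le_div_of_nonneg_right h6 (by positivity)
        _ = (U / (Ideal.absNorm v.asIdeal : ℝ) ^ D) * (Z / (Ideal.absNorm v.asIdeal : ℝ) ^ D) := by
            field_simp
        _ ≤ _ := mul_le_mul_of_nonneg_left h8' (by positivity)
    have h6 : av v (fun u => |F u| * (if MvPolynomial.eval u (MvPolynomial.map (mkv v) P) = 0 then (1 : ℝ) else 0)) ≤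
        Real.sqrt (C * P.totalDegree) / Real.sqrt (Ideal.absNorm v.asIdeal) := by
      rw [← Real.sqrt_div (by positivity)]
      apply Real.le_sqrt_of_sq_le
      refine h5.trans ?_
      rw [mul_div_assoc]
      exact mul_le_mul_of_nonneg_right h2 (by positivity)
    refine h6.trans ?_
    apply div_le_div_of_nonneg_right _ (by linarith)
    linarith

end

end Pool.Agent.N647.NG
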