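import Pool.Agent.N647.TS.Conv
import Pool.Agent.N647.TS.Law
import Pool.Agent.N842.HS.PrmG

/-!
# Local functions at all the prime ideals of a number field: reduction and local means
-/

set_option autoImplicit false

namespace Pool.Agent.N647.NG

open Finset NumberField IsDedekindDomain
open Pool.Agent.TH894.NE (mean box mem_box Per mean_prod mean_mono mean_const mean_mul mean_add card_box)
open Pool.Agent.N842.HS (VT mem_VT cf res_char prime_above norm_card)
open Pool.Agent.N647.TS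

variable {K : Type} [Field K] [NumberField K]

/-- the residue characteristic -/
noncomputable def rc (v : HeightOneSpectrum (𝓞 K)) : ℕ := (res_char v).choose

lemma rc_spec (v : HeightOneSpectrum (𝓞 K)) : ∃ f : ℕ, (rc v).Prime ∧ 1 ≤ f ∧ Ideal.absNorm v.asIdeal = (rc v) ^ f ∧ ((rc v : ℕ) : 𝓞 K) ∈ v.asIdeal :=
  (res_char v).choose_spec

lemma rc_prime (v : HeightOneSpectrum (𝓞 K)) : (rc v).Prime := by
  obtain ⟨f, h, _⟩ := rc_spec v
  exact h

lemma rc_mem (v : HeightOneSpectrum (𝓞 K)) : ((rc v : ℕ) : 𝓞 K) ∈ v.asIdeal := by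
  obtain ⟨f, _, _, _, h⟩ := rc_spec v
  exact h

lemma rc_le (v : HeightOneSpectrum (𝓞 K)) : rc v ≤ Ideal.absNorm v.asIdeal := by
  obtain ⟨f, _, h1, h2, _⟩ := rc_spec v
  rw [h2]
  exact Nat.le_self_pow (by omega) _

lemma quot_finite (v : HeightOneSpectrum (𝓞 K)) : Finite (𝓞 K ⧸ v.asIdeal) := Ideal.finiteQuotientOfFreeOfNeBot _ v.ne_bot

/-- the average over the coefficient vectors modulo `v` -/
noncomputable def av {D : ℕ} (v : HeightOneSpectrum (𝓞 K)) (F : (Fin D → 𝓞 K ⧸ v.asIdeal) → ℝ) : ℝ :=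
  (∑ᶠ u, F u) / (Ideal.absNorm v.asIdeal : ℝ) ^ D

/-- the reduction of the coefficient vector -/
def rd {D g : ℕ} (ω : Fin g → 𝓞 K) (v : HeightOneSpectrum (𝓞 K)) (m : Fin (D * g) → ℕ) : Fin D → 𝓞 K ⧸ v.asIdeal :=
  fun i => Ideal.Quotient.mk v.asIdeal (cf ω m i)

lemma charP_quot (v : HeightOneSpectrum (𝓞 K)) : CharP (𝓞 K ⧸ v.asIdeal) (rc v) := by
  have : Nontrivial (𝓞 K ⧸ v.asIdeal) := Ideal.Quotient.nontrivial_iff.2 v.isPrime.ne_top
  rw [CharP.charP_iff_prime_eq_zero (rc_prime v)]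
  rw [← map_natCast (Ideal.Quotient.mk v.asIdeal), Ideal.Quotient.eq_zero_iff_mem]
  exact rc_mem v

/-- the reduction as a homomorphism -/
noncomputable def rho {D g : ℕ} (ω : Fin g → 𝓞 K) (v : HeightOneSpectrum (𝓞 K)) :
    (Fin (D * g) → ZMod (rc v)) →+ (Fin D → 𝓞 K ⧸ v.asIdeal) :=
  haveI := charP_quot v
  { toFun := fun u i => ∑ j, ZMod.castHom (dvd_refl (rc v)) (𝓞 K ⧸ v.asIdeal) (u (finProdFinEquiv (i, j))) * Ideal.Quotient.mk v.asIdeal (ω j)
    map_zero' := by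
      funext i
      simp
    map_add' := by
      intro u w
      funext i
      simp only [Pi.add_apply, map_add, add_mul, sum_add_distrib] }

lemma rho_cast {D g : ℕ} (ω : Fin g → 𝓞 K) (v : HeightOneSpectrum (𝓞 K)) (m : Fin (D * g) → ℕ) :
    rho (D := D) ω v (fun k => (m k : ZMod (rc v))) = rd ω v m := by
  have := charP_quot v
  funext i
  show ∑ j, ZMod.castHom (dvd_refl (rc v)) (𝓞 K ⧸ v.asIdeal) ((m (finProdFinEquiv (i, j)) : ℕ) : ZMod (rc v)) * Ideal.Quotient.mk v.asIdeal (ω j) =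
    Ideal.Quotient.mk v.asIdeal (cf ω m i)
  unfold cf
  rw [map_sum]
  refine sum_congr rfl fun j _ => ?_
  rw [map_mul, map_natCast, map_natCast]

lemma rho_surj {D g : ℕ} (ω : Fin g → 𝓞 K) (hω : Submodule.span ℤ (Set.range ω) = ⊤) (v : HeightOneSpectrum (𝓞 K)) :
    Function.Surjective (rho (D := D) ω v) := by
  have := charP_quot v
  intro b
  have h1 : ∀ i, ∃ c : Fin g → ℤ, Ideal.Quotient.mk v.asIdeal (∑ j, c j • ω j) = b i := by
    intro i
    obtain ⟨x, hx⟩ := Ideal.Quotient.mk_surjective (b i)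
    have h2 : x ∈ Submodule.span ℤ (Set.range ω) := by
      rw [hω]
      exact Submodule.mem_top
    obtain ⟨c, hc⟩ := (Submodule.mem_span_range_iff_exists_fun ℤ).1 h2
    exact ⟨c, by rw [hc, hx]⟩
  choose c hc using h1
  refine ⟨fun k => ((c (finProdFinEquiv.symm k).1 (finProdFinEquiv.symm k).2 : ℤ) : ZMod (rc v)), ?_⟩
  funext i
  show ∑ j, ZMod.castHom (dvd_refl (rc v)) (𝓞 K ⧸ v.asIdeal)
    ((c (finProdFinEquiv.symm (finProdFinEquiv (i, j))).1 (finProdFinEquiv.symm (finProdFinEquiv (i, j))).2 : ℤ) : ZMod (rc v)) *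
      Ideal.Quotient.mk v.asIdeal (ω j) = b i
  rw [← hc i, map_sum]
  refine sum_congr rfl fun j _ => ?_
  rw [Equiv.symm_apply_apply, map_intCast, zsmul_eq_mul, map_mul, map_intCast]

lemma mean_rd {D g : ℕ} (ω : Fin g → 𝓞 K) (hω : Submodule.span ℤ (Set.range ω) = ⊤) (v : HeightOneSpectrum (𝓞 K))
    (F : (Fin D → 𝓞 K ⧸ v.asIdeal) → ℝ) : mean (D * g) (rc v) (fun m => F (rd ω v m)) = av v F := by
  have hp : Fact (rc v).Prime := ⟨rc_prime v⟩
  have hfin := quot_finite v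
  have : Fintype (𝓞 K ⧸ v.asIdeal) := Fintype.ofFinite _
  have h1 : (fun m : Fin (D * g) → ℕ => F (rd ω v m)) =
      fun m => (fun u : Fin (D * g) → ZMod (rc v) => F (rho ω v u)) (fun k => (m k : ZMod (rc v))) := by
    funext m
    rw [← rho_cast]
  rw [h1, Pool.Agent.N842.ST.mean_eq_av (rc v) (fun u : Fin (D * g) → ZMod (rc v) => F (rho ω v u))]
  unfold Pool.Agent.N842.ST.av
  have h3 := Pool.Agent.Y57.FD.Mom.mean_hom (rho (D := D) ω v) (rho_surj ω hω v) F
  rw [Fintype.card_fun, Fintype.card_fun, Fintype.card_fin, Fintype.card_fin, ZMod.card] at h3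
  push_cast at h3
  rw [h3]
  unfold av
  rw [finsum_eq_sum_of_fintype, norm_card, Nat.card_eq_fintype_card]

lemma rd_mod {D g : ℕ} (ω : Fin g → 𝓞 K) (v : HeightOneSpectrum (𝓞 K)) (m : Fin (D * g) → ℕ) :
    rd (D := D) ω v m = rd ω v (fun k => m k % rc v) := by
  rw [← rho_cast, ← rho_cast]
  congr 1
  funext k
  rw [ZMod.natCast_mod]

end Pool.Agent.N647.NG
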