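import Pool.Agent.N647.NG.Num

/-!
# Fibrations in surfaces which are fibred over the line in hyperelliptic curves, over finite fields
-/

set_option autoImplicit false

namespace Pool.Agent.N647.NG

open Finset Polynomial

section
variable {κ : Type} [CommRing κ]

/-- the fibre at infinity -/
noncomputable def atI (n : ℕ) (P : κ[X][X]) : κ[X] :=
  ∑ j ∈ range (P.natDegree + 1), C ((P.coeff j).coeff (2 * n * (P.natDegree - j))) * X ^ j

/-- the number of the points of the surface -/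
noncomputable def npt (n : ℕ) (P : κ[X][X]) : ℕ :=
  Nat.card {Q : κ × κ × κ // Q.2.2 ^ 2 = (P.map (evalRingHom Q.1)).eval Q.2.1} +
    Nat.card {Q : κ × κ // Q.2 ^ 2 = (atI n P).eval Q.1} + (Nat.card κ + 1)

/-- the trace on `H²` -/
noncomputable def tr2 (n : ℕ) (P : κ[X][X]) : ℝ := (npt n P : ℝ) - 1 - (Nat.card κ : ℝ) ^ 2

lemma atI_monic [Nontrivial κ] (n : ℕ) (P : κ[X][X]) (hP : P.Monic) : (atI n P).Monic ∧ (atI n P).natDegree = P.natDegree := by
  have h1 : (atI n P).coeff P.natDegree = 1 := by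
    unfold atI
    rw [finset_sum_coeff, Finset.sum_eq_single P.natDegree]
    · rw [coeff_C_mul, coeff_X_pow, if_pos rfl, mul_one, Nat.sub_self, mul_zero]
      have h5 : P.coeff P.natDegree = 1 := hP
      rw [h5, coeff_one_zero]
    · intro j _ hj
      rw [coeff_C_mul, coeff_X_pow, if_neg (fun h => hj h.symm), mul_zero]
    · intro h
      exact absurd (Finset.mem_range.2 (by omega)) h
  have h2 : (atI n P).natDegree ≤ P.natDegree := by
    unfold atI
    refine natDegree_sum_le_of_forall_le _ _ fun j hj => ?_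
    refine (natDegree_C_mul_X_pow_le _ _).trans ?_
    have := Finset.mem_range.1 hj
    omega
  have h3 : (atI n P).natDegree = P.natDegree := natDegree_eq_of_le_of_coeff_ne_zero h2 (by rw [h1]; exact one_ne_zero)
  exact ⟨by rw [Monic, leadingCoeff, h3, h1], h3⟩

variable {R : Type} [CommRing R] {m : ℕ}

/-- the surface over the point `u` -/
noncomputable def sf (φ : R →+* κ) (F : (MvPolynomial (Fin (m + 1)) R)[X]) (u : Fin m → κ) : κ[X][X] :=
  F.map (MvPolynomial.eval₂Hom ((C : κ →+* κ[X]).comp φ) (Fin.cons X fun i => C (u i)))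

/-- the average of the traces on `H²` -/
noncomputable def BB (n : ℕ) (φ : R →+* κ) (F : (MvPolynomial (Fin (m + 1)) R)[X]) : ℝ :=
  (∑ᶠ u : Fin m → κ, tr2 n (sf φ F u)) / (Nat.card κ : ℝ) ^ m

lemma sf_eval (φ : R →+* κ) (F : (MvPolynomial (Fin (m + 1)) R)[X]) (u : Fin m → κ) (τ x : κ) :
    ((sf φ F u).map (evalRingHom τ)).eval x = vf φ F (Fin.cons τ u, x) := by
  unfold sf vf ev
  rw [Polynomial.map_map]
  have h1 : (evalRingHom τ).comp (MvPolynomial.eval₂Hom ((C : κ →+* κ[X]).comp φ) (Fin.cons X fun i => C (u i))) =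
      MvPolynomial.eval₂Hom φ (Fin.cons τ u : Fin (m + 1) → κ) := by
    apply MvPolynomial.ringHom_ext
    · intro a
      simp
    · intro i
      refine Fin.cases ?_ (fun j => ?_) i
      · simp
      · simp
  rw [h1]

end

section
variable {κ : Type} [Field κ] [Fintype κ] [DecidableEq κ]

/-- the number of the affine points of a hyperelliptic curve -/
lemma card_inf {g : ℕ} {p : κ[X]} (hp : p.Monic) (hd : p.natDegree = 2 * g + 1) :
    |(Nat.card {Q : κ × κ // Q.2 ^ 2 = p.eval Q.1} : ℝ) - Fintype.card κ| ≤ 2 * g * Real.sqrt (Fintype.card κ) := by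
  have e : {Q : κ × κ // Q.2 ^ 2 = p.eval Q.1} ≃ (Σ x : κ, {y : κ // y ^ 2 = p.eval x}) :=
    { toFun := fun P => ⟨P.1.1, ⟨P.1.2, P.2⟩⟩
      invFun := fun Q => ⟨(Q.1, Q.2.1), Q.2.2⟩
      left_inv := fun _ => rfl
      right_inv := fun _ => rfl }
  rw [Nat.card_congr e, Nat.card_sigma]
  push_cast
  by_cases h2 : ringChar κ = 2
  · have hch : CharP κ 2 := by
      rw [← h2]
      exact ringChar.charP κ
    have hF : Fact (Nat.Prime 2) := ⟨Nat.prime_two⟩
    have h1 : ∀ a : κ, Nat.card {y : κ // y ^ 2 = a} = 1 := by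
      intro a
      have hinj : Function.Injective (fun y : κ => y ^ 2) := by
        have := frobenius_inj κ 2
        exact this
      have hbij : Function.Bijective (fun y : κ => y ^ 2) := Finite.injective_iff_bijective.1 hinj
      obtain ⟨y, hy⟩ := hbij.2 a
      rw [Nat.card_eq_one_iff_unique]
      refine ⟨⟨fun u w => ?_⟩, ⟨⟨y, hy⟩⟩⟩
      apply Subtype.ext
      apply hinj
      show u.1 ^ 2 = w.1 ^ 2
      rw [u.2, w.2]
    simp only [h1, Nat.cast_one, sum_const, card_univ, nsmul_eq_mul, mul_one, sub_self, abs_zero]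
    positivity
  · simp only [card_sqrt h2]
    rw [sum_add_distrib, sum_const, card_univ, nsmul_eq_mul, mul_one, add_sub_cancel_left]
    exact weil_odd h2 hp hd

variable {R : Type} [CommRing R] {m : ℕ}

lemma sum_aff (φ : R →+* κ) (F : (MvPolynomial (Fin (m + 1)) R)[X]) :
    ∑ u : Fin m → κ, (Nat.card {Q : κ × κ × κ // Q.2.2 ^ 2 = ((sf φ F u).map (evalRingHom Q.1)).eval Q.2.1} : ℝ) = pts φ F := by
  have e : {P : (Fin (m + 1) → κ) × κ × κ // P.2.2 ^ 2 = (ev φ P.1 F).eval P.2.1} ≃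
      (Σ u : Fin m → κ, {Q : κ × κ × κ // Q.2.2 ^ 2 = ((sf φ F u).map (evalRingHom Q.1)).eval Q.2.1}) :=
    { toFun := fun P => ⟨Fin.tail P.1.1, ⟨(P.1.1 0, P.1.2.1, P.1.2.2), by
        rw [sf_eval, Fin.cons_self_tail]
        exact P.2⟩⟩
      invFun := fun Q => ⟨(Fin.cons Q.2.1.1 Q.1, Q.2.1.2.1, Q.2.1.2.2), by
        have h := Q.2.2
        rw [sf_eval] at h
        exact h⟩
      left_inv := fun P => by
        apply Subtype.ext
        refine Prod.ext ?_ rfl
        exact Fin.cons_self_tail _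
      right_inv := fun Q => by
        obtain ⟨u, Q, hQ⟩ := Q
        rfl }
  unfold pts
  rw [Nat.card_congr e, Nat.card_sigma]
  push_cast
  rfl

theorem BB_main (n : ℕ) (φ : R →+* κ) (F : (MvPolynomial (Fin (m + 1)) R)[X]) {g : ℕ} (hF : F.Monic) (hd : F.natDegree = 2 * g + 1) (r : ℝ) :
    |BB n φ F - (2 + r) * Fintype.card κ + Fintype.card κ * (AA φ F + r)| ≤ 2 * g * Real.sqrt (Fintype.card κ) := by
  obtain ⟨q, hq⟩ : ∃ q : ℝ, q = Fintype.card κ := ⟨_, rfl⟩
  have hq0 : 0 < q := by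
    rw [hq]
    exact_mod_cast Fintype.card_pos
  obtain ⟨I, hI⟩ : ∃ I : (Fin m → κ) → ℝ, I = fun u => (Nat.card {Q : κ × κ // Q.2 ^ 2 = (atI n (sf φ F u)).eval Q.1} : ℝ) := ⟨_, rfl⟩
  have hIb : ∀ u, |I u - q| ≤ 2 * g * Real.sqrt q := by
    intro u
    have h1 : (sf φ F u).Monic := hF.map _
    have h2 : (sf φ F u).natDegree = 2 * g + 1 := by
      unfold sf
      rw [hF.natDegree_map, hd]
    obtain ⟨h3, h4⟩ := atI_monic n _ h1
    rw [h2] at h4
    rw [hI, hq]
    exact card_inf h3 h4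
  have h1 : BB n φ F = (pts φ F + ∑ u, I u + q ^ m * (q - q ^ 2)) / q ^ m := by
    unfold BB tr2 npt
    rw [finsum_eq_sum_of_fintype, Nat.card_eq_fintype_card, ← hq, ← sum_aff]
    push_cast
    rw [← hq, hI]
    congr 1
    have h3 : q ^ m * (q - q ^ 2) = ∑ _u : Fin m → κ, (q - q ^ 2) := by
      rw [sum_const, card_univ, Fintype.card_fun, Fintype.card_fin, nsmul_eq_mul]
      push_cast
      rw [← hq]
    rw [h3, ← sum_add_distrib, ← sum_add_distrib]
    exact sum_congr rfl fun u _ => by ring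
  have h2 : AA φ F = q - pts φ F / q ^ (m + 1) := by
    unfold AA
    rw [Nat.card_eq_fintype_card, ← hq]
  have h3 : BB n φ F - (2 + r) * q + q * (AA φ F + r) = (∑ u, (I u - q)) / q ^ m := by
    rw [h1, h2, sum_sub_distrib, sum_const, card_univ, Fintype.card_fun, Fintype.card_fin, nsmul_eq_mul]
    push_cast
    rw [← hq]
    field_simp
    ring
  rw [← hq, h3, abs_div, abs_of_pos (by positivity : 0 < q ^ m), div_le_iff₀ (by positivity)]
  refine (abs_sum_le_sum_abs _ _).trans ((sum_le_sum fun u _ => hIb u).trans ?_)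
  rw [sum_const, card_univ, Fintype.card_fun, Fintype.card_fin, nsmul_eq_mul]
  push_cast
  rw [← hq]
  exact le_of_eq (by ring)

end

end Pool.Agent.N647.NG
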