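import Pool.Agent.N647.NG.AnaT
import Pool.Agent.N647.NG.SurfA

/-!
# Fibrations in surfaces over number fields: the sums of the traces on `H²`
-/

set_option autoImplicit false

namespace Pool.Agent.N647.NG

open Finset Polynomial NumberField IsDedekindDomain Filter
open Pool.Agent.N842.HS (VT mem_VT cf norm_card)
open Pool.Agent.N647.TS

section
variable {K : Type} [Field K] [NumberField K]

/-- the sum of the negative powers of the norms -/
lemma sum_neg_pow (ε : ℝ) (hε : 0 < ε) : ∃ Z : ℝ, 0 ≤ Z ∧ ∀ T : ℕ, ∑ v ∈ VT K T, (Ideal.absNorm v.asIdeal : ℝ) ^ (-(1 + ε)) ≤ Z := by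
  have hs : Summable (fun k : ℕ => (k : ℝ) ^ (-(1 + ε))) := Real.summable_nat_rpow.2 (by linarith)
  refine ⟨Module.finrank ℤ (𝓞 K) * ∑' k : ℕ, (k : ℝ) ^ (-(1 + ε)), mul_nonneg (Nat.cast_nonneg _) (tsum_nonneg fun k => by positivity), fun T => ?_⟩
  rw [sum_VT]
  have h1 : ∀ p ∈ (Icc 1 T).filter Nat.Prime, ∑ v ∈ Vp K T p, (Ideal.absNorm v.asIdeal : ℝ) ^ (-(1 + ε)) ≤
      Module.finrank ℤ (𝓞 K) * (p : ℝ) ^ (-(1 + ε)) := by
    intro p hp
    rw [mem_filter] at hp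
    have h2 : ∀ v ∈ Vp K T p, (Ideal.absNorm v.asIdeal : ℝ) ^ (-(1 + ε)) ≤ (p : ℝ) ^ (-(1 + ε)) := by
      intro v hv
      unfold Vp at hv
      rw [mem_filter] at hv
      apply Real.rpow_le_rpow_of_nonpos
      · exact_mod_cast hp.2.pos
      · rw [← hv.2]
        exact_mod_cast rc_le v
      · linarith
    refine (sum_le_sum h2).trans ?_
    rw [sum_const, nsmul_eq_mul]
    apply mul_le_mul_of_nonneg_right _ (by positivity)
    exact_mod_cast card_Vp T p hp.2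
  refine (sum_le_sum h1).trans ?_
  rw [← mul_sum]
  apply mul_le_mul_of_nonneg_left _ (Nat.cast_nonneg _)
  exact hs.sum_le_tsum _ fun k _ => by positivity

lemma ev_s1 (c n δ : ℝ) (hc : 0 ≤ c) (hn : 0 ≤ n) (hδ : 0 < δ) : ∀ᶠ T : ℕ in atTop,
    (T : ℝ) * (T : ℝ) ^ (1 / 2 + δ / 2) + (n * T) * (c * Real.sqrt T * Real.log T) ≤ (T : ℝ) ^ (3 / 2 + δ) := by
  have h1 : Tendsto (fun x : ℝ => x ^ (δ / 2)) atTop atTop := tendsto_rpow_atTop (by positivity)
  have h2 := (isLittleO_log_rpow_atTop (show (0 : ℝ) < δ / 2 by positivity)).bound (show (0 : ℝ) < 1 by norm_num)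
  have h3 : ∀ᶠ x : ℝ in atTop, 1 + n * c ≤ x ^ (δ / 2) := h1.eventually (eventually_ge_atTop _)
  have h4 : ∀ᶠ x : ℝ in atTop, x * x ^ (1 / 2 + δ / 2) + (n * x) * (c * Real.sqrt x * Real.log x) ≤ x ^ (3 / 2 + δ) := by
    filter_upwards [h2, h3, eventually_ge_atTop 1] with x hx1 hx2 hx3
    have hx0 : 0 < x := by linarith
    have hl : 0 ≤ Real.log x := Real.log_nonneg hx3
    rw [Real.norm_of_nonneg hl, Real.norm_of_nonneg (by positivity), one_mul] at hx1
    have e4 : x * x ^ (1 / 2 + δ / 2) = x * Real.sqrt x * x ^ (δ / 2) := by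
      rw [Real.sqrt_eq_rpow, mul_assoc, ← Real.rpow_add hx0]
    have e5 : x ^ (3 / 2 + δ) = x * Real.sqrt x * x ^ (δ / 2) * x ^ (δ / 2) := by
      rw [Real.sqrt_eq_rpow]
      nth_rewrite 2 [← Real.rpow_one x]
      rw [← Real.rpow_add hx0, ← Real.rpow_add hx0, ← Real.rpow_add hx0]
      congr 1
      ring
    rw [e4, e5]
    have e6 : (n * x) * (c * Real.sqrt x * Real.log x) ≤ (n * c) * (x * Real.sqrt x * x ^ (δ / 2)) := by
      have e7 : (n * x) * (c * Real.sqrt x * Real.log x) = (n * c) * (x * Real.sqrt x * Real.log x) := by ring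
      rw [e7]
      apply mul_le_mul_of_nonneg_left _ (by positivity)
      exact mul_le_mul_of_nonneg_left hx1 (by positivity)
    have e8 : (1 + n * c) * (x * Real.sqrt x * x ^ (δ / 2)) ≤ x ^ (δ / 2) * (x * Real.sqrt x * x ^ (δ / 2)) :=
      mul_le_mul_of_nonneg_right hx2 (by positivity)
    calc x * Real.sqrt x * x ^ (δ / 2) + (n * x) * (c * Real.sqrt x * Real.log x) ≤ (1 + n * c) * (x * Real.sqrt x * x ^ (δ / 2)) := by linarith
      _ ≤ _ := e8
      _ = _ := by ring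
  exact tendsto_natCast_atTop_atTop.eventually h4

open Classical in
/-- the deterministic part -/
theorem surf_det (δ : ℝ) (hδ : 0 < δ) (c : ℝ) (hc : 0 ≤ c) : ∃ y₀ : ℕ, 2 ≤ y₀ ∧
    ∀ (G H : HeightOneSpectrum (𝓞 K) → ℝ), (∀ v, |H v + Ideal.absNorm v.asIdeal * G v| ≤ c * Real.sqrt (Ideal.absNorm v.asIdeal)) →
    ∀ w : HeightOneSpectrum (𝓞 K) → ℝ, (∀ v, |w v| ≤ 1) → ∀ R : Set (HeightOneSpectrum (𝓞 K)),
    (∀ T : ℕ, y₀ ≤ T →
      |∑ v ∈ (VT K T).filter (fun v => v ∉ R), (w v * min ((Ideal.absNorm v.asIdeal : ℝ) / T) 1) * (G v * Real.log (Ideal.absNorm v.asIdeal))| ≤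
        (T : ℝ) ^ (1 / 2 + δ / 2) →
      |∑ v ∈ (VT K T).filter (fun v => v ∉ R), w v * (H v * Real.log (Ideal.absNorm v.asIdeal))| ≤ (T : ℝ) ^ (3 / 2 + δ)) ∧
    (∀ T₁ T₂ : ℕ, y₀ ≤ T₁ → ∀ z : ℂ, 3 / 2 + δ ≤ z.re →
      ‖∑ v ∈ (VT K T₂).filter (fun v => v ∉ R ∧ T₁ < Ideal.absNorm v.asIdeal),
        ((w v * (G v * Real.log (Ideal.absNorm v.asIdeal)) : ℝ) : ℂ) * (Ideal.absNorm v.asIdeal : ℂ) ^ (-(z - 1))‖ ≤
          (T₁ : ℝ) ^ (1 / 2 + δ / 2 - (z - 1).re) →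
      ‖∑ v ∈ (VT K T₂).filter (fun v => v ∉ R ∧ T₁ < Ideal.absNorm v.asIdeal),
        ((w v * (H v * Real.log (Ideal.absNorm v.asIdeal)) : ℝ) : ℂ) * (Ideal.absNorm v.asIdeal : ℂ) ^ (-z)‖ ≤
          (T₁ : ℝ) ^ (3 / 2 + δ - z.re)) := by
  obtain ⟨n, hn⟩ : ∃ n, n = Module.finrank ℤ (𝓞 K) := ⟨_, rfl⟩
  obtain ⟨x₁, hx₁⟩ := eventually_atTop.1 (ev_s1 c n δ hc (Nat.cast_nonneg _) hδ)
  obtain ⟨Z, hZ0, hZ⟩ := sum_neg_pow (K := K) (δ / 4) (by positivity)
  obtain ⟨L, hL⟩ : ∃ L : ℝ, L = 1 + c * (1 / (δ / 4)) * Z := ⟨_, rfl⟩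
  have hev : ∀ᶠ T : ℕ in atTop, L ≤ (T : ℝ) ^ (δ / 2) := by
    have h1 : Tendsto (fun x : ℝ => x ^ (δ / 2)) atTop atTop := tendsto_rpow_atTop (by positivity)
    exact (h1.comp tendsto_natCast_atTop_atTop).eventually (eventually_ge_atTop _)
  obtain ⟨x₂, hx₂⟩ := eventually_atTop.1 hev
  refine ⟨x₁ + x₂ + 3, by omega, fun G H hGH w hw R => ⟨fun T hT hG => ?_, fun T₁ T₂ hT z hz hG => ?_⟩⟩
  · have hT0 : (0 : ℝ) < T := by exact_mod_cast (by omega : 0 < T)
    have hlogT : 0 ≤ Real.log T := Real.log_nonneg (by exact_mod_cast (by omega : 1 ≤ T))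
    have e1 : ∑ v ∈ (VT K T).filter (fun v => v ∉ R), w v * (H v * Real.log (Ideal.absNorm v.asIdeal)) =
        -(T * ∑ v ∈ (VT K T).filter (fun v => v ∉ R), (w v * min ((Ideal.absNorm v.asIdeal : ℝ) / T) 1) * (G v * Real.log (Ideal.absNorm v.asIdeal))) +
        ∑ v ∈ (VT K T).filter (fun v => v ∉ R), w v * ((H v + Ideal.absNorm v.asIdeal * G v) * Real.log (Ideal.absNorm v.asIdeal)) := by
      rw [mul_sum, ← sum_neg_distrib, ← sum_add_distrib]
      refine sum_congr rfl fun v hv => ?_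
      rw [mem_filter, mem_VT] at hv
      have hvT : (Ideal.absNorm v.asIdeal : ℝ) ≤ T := by exact_mod_cast hv.1
      rw [min_eq_left ((div_le_one hT0).2 hvT)]
      field_simp
      ring
    have e2 : |∑ v ∈ (VT K T).filter (fun v => v ∉ R), w v * ((H v + Ideal.absNorm v.asIdeal * G v) * Real.log (Ideal.absNorm v.asIdeal))| ≤
        (n * T) * (c * Real.sqrt T * Real.log T) := by
      have h2 : ∀ v ∈ (VT K T).filter (fun v => v ∉ R), |w v * ((H v + Ideal.absNorm v.asIdeal * G v) * Real.log (Ideal.absNorm v.asIdeal))| ≤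
          c * Real.sqrt T * Real.log T := by
        intro v hv
        rw [mem_filter, mem_VT] at hv
        have hq : (Ideal.absNorm v.asIdeal : ℝ) ≤ T := by exact_mod_cast hv.1
        have hq1 := q_one v
        have hl0 : 0 ≤ Real.log (Ideal.absNorm v.asIdeal) := Real.log_nonneg hq1
        have hl1 : Real.log (Ideal.absNorm v.asIdeal) ≤ Real.log T := Real.log_le_log (by linarith) hq
        rw [abs_mul, abs_mul, abs_of_nonneg hl0]
        calc |w v| * (|H v + Ideal.absNorm v.asIdeal * G v| * Real.log (Ideal.absNorm v.asIdeal)) ≤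
            1 * ((c * Real.sqrt (Ideal.absNorm v.asIdeal)) * Real.log (Ideal.absNorm v.asIdeal)) := by
              apply mul_le_mul (hw v) _ (by positivity) zero_le_one
              exact mul_le_mul_of_nonneg_right (hGH v) hl0
          _ ≤ c * Real.sqrt T * Real.log T := by
              rw [one_mul]
              have h5 := Real.sqrt_le_sqrt hq
              gcongr
      refine (abs_sum_le_sum_abs _ _).trans ((sum_le_sum h2).trans ?_)
      rw [sum_const, nsmul_eq_mul]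
      apply mul_le_mul_of_nonneg_right _ (by positivity)
      have h6 := card_VT (K := K) T
      rw [← hn] at h6
      refine le_trans ?_ h6
      exact_mod_cast card_le_card (filter_subset _ _)
    rw [e1]
    refine (abs_add_le _ _).trans ?_
    rw [abs_neg, abs_mul, abs_of_pos hT0]
    have h3 := mul_le_mul_of_nonneg_left hG hT0.le
    have h4 := hx₁ T (by omega)
    linarith
  · have hT1 : (0 : ℝ) < T₁ := by exact_mod_cast (by omega : 0 < T₁)
    have hpos : ∀ v : HeightOneSpectrum (𝓞 K), (0 : ℝ) < Ideal.absNorm v.asIdeal := fun v => by linarith [q_one v]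
    have e1 : ∑ v ∈ (VT K T₂).filter (fun v => v ∉ R ∧ T₁ < Ideal.absNorm v.asIdeal),
        ((w v * (H v * Real.log (Ideal.absNorm v.asIdeal)) : ℝ) : ℂ) * (Ideal.absNorm v.asIdeal : ℂ) ^ (-z) =
        -(∑ v ∈ (VT K T₂).filter (fun v => v ∉ R ∧ T₁ < Ideal.absNorm v.asIdeal),
          ((w v * (G v * Real.log (Ideal.absNorm v.asIdeal)) : ℝ) : ℂ) * (Ideal.absNorm v.asIdeal : ℂ) ^ (-(z - 1))) +
        ∑ v ∈ (VT K T₂).filter (fun v => v ∉ R ∧ T₁ < Ideal.absNorm v.asIdeal),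
          ((w v * ((H v + Ideal.absNorm v.asIdeal * G v) * Real.log (Ideal.absNorm v.asIdeal)) : ℝ) : ℂ) * (Ideal.absNorm v.asIdeal : ℂ) ^ (-z) := by
      rw [← sum_neg_distrib, ← sum_add_distrib]
      refine sum_congr rfl fun v _ => ?_
      have hne : (Ideal.absNorm v.asIdeal : ℂ) ≠ 0 := by
        have := (hpos v).ne'
        exact_mod_cast this
      have h5 : (Ideal.absNorm v.asIdeal : ℂ) ^ (-(z - 1)) = (Ideal.absNorm v.asIdeal : ℂ) * (Ideal.absNorm v.asIdeal : ℂ) ^ (-z) := by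
        rw [show -(z - 1) = 1 + -z by ring, Complex.cpow_add _ _ hne, Complex.cpow_one]
      rw [h5]
      push_cast
      ring
    have e2 : ‖∑ v ∈ (VT K T₂).filter (fun v => v ∉ R ∧ T₁ < Ideal.absNorm v.asIdeal),
          ((w v * ((H v + Ideal.absNorm v.asIdeal * G v) * Real.log (Ideal.absNorm v.asIdeal)) : ℝ) : ℂ) * (Ideal.absNorm v.asIdeal : ℂ) ^ (-z)‖ ≤
        c * (1 / (δ / 4)) * Z * (T₁ : ℝ) ^ (3 / 2 + δ / 2 - z.re) := by
      have h2 : ∀ v ∈ (VT K T₂).filter (fun v => v ∉ R ∧ T₁ < Ideal.absNorm v.asIdeal),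
          ‖((w v * ((H v + Ideal.absNorm v.asIdeal * G v) * Real.log (Ideal.absNorm v.asIdeal)) : ℝ) : ℂ) * (Ideal.absNorm v.asIdeal : ℂ) ^ (-z)‖ ≤
          c * (1 / (δ / 4)) * (T₁ : ℝ) ^ (3 / 2 + δ / 2 - z.re) * (Ideal.absNorm v.asIdeal : ℝ) ^ (-(1 + δ / 4)) := by
        intro v hv
        rw [mem_filter] at hv
        have hq1 := q_one v
        have hq0 := hpos v
        have hqT : (T₁ : ℝ) ≤ Ideal.absNorm v.asIdeal := by exact_mod_cast hv.2.2.le
        have hl0 : 0 ≤ Real.log (Ideal.absNorm v.asIdeal) := Real.log_nonneg hq1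
        have hl1 : Real.log (Ideal.absNorm v.asIdeal) ≤ (Ideal.absNorm v.asIdeal : ℝ) ^ (δ / 4) / (δ / 4) :=
          Real.log_le_rpow_div hq0.le (by positivity)
        have hn1 : ‖(Ideal.absNorm v.asIdeal : ℂ) ^ (-z)‖ = (Ideal.absNorm v.asIdeal : ℝ) ^ (-z.re) := by
          have h6 : (Ideal.absNorm v.asIdeal : ℂ) = ((Ideal.absNorm v.asIdeal : ℝ) : ℂ) := by push_cast; rfl
          rw [h6, Complex.norm_cpow_eq_rpow_re_of_pos hq0, Complex.neg_re]
        rw [norm_mul, Complex.norm_real, Real.norm_eq_abs, hn1, abs_mul, abs_mul, abs_of_nonneg hl0]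
        calc |w v| * (|H v + Ideal.absNorm v.asIdeal * G v| * Real.log (Ideal.absNorm v.asIdeal)) * (Ideal.absNorm v.asIdeal : ℝ) ^ (-z.re) ≤
            1 * ((c * Real.sqrt (Ideal.absNorm v.asIdeal)) * ((Ideal.absNorm v.asIdeal : ℝ) ^ (δ / 4) / (δ / 4))) * (Ideal.absNorm v.asIdeal : ℝ) ^ (-z.re) := by
              apply mul_le_mul_of_nonneg_right _ (by positivity)
              apply mul_le_mul (hw v) _ (by positivity) zero_le_one
              exact mul_le_mul (hGH v) hl1 hl0 (by positivity)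
          _ = c * (1 / (δ / 4)) * ((Ideal.absNorm v.asIdeal : ℝ) ^ (3 / 2 + δ / 2 - z.re) * (Ideal.absNorm v.asIdeal : ℝ) ^ (-(1 + δ / 4))) := by
              rw [Real.sqrt_eq_rpow, ← Real.rpow_add hq0,
                show 3 / 2 + δ / 2 - z.re + -(1 + δ / 4) = 1 / 2 + δ / 4 + -z.re by ring, Real.rpow_add hq0, Real.rpow_add hq0]
              ring
          _ ≤ c * (1 / (δ / 4)) * ((T₁ : ℝ) ^ (3 / 2 + δ / 2 - z.re) * (Ideal.absNorm v.asIdeal : ℝ) ^ (-(1 + δ / 4))) := by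
              apply mul_le_mul_of_nonneg_left _ (by positivity)
              apply mul_le_mul_of_nonneg_right _ (by positivity)
              exact Real.rpow_le_rpow_of_nonpos hT1 hqT (by linarith)
          _ = _ := by ring
      refine (norm_sum_le _ _).trans ((sum_le_sum h2).trans ?_)
      rw [← mul_sum]
      have h7 : ∑ v ∈ (VT K T₂).filter (fun v => v ∉ R ∧ T₁ < Ideal.absNorm v.asIdeal), (Ideal.absNorm v.asIdeal : ℝ) ^ (-(1 + δ / 4)) ≤ Z :=
        (sum_le_sum_of_subset_of_nonneg (filter_subset _ _) fun v _ _ => by positivity).trans (hZ T₂)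
      calc _ ≤ c * (1 / (δ / 4)) * (T₁ : ℝ) ^ (3 / 2 + δ / 2 - z.re) * Z := mul_le_mul_of_nonneg_left h7 (by positivity)
        _ = _ := by ring
    rw [e1]
    refine (norm_add_le _ _).trans ?_
    rw [norm_neg]
    have e3 : (1 / 2 + δ / 2 - (z - 1).re) = 3 / 2 + δ / 2 - z.re := by
      rw [Complex.sub_re, Complex.one_re]
      ring
    rw [e3] at hG
    have e4 : (T₁ : ℝ) ^ (3 / 2 + δ - z.re) = (T₁ : ℝ) ^ (δ / 2) * (T₁ : ℝ) ^ (3 / 2 + δ / 2 - z.re) := by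
      rw [← Real.rpow_add hT1]
      congr 1
      ring
    have e5 := hx₂ T₁ (by omega)
    have e6 : L * (T₁ : ℝ) ^ (3 / 2 + δ / 2 - z.re) ≤ (T₁ : ℝ) ^ (δ / 2) * (T₁ : ℝ) ^ (3 / 2 + δ / 2 - z.re) :=
      mul_le_mul_of_nonneg_right e5 (by positivity)
    rw [e4]
    rw [hL] at e6
    linarith

end

end Pool.Agent.N647.NG
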